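import Pool.Agent.Work.MP_0f91f8_co.Cge.Stmts
import Pool.Agent.Work.MP_0f91f8_co.BohrVdw

/-!
Block [0f91f8 CGE], item BRAUER.
-/

open Filter Topology

namespace Pool.Agent.Work.MP_0f91f8_co.Cge

namespace I_BRAUER

lemma finite_form {κ : Type} [DecidableEq κ] (hκ : Finite κ) (J c : ℕ) (hc : 0 < c) :
    ∀ r : ℕ, ∃ B : ℕ, ∀ (χ : ℕ → κ) (S : Finset κ), S.card ≤ r →
      (∀ t, 1 ≤ t → t ≤ B → χ t ∈ S) →
      ∃ s d : ℕ, 0 < d ∧ J * d < s ∧ s + J * d ≤ B ∧ c * d ≤ B ∧
        ∀ j ≤ J, χ (s + j * d) = χ (c * d) ∧ χ (s - j * d) = χ (c * d) := by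
  intro r
  induction r with
  | zero =>
    refine ⟨1, fun χ S hS h => ?_⟩
    have h1 := h 1 le_rfl le_rfl
    rw [Finset.card_eq_zero.1 (Nat.le_zero.1 hS)] at h1
    exact absurd h1 (Finset.notMem_empty _)
  | succ r ih =>
    obtain ⟨B', hB'⟩ := ih
    obtain ⟨H, hH⟩ := Bohr.vdw κ (2 * (J * B') + 1)
    refine ⟨1 + H + c * (1 + H) * B', fun χ S hS h => ?_⟩
    obtain ⟨b, d0, hb, hd0, hbH, hmono⟩ := hH χ 1
    have hLd : (2 * (J * B') + 1) * d0 = 2 * (J * B' * d0) + d0 := by ring
    have hd0H : d0 ≤ 1 + H := by omega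
    have haS : χ b ∈ S := h b hb (by omega)
    have hcd : ∀ t, t ≤ B' → c * d0 * t ≤ c * (1 + H) * B' := by
      intro t ht
      gcongr
    by_cases hcase : ∃ t, 1 ≤ t ∧ t ≤ B' ∧ χ (c * d0 * t) = χ b
    · obtain ⟨t, ht1, htB, hta⟩ := hcase
      have hJt : J * (d0 * t) ≤ J * B' * d0 := by
        calc J * (d0 * t) ≤ J * (d0 * B') := by gcongr
          _ = J * B' * d0 := by ring
      have hcdt : c * (d0 * t) = c * d0 * t := by ring
      refine ⟨b + J * B' * d0, d0 * t, by positivity, by omega, by omega, ?_, ?_⟩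
      · rw [hcdt]
        have := hcd t htB
        omega
      · intro j hj
        have hjt : j * t ≤ J * B' := Nat.mul_le_mul hj htB
        rw [hcdt, hta]
        constructor
        · have h1 := hmono (J * B' + j * t) (by omega)
          rw [← h1]
          congr 1
          ring
        · have h1 := hmono (J * B' - j * t) (by omega)
          rw [← h1]
          congr 1
          have h2 : j * (d0 * t) = (j * t) * d0 := by ring
          rw [h2, Nat.sub_mul]
          have h3 : j * t * d0 ≤ J * B' * d0 := Nat.mul_le_mul_right _ hjt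
          omega
    · push Not at hcase
      obtain ⟨s1, d1, hd1, hJs, hsB, hcB, hall⟩ := hB' (fun t => χ (c * d0 * t)) (S.erase (χ b))
        (by
          rw [Finset.card_erase_of_mem haS]
          omega)
        (by
          intro t ht1 htB
          refine Finset.mem_erase.2 ⟨hcase t ht1 htB, h _ ?_ ?_⟩
          · have : 0 < c * d0 * t := by positivity
            omega
          · have := hcd t htB
            omega)
      have hpos : 0 < c * d0 := by positivity
      refine ⟨c * d0 * s1, c * d0 * d1, by positivity, ?_, ?_, ?_, ?_⟩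
      · calc J * (c * d0 * d1) = c * d0 * (J * d1) := by ring
          _ < c * d0 * s1 := Nat.mul_lt_mul_of_pos_left hJs hpos
      · have h1 := hcd _ hsB
        have h2 : c * d0 * s1 + J * (c * d0 * d1) = c * d0 * (s1 + J * d1) := by ring
        omega
      · have h1 := hcd _ hcB
        have h2 : c * (c * d0 * d1) = c * d0 * (c * d1) := by ring
        omega
      · intro j hj
        obtain ⟨h1, h2⟩ := hall j hj
        have e1 : c * d0 * s1 + j * (c * d0 * d1) = c * d0 * (s1 + j * d1) := by ring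
        have e2 : c * d0 * s1 - j * (c * d0 * d1) = c * d0 * (s1 - j * d1) := by
          rw [Nat.mul_sub]
          congr 1
          ring
        have e3 : c * (c * d0 * d1) = c * d0 * (c * d1) := by ring
        rw [e1, e2, e3]
        exact ⟨h1, h2⟩

end I_BRAUER

/-- Item BRAUER. -/
theorem BRAUER_pf : BRAUER := by
  classical
  intro κ hκ J c hc χ
  have : Fintype κ := Fintype.ofFinite κ
  obtain ⟨B, hB⟩ := I_BRAUER.finite_form hκ J c hc (Finset.univ : Finset κ).card
  obtain ⟨s, d, hd, hJ, -, -, hall⟩ := hB χ Finset.univ le_rfl (fun t _ _ => Finset.mem_univ _)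
  exact ⟨s, d, hd, hJ, hall⟩

end Pool.Agent.Work.MP_0f91f8_co.Cge
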