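import Pool.Agent.Work.MP_0f91f8_co.Cge.Stmts

/-! Block CGE (0f91f8), item CFG. -/

set_option linter.unusedSectionVars false

open Filter Topology

namespace Pool.Agent.Work.MP_0f91f8_co.Cge

universe u v

variable (K : Type v) (Γ : Type u) [CommGroup K] [TopologicalSpace K] [IsTopologicalGroup K]
  [CompactSpace K] [T2Space K] [Group Γ] [TopologicalSpace Γ] [IsTopologicalGroup Γ]
  [CompactSpace Γ] [T2Space Γ]

namespace I_CFG

/-- a common denominator -/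
lemma exists_denom (Y : Finset ℚ) : ∃ c : ℕ, 0 < c ∧ ∀ y ∈ Y, ∃ z : ℤ, (z : ℚ) = y * c := by
  classical
  refine ⟨∏ y ∈ Y, y.den, Finset.prod_pos fun y _ => y.den_pos, ?_⟩
  intro y hy
  obtain ⟨e, he⟩ := Finset.dvd_prod_of_mem (fun y : ℚ => y.den) hy
  refine ⟨y.num * e, ?_⟩
  rw [he]
  push_cast
  have h := Rat.mul_den_eq_num y
  rw [← mul_assoc, h]

end I_CFG

theorem CFG_pf (hS : SYNDQ K Γ) (hB : BRAUER) : CFG K Γ := by
  classical
  intro f φ hf κ hκ X s hs O hO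
  -- the neighbourhoods
  obtain ⟨U, hU, hUs⟩ : ∃ U ∈ 𝓝 (1 : K), ∀ q : ℚ, q ≠ 0 → f q ∈ U → q ∈ s := by
    rw [sml, mem_inf_principal, mem_comap] at hs
    obtain ⟨U, hU, h⟩ := hs
    exact ⟨U, hU, fun q hq hfq => h hfq hq⟩
  obtain ⟨V, hV, hVU⟩ : ∃ V ∈ 𝓝 (1 : K), ∀ a ∈ V, ∀ b ∈ V, a / b ∈ U :=
    exists_nhds_split_inv hU
  have h1V : (1 : K) ∈ V := mem_of_mem_nhds hV
  have hs1 : {q : ℚ | q ≠ 0 ∧ f q ∈ V} ∈ sml f := by
    rw [sml, mem_inf_principal, mem_comap]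
    exact ⟨V, hV, fun q hq hq0 => ⟨hq0, hq⟩⟩
  obtain ⟨M, hM0, hM⟩ := hS f φ hf _ hs1 O hO
  have hdiv : ∀ a b : ℚ, a ≠ 0 → b ≠ 0 → f a ∈ V → f b ∈ V → a / b ∈ s := by
    intro a b ha hb hfa hfb
    apply hUs _ (div_ne_zero ha hb)
    have h := hf.mul (a / b) b (div_ne_zero ha hb) hb
    rw [div_mul_cancel₀ a hb] at h
    have h2 : f (a / b) = f a / f b := by
      rw [h, mul_div_assoc, div_self', mul_one]
    rw [h2]
    exact hVU _ hfa _ hfb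
  have hin : ∀ a : ℚ, a ≠ 0 → f a ∈ V → a ∈ s := by
    intro a ha hfa
    apply hUs a ha
    have h := hVU _ hfa _ h1V
    rwa [div_one] at h
  -- the colouring
  have hMne : Nonempty {m // m ∈ M} := by
    obtain ⟨m, hm, -⟩ := hM 1 one_ne_zero
    exact ⟨⟨m, hm⟩⟩
  have hcol : ∀ n : ℕ, ∃ m : {m // m ∈ M}, 0 < n →
      (((m : ℚ) * n ≠ 0 ∧ f ((m : ℚ) * n) ∈ V) ∧ φ ((m : ℚ) * n) ∈ O) := by
    intro n
    by_cases hn : 0 < n
    · obtain ⟨m, hm, h1, h2⟩ := hM (n : ℚ) (by exact_mod_cast hn.ne')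
      exact ⟨⟨m, hm⟩, fun _ => ⟨h1, h2⟩⟩
    · exact ⟨Classical.choice hMne, fun h => absurd h hn⟩
  choose χ hχ using hcol
  obtain ⟨c, hc, hcd⟩ := I_CFG.exists_denom (X.image fun x => x * κ / 2)
  have hz : ∀ x : ℚ, ∃ z : ℤ, x ∈ X → (z : ℚ) = x * κ / 2 * c := by
    intro x
    by_cases hx : x ∈ X
    · obtain ⟨z, hz⟩ := hcd (x * κ / 2) (Finset.mem_image_of_mem _ hx)
      exact ⟨z, fun _ => hz⟩
    · exact ⟨0, fun h => absurd h hx⟩
  choose z hz using hz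
  obtain ⟨s₀, d₀, hd, hJ, hmono⟩ := hB {m // m ∈ M} (∑ x ∈ X, (z x).natAbs) c hc χ
  set J := ∑ x ∈ X, (z x).natAbs with hJdef
  have hs₀ : 0 < s₀ := lt_of_le_of_lt (Nat.zero_le _) hJ
  set m : ℚ := (χ (c * d₀) : ℚ) with hm
  have hm0 : m ≠ 0 := hM0 _ (χ (c * d₀)).2
  -- terms of the progression
  have hterm : ∀ j : ℤ, j.natAbs ≤ J →
      ((m * ((s₀ : ℚ) + j * d₀) ≠ 0 ∧ f (m * ((s₀ : ℚ) + j * d₀)) ∈ V) ∧
        φ (m * ((s₀ : ℚ) + j * d₀)) ∈ O) := by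
    intro j hj
    have hjd : j.natAbs * d₀ < s₀ := lt_of_le_of_lt (Nat.mul_le_mul_right _ hj) hJ
    obtain ⟨hp, hn⟩ := hmono j.natAbs hj
    rcases le_total 0 j with h0 | h0
    · have e : ((s₀ + j.natAbs * d₀ : ℕ) : ℚ) = (s₀ : ℚ) + j * d₀ := by
        have h3 : (|(j : ℚ)|) = (j : ℚ) := abs_of_nonneg (by exact_mod_cast h0)
        push_cast
        rw [Nat.cast_natAbs, Int.cast_abs, h3]
      have h := hχ (s₀ + j.natAbs * d₀) (by omega)
      rw [hp, e] at h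
      exact h
    · have e : ((s₀ - j.natAbs * d₀ : ℕ) : ℚ) = (s₀ : ℚ) + j * d₀ := by
        have h3 : (|(j : ℚ)|) = -(j : ℚ) := abs_of_nonpos (by exact_mod_cast h0)
        rw [Nat.cast_sub hjd.le, Nat.cast_mul, Nat.cast_natAbs, Int.cast_abs, h3]
        ring
      have h := hχ (s₀ - j.natAbs * d₀) (by omega)
      rw [hn, e] at h
      exact h
  have hq := hterm 0 (by simp)
  simp only [Int.cast_zero, zero_mul, add_zero] at hq
  have hD := hχ (c * d₀) (Nat.mul_pos hc hd)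
  rw [← hm] at hD
  set q : ℚ := m * s₀ with hqdef
  set D : ℚ := m * ((c * d₀ : ℕ) : ℚ) with hDdef
  have hq0 : q ≠ 0 := hq.1.1
  have hD0 : D ≠ 0 := hD.1.1
  have hW : 2 * (κ * D / (2 * q)) / κ = D / q := by
    field_simp
  refine ⟨κ * D / (2 * q), q, hin q hq0 hq.1.2, hq.2, ?_, ?_, ?_⟩
  · rw [hW]
    exact hdiv D q hD0 hq0 hD.1.2 hq.1.2
  · rw [hW, mul_div_cancel₀ D hq0]
    exact hD.2
  · intro x hx
    have hxz := hz x hx
    have hle : (z x).natAbs ≤ J := by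
      rw [hJdef]
      exact Finset.single_le_sum (f := fun x => (z x).natAbs) (fun _ _ => Nat.zero_le _) hx
    have ht := hterm (z x) hle
    have e : q * (1 + x * (κ * D / (2 * q))) = m * ((s₀ : ℚ) + z x * d₀) := by
      rw [hxz, hDdef]
      have : q * (1 + x * (κ * (m * ((c * d₀ : ℕ) : ℚ)) / (2 * q))) =
          q + x * κ * (m * ((c * d₀ : ℕ) : ℚ)) / 2 := by
        field_simp
      rw [this, hqdef]
      push_cast
      ring
    have e2 : 1 + x * (κ * D / (2 * q)) = m * ((s₀ : ℚ) + z x * d₀) / q := by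
      rw [← e, eq_div_iff hq0, mul_comm]
    refine ⟨?_, ?_⟩
    · rw [e2]
      exact hdiv _ q ht.1.1 hq0 ht.1.2 hq.1.2
    · rw [e]
      exact ht.2

end Pool.Agent.Work.MP_0f91f8_co.Cge
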