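import Pool.Agent.Work.MP_0f91f8_co.Cge.Stmts

/-!
Block [0f91f8 CGE], item CLO: the closure step.
-/

set_option linter.unusedSectionVars false

open Filter Topology

universe u

namespace Pool.Agent.Work.MP_0f91f8_co.Cge

namespace I_CLO

section General

variable {Ω Ω' Ω'' : Type*}

lemma sd_map_fst (𝔲 : Ultrafilter Ω) (𝔬 : Ultrafilter Ω') (g : Ω → Ω'') :
    sd (𝔲.map g) (fun _ => 𝔬) = (sd 𝔲 (fun _ => 𝔬)).map (fun P => (g P.1, P.2)) := by
  apply Ultrafilter.coe_injective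
  ext t
  exact Iff.rfl

lemma tendsto_fst_sd {𝔲 : Ultrafilter Ω} {𝔬 : Ω → Ultrafilter Ω'} {k : Ω → Ω''} {l : Filter Ω''}
    (hk : Tendsto k (𝔲 : Filter Ω) l) :
    Tendsto (fun P : Ω × Ω' => k P.1) (sd 𝔲 𝔬 : Filter (Ω × Ω')) l := by
  intro t ht
  show ∀ᶠ P in (sd 𝔲 𝔬 : Filter (Ω × Ω')), k P.1 ∈ t
  rw [eventually_sd]
  filter_upwards [hk ht] with v hv
  exact Eventually.of_forall fun _ => hv

end General

/-- the Moebius image -/
def mo (l m w : ℚ) : ℚ := m * w / (1 + l * w)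

/-- the linear part of the ratio -/
def r0 (c l m w : ℚ) : ℚ :=
  (1 + (l - c * m) * w) * (1 + (l + m / c) * w) /
    ((1 + (l + c * m) * w) * (1 + (l - m / c) * w))

/-- the remaining part of the ratio -/
def rh (c a b : ℚ) : ℚ :=
  (1 + (-((c + a) / (1 - c * a))) * b) * (1 + ((1 / c - a) / (1 + a / c)) * b) /
    ((1 + (-((c - a) / (1 + c * a))) * b) * (1 + ((1 / c + a) / (1 - a / c)) * b))

lemma aa_op' {c a b : ℚ} (hc : c ≠ 0) (h : 1 - a * b ≠ 0) :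
    aa c (op a b) = ((1 - c * a) - (c + a) * b) * ((1 + a / c) + (1 / c - a) * b) /
      ((1 + a ^ 2) * (1 + b ^ 2)) := by
  have h1 : (1 : ℚ) + a ^ 2 ≠ 0 := (one_add_sq_pos a).ne'
  have h2 : (1 : ℚ) + b ^ 2 ≠ 0 := (one_add_sq_pos b).ne'
  unfold aa
  rw [norm_op h]
  unfold op
  field_simp
  ring

lemma ratio {c a b : ℚ} (hc : c ≠ 0) (h : 1 - a * b ≠ 0) (h' : 1 + a * b ≠ 0)
    (n1 : 1 - c * a ≠ 0) (n2 : 1 + a / c ≠ 0) (n3 : 1 + c * a ≠ 0) (n4 : 1 - a / c ≠ 0) :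
    aa c (op a b) * (aa c (op (-a) b))⁻¹ =
      ((1 - c * a) * (1 + a / c) / ((1 + c * a) * (1 - a / c))) * rh c a b := by
  have h'' : 1 - (-a) * b ≠ 0 := by
    intro H; apply h'; linarith
  rw [aa_op' hc h, aa_op' hc h'']
  have h1 : (1 : ℚ) + a ^ 2 ≠ 0 := (one_add_sq_pos a).ne'
  have h2 : (1 : ℚ) + b ^ 2 ≠ 0 := (one_add_sq_pos b).ne'
  have e1 : (1 - c * a) - (c + a) * b = (1 - c * a) * (1 + (-((c + a) / (1 - c * a))) * b) := by
    field_simp
    ring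
  have e2 : (1 + a / c) + (1 / c - a) * b =
      (1 + a / c) * (1 + ((1 / c - a) / (1 + a / c)) * b) := by
    have : (1 + a / c) * ((1 / c - a) / (1 + a / c)) = 1 / c - a := mul_div_cancel₀ _ n2
    linear_combination (-b) * this
  have e3 : (1 - c * (-a)) - (c + (-a)) * b =
      (1 + c * a) * (1 + (-((c - a) / (1 + c * a))) * b) := by
    have : (1 + c * a) * ((c - a) / (1 + c * a)) = c - a := mul_div_cancel₀ _ n3
    linear_combination b * this
  have e4 : (1 + (-a) / c) + (1 / c - (-a)) * b =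
      (1 - a / c) * (1 + ((1 / c + a) / (1 - a / c)) * b) := by
    have : (1 - a / c) * ((1 / c + a) / (1 - a / c)) = 1 / c + a := mul_div_cancel₀ _ n4
    linear_combination (-b) * this
  rw [e1, e2, e3, e4]
  unfold rh
  rw [show (-a) ^ 2 = a ^ 2 by ring]
  generalize (1 + (-((c + a) / (1 - c * a))) * b) = F1
  generalize (1 + ((1 / c - a) / (1 + a / c)) * b) = F2
  generalize (1 + (-((c - a) / (1 + c * a))) * b) = G1
  generalize (1 + ((1 / c + a) / (1 - a / c)) * b) = G2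
  generalize (1 - c * a) = m1 at *
  generalize (1 + a / c) = m2 at *
  generalize (1 + c * a) = m3 at *
  generalize (1 - a / c) = m4 at *
  have hD : (1 + a ^ 2) * (1 + b ^ 2) ≠ 0 := mul_ne_zero h1 h2
  rw [inv_div, div_mul_div_comm]
  rw [show m1 * F1 * (m2 * F2) * ((1 + a ^ 2) * (1 + b ^ 2)) =
    ((m1 * m2) * (F1 * F2)) * ((1 + a ^ 2) * (1 + b ^ 2)) by ring,
    show (1 + a ^ 2) * (1 + b ^ 2) * (m3 * G1 * (m4 * G2)) =
    ((m3 * m4) * (G1 * G2)) * ((1 + a ^ 2) * (1 + b ^ 2)) by ring,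
    mul_div_mul_right _ _ hD, div_mul_div_comm]

lemma r0_eq {c l m w : ℚ} (hl : 1 + l * w ≠ 0) :
    (1 - c * mo l m w) * (1 + mo l m w / c) / ((1 + c * mo l m w) * (1 - mo l m w / c)) =
      r0 c l m w := by
  have hq : mo l m w * (1 + l * w) = m * w := div_mul_cancel₀ _ hl
  have e1 : 1 - c * mo l m w = (1 + (l - c * m) * w) / (1 + l * w) := by
    rw [eq_div_iff hl]
    linear_combination (-c) * hq
  have e2 : 1 + mo l m w / c = (1 + (l + m / c) * w) / (1 + l * w) := by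
    rw [eq_div_iff hl]
    linear_combination (1 / c) * hq
  have e3 : 1 + c * mo l m w = (1 + (l + c * m) * w) / (1 + l * w) := by
    rw [eq_div_iff hl]
    linear_combination c * hq
  have e4 : 1 - mo l m w / c = (1 + (l - m / c) * w) / (1 + l * w) := by
    rw [eq_div_iff hl]
    linear_combination (-(1 / c)) * hq
  rw [e1, e2, e3, e4, div_mul_div_comm, div_mul_div_comm]
  unfold r0
  rw [div_div_div_cancel_right₀ (mul_ne_zero hl hl)]

section Main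

variable {Γ : Type u} [Group Γ] [TopologicalSpace Γ] [IsTopologicalGroup Γ]
  [CompactSpace Γ] [T2Space Γ] {𝓢 : Filter ℚ} {φ : ℚ → Γ}

lemma r0_small (h : Sys 𝓢 φ) {𝔲 : Ultrafilter ℚ} (hu : Lin 𝓢 𝔲) (c l m : ℚ) :
    Tendsto (fun w => r0 c l m w) (𝔲 : Filter ℚ) 𝓢 :=
  h.tendsto_div (h.tendsto_mul (hu _) (hu _)) (h.tendsto_mul (hu _) (hu _))

lemma rh_small (h : Sys 𝓢 φ) {𝔲 : Ultrafilter ℚ} (hu : Lin 𝓢 𝔲) (c a : ℚ) :
    Tendsto (fun b => rh c a b) (𝔲 : Filter ℚ) 𝓢 :=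
  h.tendsto_div (h.tendsto_mul (hu _) (hu _)) (h.tendsto_mul (hu _) (hu _))

/-- the point-wise facts for one `v` -/
lemma ev_ratio (h : Sys 𝓢 φ) {𝔲 𝔠 : Ultrafilter ℚ} (hu : Lin 𝓢 𝔲) (hc' : Lin 𝓢 𝔠)
    {c : ℚ} (hc : c ≠ 0) (l m : ℚ) :
    ∀ᶠ ω in (sd 𝔲 (fun _ => 𝔠) : Filter (ℚ × ℚ)),
      aa c (op (mo l m ω.1) ω.2) * (aa c (op (-mo l m ω.1) ω.2))⁻¹ =
        r0 c l m ω.1 * rh c (mo l m ω.1) ω.2 := by
  rw [eventually_sd]
  filter_upwards [h.tendsto_ne (hu l), h.tendsto_ne (hu (l - c * m)),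
    h.tendsto_ne (hu (l + m / c)), h.tendsto_ne (hu (l + c * m)),
    h.tendsto_ne (hu (l - m / c))] with w hl h1 h2 h3 h4
  filter_upwards [h.tendsto_ne (hc' (mo l m w)), h.tendsto_ne (hc' (-mo l m w))] with b hb hb'
  have hq : mo l m w * (1 + l * w) = m * w := div_mul_cancel₀ _ hl
  have n1 : 1 - c * mo l m w ≠ 0 := by
    intro H
    apply h1
    linear_combination (1 + l * w) * H + c * hq
  have n2 : 1 + mo l m w / c ≠ 0 := by
    intro H
    apply h2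
    linear_combination (1 + l * w) * H - (1 / c) * hq
  have n3 : 1 + c * mo l m w ≠ 0 := by
    intro H
    apply h3
    linear_combination (1 + l * w) * H - c * hq
  have n4 : 1 - mo l m w / c ≠ 0 := by
    intro H
    apply h4
    linear_combination (1 + l * w) * H + (1 / c) * hq
  have hb'' : 1 - mo l m w * b ≠ 0 := by
    intro H
    apply hb'
    linear_combination H
  have := ratio (a := mo l m w) (b := b) hc hb'' hb n1 n2 n3 n4
  rw [r0_eq hl] at this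
  exact this

/-- splitting off the inner variable -/
lemma split (h : Sys 𝓢 φ) {Ω : Type*} {𝔮 : Ultrafilter Ω} {𝔠 : Ultrafilter ℚ} (hc' : Lin 𝓢 𝔠)
    {k : Ω → ℚ} (hk : Tendsto k (𝔮 : Filter Ω) 𝓢) (c : ℚ) (a : Ω → ℚ) :
    L (sd 𝔮 (fun _ => 𝔠)) (fun P : Ω × ℚ => φ (k P.1 * rh c (a P.1) P.2)) =
      L 𝔮 (fun p => φ (k p)) * L 𝔮 (fun p => L 𝔠 (fun b => φ (rh c (a p) b))) := by
  rw [h.L_sd_mul hk (Eventually.of_forall fun p => rh_small h hc' c (a p))]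
  rfl

end Main

end I_CLO

theorem CLO_pf (Γ : Type u) [Group Γ] [TopologicalSpace Γ] [IsTopologicalGroup Γ]
    [CompactSpace Γ] [T2Space Γ]
    (hE : E1BND Γ) (hN : NRMBND Γ) (hM : MOB Γ) (hI : INDG Γ) (hK : KIND Γ) : CLO Γ := by
  intro 𝓢 φ N hG hNS s hs hs0 hKst 𝔲 hu l m
  have h : Sys 𝓢 φ := hG.toSys
  -- the compensators
  have hex : ∀ v : ℚ, ∃ 𝔠 : Ultrafilter ℚ, E1 𝓢 φ (𝔲 v) → (E1 𝓢 φ 𝔠 ∧
      Tendsto (fun p : ℚ × ℚ => (1 + p.1 ^ 2) * (1 + p.2 ^ 2))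
        (sd ((𝔲 v).map (I_CLO.mo (l v) (m v))) (fun _ => 𝔠) : Filter (ℚ × ℚ)) 𝓢) := by
    intro v
    by_cases hv : E1 𝓢 φ (𝔲 v)
    · obtain ⟨𝔠, h1, h2⟩ := hG.comp _ ((hM 𝓢 φ h).2 (𝔲 v) hv (l v) (m v))
      exact ⟨𝔠, fun _ => ⟨h1, h2⟩⟩
    · exact ⟨pure 0, fun hv' => absurd hv' hv⟩
  choose uc huc using hex
  have hcc : ∀ᶠ v in (s : Filter ℚ), cc v ≠ 0 := by
    filter_upwards [h.tendsto_ne (hs 1), h.tendsto_ne (hs (-1))] with v h1 h2
    unfold cc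
    apply div_ne_zero
    · intro H; apply h1; linarith
    · intro H; apply h2; linarith
  -- the two families
  have key : ∀ σ : ℚ, (σ = 1 ∨ σ = -1) → Ind 𝓢 φ N s (fun v => sd (𝔲 v) (fun _ => uc v))
      (fun v ω => aa (cc v) (op (σ * I_CLO.mo (l v) (m v) ω.1) ω.2)) := by
    intro σ hσ
    have hσ2 : σ ^ 2 = 1 := by rcases hσ with rfl | rfl <;> norm_num
    apply hK 𝓢 φ N h s hKst (ℚ × ℚ) (fun v => sd (𝔲 v) (fun _ => uc v))
      (fun v ω => op (σ * I_CLO.mo (l v) (m v) ω.1) ω.2)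
    filter_upwards [hu] with v hv
    obtain ⟨hc1, hc2⟩ := huc v hv
    have e0 : (sd (𝔲 v) (fun _ => uc v)).map
        (fun ω => op (σ * I_CLO.mo (l v) (m v) ω.1) ω.2) =
        bnd ((𝔲 v).map (fun w => (σ * m v) * w / (1 + l v * w))) (fun _ => uc v) := by
      unfold bnd
      rw [I_CLO.sd_map_fst, Ultrafilter.map_map]
      congr 1
      funext ω
      simp only [Function.comp]
      unfold I_CLO.mo
      congr 1
      ring
    have e1 : E1 𝓢 φ ((𝔲 v).map (fun w => (σ * m v) * w / (1 + l v * w))) :=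
      (hM 𝓢 φ h).2 (𝔲 v) hv (l v) (σ * m v)
    rw [e0]
    refine ⟨hE 𝓢 φ h _ _ e1 (Eventually.of_forall fun _ => hc1),
      hN 𝓢 φ h _ _ (Eventually.of_forall fun _ => hc1.1) ?_⟩
    rw [I_CLO.sd_map_fst, Ultrafilter.coe_map, tendsto_map'_iff] at hc2 ⊢
    refine hc2.congr fun P => ?_
    simp only [Function.comp]
    have : (σ * m v * P.1 / (1 + l v * P.1)) ^ 2 = (I_CLO.mo (l v) (m v) P.1) ^ 2 := by
      have : σ * m v * P.1 / (1 + l v * P.1) = σ * I_CLO.mo (l v) (m v) P.1 := by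
        unfold I_CLO.mo; ring
      rw [this, mul_pow, hσ2, one_mul]
    rw [this]
  have kp := key 1 (Or.inl rfl)
  have km := key (-1) (Or.inr rfl)
  simp only [one_mul, neg_mul] at kp km
  obtain ⟨-, hcongr, hmul, hinv⟩ := hI 𝓢 φ N h hNS s (ℚ × ℚ) (fun v => sd (𝔲 v) (fun _ => uc v))
  have kr := hcongr _ (fun v ω => I_CLO.r0 (cc v) (l v) (m v) ω.1 *
    I_CLO.rh (cc v) (I_CLO.mo (l v) (m v) ω.1) ω.2) (hmul _ _ kp (hinv _ km)) (by
      filter_upwards [hu, hcc] with v hv hcv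
      exact I_CLO.ev_ratio h hv.1 (huc v hv).1.1 hcv (l v) (m v))
  refine ⟨?_, ?_⟩
  · filter_upwards [hu] with v hv
    exact I_CLO.r0_small h hv.1 (cc v) (l v) (m v)
  · intro 𝔮 h𝔮
    change (LL s 𝔮 (fun _ p => φ p.2))⁻¹ *
      LL s 𝔮 (fun v p => φ (p.2 * I_CLO.r0 (cc v) (l v) (m v) p.1)) *
      (LL s 𝔲 (fun v w => φ (I_CLO.r0 (cc v) (l v) (m v) w)))⁻¹ ∈ N
    have k2 := kr.2 (fun v => (sd (𝔮 v) (fun _ => uc v)).map
      (fun P : (ℚ × ℚ) × ℚ => ((P.1.1, P.2), P.1.2))) (by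
        filter_upwards [h𝔮] with v hv
        obtain ⟨hv1, hv2⟩ := hv
        refine ⟨?_, ?_⟩
        · rw [Ultrafilter.map_map, ← hv1, I_CLO.sd_map_fst]
          rfl
        · rw [Ultrafilter.coe_map, tendsto_map'_iff]
          exact I_CLO.tendsto_fst_sd (k := fun p : ℚ × ℚ => p.2) hv2)
    have c1 : LL s (fun v => (sd (𝔮 v) (fun _ => uc v)).map
        (fun P : (ℚ × ℚ) × ℚ => ((P.1.1, P.2), P.1.2))) (fun _ p => φ p.2) =
        LL s 𝔮 (fun _ p => φ p.2) := by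
      rw [LL_map]
      apply L_congr
      refine Eventually.of_forall fun v => ?_
      show L (sd (𝔮 v) (fun _ => uc v)) (fun P : (ℚ × ℚ) × ℚ => φ P.1.2) = _
      rw [L_sd]
      exact LL_fst (𝔮 v) (fun _ => uc v) (fun p => φ p.2)
    have c2 : LL s (fun v => (sd (𝔮 v) (fun _ => uc v)).map
        (fun P : (ℚ × ℚ) × ℚ => ((P.1.1, P.2), P.1.2)))
        (fun v p => φ (p.2 * (I_CLO.r0 (cc v) (l v) (m v) p.1.1 *
          I_CLO.rh (cc v) (I_CLO.mo (l v) (m v) p.1.1) p.1.2))) =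
        LL s 𝔮 (fun v p => φ (p.2 * I_CLO.r0 (cc v) (l v) (m v) p.1)) *
          L s (fun v => L (𝔲 v) (fun w => L (uc v)
            (fun b => φ (I_CLO.rh (cc v) (I_CLO.mo (l v) (m v) w) b)))) := by
      rw [LL_map]
      unfold LL
      rw [← L_mul]
      apply L_congr
      filter_upwards [hu, h𝔮] with v hv hq
      obtain ⟨hv1, hv2⟩ := hq
      have hk : Tendsto (fun p : ℚ × ℚ => p.2 * I_CLO.r0 (cc v) (l v) (m v) p.1)
          (𝔮 v : Filter (ℚ × ℚ)) 𝓢 := by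
        refine h.tendsto_mul hv2 ?_
        have := I_CLO.r0_small h hv.1 (cc v) (l v) (m v)
        rw [← hv1, Ultrafilter.coe_map, tendsto_map'_iff] at this
        exact this
      have := I_CLO.split h (𝔠 := uc v) (huc v hv).1.1 hk (cc v)
        (fun p => I_CLO.mo (l v) (m v) p.1)
      simp only [mul_assoc] at this
      rw [this]
      congr 1
      rw [← hv1, L_map]
    have c3 : LL s (fun v => sd (𝔲 v) (fun _ => uc v))
        (fun v ω => φ (I_CLO.r0 (cc v) (l v) (m v) ω.1 *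
          I_CLO.rh (cc v) (I_CLO.mo (l v) (m v) ω.1) ω.2)) =
        LL s 𝔲 (fun v w => φ (I_CLO.r0 (cc v) (l v) (m v) w)) *
          L s (fun v => L (𝔲 v) (fun w => L (uc v)
            (fun b => φ (I_CLO.rh (cc v) (I_CLO.mo (l v) (m v) w) b)))) := by
      unfold LL
      rw [← L_mul]
      apply L_congr
      filter_upwards [hu] with v hv
      exact I_CLO.split h (𝔠 := uc v) (huc v hv).1.1
        (I_CLO.r0_small h hv.1 (cc v) (l v) (m v)) (cc v) (fun w => I_CLO.mo (l v) (m v) w)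
    rw [c1, c2, c3] at k2
    convert k2 using 1
    group

end Pool.Agent.Work.MP_0f91f8_co.Cge
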