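import Pool.Agent.Work.MP_0f91f8_co.Cge.Stmts

/-!
Item CLSE of block [0f91f8 CGE]: closedness of the sets of laws.
-/

set_option linter.unusedSectionVars false

open Filter Topology

namespace Pool.Agent.Work.MP_0f91f8_co.Cge

universe u

namespace I_CLSE

section

variable {Γ : Type*} [Group Γ] [TopologicalSpace Γ]

lemma isClosed_lin (𝓢 : Filter ℚ) : IsClosed {𝔲 : Ultrafilter ℚ | Lin 𝓢 𝔲} := by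
  have : {𝔲 : Ultrafilter ℚ | Lin 𝓢 𝔲} =
      ⋂ x : ℚ, {𝔲 : Ultrafilter ℚ | Tendsto (fun W : ℚ => 1 + x * W) (𝔲 : Filter ℚ) 𝓢} := by
    ext 𝔲
    simp only [Lin, Set.mem_setOf_eq, Set.mem_iInter]
  rw [this]
  exact isClosed_iInter fun x => isClosed_tendsto _ _

lemma isClosed_cpl (𝓢 : Filter ℚ) (φ : ℚ → Γ) :
    IsClosed {𝔮 : Ultrafilter (ℚ × ℚ) | Cpl 𝓢 φ 𝔮} := by
  have : {𝔮 : Ultrafilter (ℚ × ℚ) | Cpl 𝓢 φ 𝔮} =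
      {𝔮 : Ultrafilter (ℚ × ℚ) | Tendsto (fun p : ℚ × ℚ => p.2) (𝔮 : Filter (ℚ × ℚ)) 𝓢} ∩
      ⋂ x : ℚ, {𝔮 : Ultrafilter (ℚ × ℚ) |
        Tendsto (fun p : ℚ × ℚ => φ (p.2 * (1 + x * p.1))) (𝔮 : Filter (ℚ × ℚ)) (𝓝 1)} := by
    ext 𝔮
    simp only [Cpl, Set.mem_setOf_eq, Set.mem_iInter, Set.mem_inter_iff]
  rw [this]
  exact (isClosed_tendsto _ _).inter (isClosed_iInter fun x => isClosed_tendsto _ _)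

lemma isClosed_image_fst {S : Set (Ultrafilter (ℚ × ℚ))} (hS : IsClosed S) :
    IsClosed ((fun 𝔮 : Ultrafilter (ℚ × ℚ) => 𝔮.map Prod.fst) '' S) :=
  (hS.isCompact.image (continuous_map _)).isClosed

lemma isClosed_e1 (𝓢 : Filter ℚ) (φ : ℚ → Γ) : IsClosed {𝔲 : Ultrafilter ℚ | E1 𝓢 φ 𝔲} := by
  have : {𝔲 : Ultrafilter ℚ | E1 𝓢 φ 𝔲} = {𝔲 : Ultrafilter ℚ | Lin 𝓢 𝔲} ∩
      ((fun 𝔮 : Ultrafilter (ℚ × ℚ) => 𝔮.map Prod.fst) ''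
        {𝔮 : Ultrafilter (ℚ × ℚ) | Cpl 𝓢 φ 𝔮}) := by
    ext 𝔲
    constructor
    · rintro ⟨h1, 𝔮, h2, h3⟩
      exact ⟨h1, 𝔮, h3, h2⟩
    · rintro ⟨h1, 𝔮, h3, h2⟩
      exact ⟨h1, 𝔮, h2, h3⟩
  rw [this]
  exact (isClosed_lin 𝓢).inter (isClosed_image_fst (isClosed_cpl 𝓢 φ))

lemma isClosed_ek (𝓢 : Filter ℚ) (φ : ℚ → Γ) (κ : ℚ) :
    IsClosed {𝔲 : Ultrafilter ℚ | EK 𝓢 φ κ 𝔲} := by
  have : {𝔲 : Ultrafilter ℚ | EK 𝓢 φ κ 𝔲} = {𝔲 : Ultrafilter ℚ | Lin 𝓢 𝔲} ∩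
      ({𝔲 : Ultrafilter ℚ | Tendsto (fun W : ℚ => 2 * W / κ) (𝔲 : Filter ℚ) 𝓢} ∩
      ((fun 𝔮 : Ultrafilter (ℚ × ℚ) => 𝔮.map Prod.fst) ''
        ({𝔮 : Ultrafilter (ℚ × ℚ) | Cpl 𝓢 φ 𝔮} ∩
          {𝔮 : Ultrafilter (ℚ × ℚ) |
            Tendsto (fun p : ℚ × ℚ => φ (p.2 * (2 * p.1 / κ)))
              (𝔮 : Filter (ℚ × ℚ)) (𝓝 1)}))) := by
    ext 𝔲
    constructor
    · rintro ⟨h1, h0, 𝔮, h2, h3, h4⟩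
      exact ⟨h1, h0, 𝔮, ⟨h3, h4⟩, h2⟩
    · rintro ⟨h1, h0, 𝔮, ⟨h3, h4⟩, h2⟩
      exact ⟨h1, h0, 𝔮, h2, h3, h4⟩
  rw [this]
  exact (isClosed_lin 𝓢).inter ((isClosed_tendsto _ _).inter
    (isClosed_image_fst ((isClosed_cpl 𝓢 φ).inter (isClosed_tendsto _ _))))

lemma isClosed_uk (𝓢 : Filter ℚ) (φ : ℚ → Γ) (κ : ℚ) :
    IsClosed {𝔴 : Ultrafilter (ℚ × ℚ) | UK 𝓢 φ κ 𝔴} := by
  have : {𝔴 : Ultrafilter (ℚ × ℚ) | UK 𝓢 φ κ 𝔴} =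
      ((fun 𝔴 : Ultrafilter (ℚ × ℚ) => 𝔴.map Prod.fst) ⁻¹' {𝔲 : Ultrafilter ℚ | EK 𝓢 φ κ 𝔲}) ∩
      (((fun 𝔴 : Ultrafilter (ℚ × ℚ) => 𝔴.map Prod.fst) ⁻¹'
        {𝔲 : Ultrafilter ℚ | Tendsto (fun W : ℚ => 1 + W ^ 2) (𝔲 : Filter ℚ) 𝓢}) ∩
      {𝔴 : Ultrafilter (ℚ × ℚ) | Tendsto (fun p : ℚ × ℚ => p.2) (𝔴 : Filter (ℚ × ℚ)) 𝓢}) := by
    ext 𝔴
    constructor
    · rintro ⟨h1, h2, h3⟩
      exact ⟨h1, h2, h3⟩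
    · rintro ⟨h1, h2, h3⟩
      exact ⟨h1, h2, h3⟩
  rw [this]
  exact ((isClosed_ek 𝓢 φ κ).preimage (continuous_map _)).inter
    (((isClosed_tendsto _ _).preimage (continuous_map _)).inter (isClosed_tendsto _ _))

end

end I_CLSE

variable (Γ : Type u) [Group Γ] [TopologicalSpace Γ] [IsTopologicalGroup Γ]
  [CompactSpace Γ] [T2Space Γ]

theorem CLSE_pf : CLSE Γ := fun 𝓢 φ κ =>
  ⟨I_CLSE.isClosed_e1 𝓢 φ, I_CLSE.isClosed_ek 𝓢 φ κ, I_CLSE.isClosed_uk 𝓢 φ κ⟩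

end Pool.Agent.Work.MP_0f91f8_co.Cge
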