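import Pool.Agent.Work.MP_0f91f8_co.Cge.Stmts

/-! Block [0f91f8 CGE], item COMPK: compensators for systems over a compact group. -/

set_option linter.unusedSectionVars false

open Filter Topology

universe u v

namespace Pool.Agent.Work.MP_0f91f8_co.Cge

variable (K : Type v) (Γ : Type u) [CommGroup K] [TopologicalSpace K] [IsTopologicalGroup K]
  [CompactSpace K] [T2Space K] [Group Γ] [TopologicalSpace Γ] [IsTopologicalGroup Γ]
  [CompactSpace Γ] [T2Space Γ]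

namespace I_COMPK

variable {K}

theorem f_div (f : ℚ → K) (hm : ∀ a b : ℚ, a ≠ 0 → b ≠ 0 → f (a * b) = f a * f b)
    {a b : ℚ} (ha : a ≠ 0) (hb : b ≠ 0) : f (a / b) = f a * (f b)⁻¹ := by
  have h := hm (a / b) b (div_ne_zero ha hb) hb
  rw [div_mul_cancel₀ a hb] at h
  rw [h, mul_inv_cancel_right]

/-- the norm of a composition under `f` -/
theorem f_norm_op (f : ℚ → K) (hm : ∀ a b : ℚ, a ≠ 0 → b ≠ 0 → f (a * b) = f a * f b)
    {v w : ℚ} (h : 1 - v * w ≠ 0) :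
    f (1 + (op v w) ^ 2) =
      f (1 + v ^ 2) * f (1 + w ^ 2) * ((f (1 - v * w))⁻¹ * (f (1 - v * w))⁻¹) := by
  have hv : (1 : ℚ) + v ^ 2 ≠ 0 := (one_add_sq_pos v).ne'
  have hw : (1 : ℚ) + w ^ 2 ≠ 0 := (one_add_sq_pos w).ne'
  rw [norm_op h, f_div f hm (mul_ne_zero hv hw) (pow_ne_zero 2 h), hm _ _ hv hw,
    pow_two (1 - v * w), hm _ _ h h, mul_inv]

end I_COMPK

theorem COMPK_pf (hKSS : KSS K Γ) (hCSG : CSG K) (hE : E1BND Γ) (hC : CLSE Γ) (hM : MOB Γ) :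
    COMPK K Γ := by
  intro f φ hK 𝔲 h𝔲
  have hS : Sys (sml f) φ := hKSS f φ hK
  have ht : Tendsto f (sml f) (𝓝 1) := tendsto_comap.mono_left inf_le_left
  set g : ℚ → K := fun W => f (1 + W ^ 2) with hg
  set S : Set K := (fun 𝔳 : Ultrafilter ℚ => L 𝔳 g) '' {𝔳 : Ultrafilter ℚ | E1 (sml f) φ 𝔳}
    with hSdef
  have hcl : IsClosed S :=
    (((hC (sml f) φ 1).1.isCompact).image (continuous_L g)).isClosed
  have hne : S.Nonempty := ⟨_, pure 0, (hM (sml f) φ hS).1, rfl⟩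
  have hmul : ∀ a ∈ S, ∀ b ∈ S, a * b ∈ S := by
    rintro _ ⟨𝔳, h𝔳, rfl⟩ _ ⟨𝔴, h𝔴, rfl⟩
    refine ⟨bnd 𝔳 (fun _ => 𝔴), ?_, ?_⟩
    · exact hE (sml f) φ hS 𝔳 (fun _ => 𝔴) h𝔳 (Eventually.of_forall fun _ => h𝔴)
    · have hlin : ∀ v : ℚ, Tendsto (fun w : ℚ => 1 - v * w) (𝔴 : Filter ℚ) (sml f) := by
        intro v
        refine (h𝔴.1 (-v)).congr fun w => ?_
        ring
      have h1 : LL 𝔳 (fun _ => 𝔴) (fun v w => (f (1 - v * w))⁻¹ * (f (1 - v * w))⁻¹) = 1 := by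
        unfold LL
        rw [← L_const 𝔳 (1 : K)]
        congr 1
        funext v
        have h0 : L 𝔴 (fun w => f (1 - v * w)) = 1 := L_eq (ht.comp (hlin v))
        show L 𝔴 (fun w => (f (1 - v * w))⁻¹ * (f (1 - v * w))⁻¹) = 1
        rw [L_mul, L_inv, h0]
        simp
      show L (bnd 𝔳 (fun _ => 𝔴)) g = L 𝔳 g * L 𝔴 g
      unfold bnd
      rw [L_map, L_sd]
      have h2 : LL 𝔳 (fun _ => 𝔴) (fun v w => g (op v w)) =
          LL 𝔳 (fun _ => 𝔴)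
            (fun v w => g v * g w * ((f (1 - v * w))⁻¹ * (f (1 - v * w))⁻¹)) := by
        apply LL_congr
        refine Eventually.of_forall fun v => ?_
        filter_upwards [hS.tendsto_ne (hlin v)] with w hw
        exact I_COMPK.f_norm_op f hK.mul hw
      have h3 : LL 𝔳 (fun _ => 𝔴) (fun v w => g v * g w) = L 𝔳 g * L 𝔴 g := by
        rw [LL_mul 𝔳 (fun _ => 𝔴) (fun v _ => g v) (fun _ w => g w), LL_fst, LL_const]
      rw [h2, LL_mul 𝔳 (fun _ => 𝔴) (fun v w => g v * g w)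
        (fun v w => (f (1 - v * w))⁻¹ * (f (1 - v * w))⁻¹), h1, h3, mul_one]
  obtain ⟨𝔲', h𝔲', hL⟩ := (hCSG S hcl hne hmul).2 (L 𝔲 g) ⟨𝔲, h𝔲, rfl⟩
  have hL' : L 𝔲' g = (L 𝔲 g)⁻¹ := hL
  refine ⟨𝔲', h𝔲', ?_⟩
  refine tendsto_inf.2 ⟨?_, ?_⟩
  · rw [tendsto_comap_iff]
    have h4 : L (sd 𝔲 (fun _ => 𝔲')) (fun p : ℚ × ℚ => f ((1 + p.1 ^ 2) * (1 + p.2 ^ 2))) = 1 := by
      have h5 : (fun p : ℚ × ℚ => f ((1 + p.1 ^ 2) * (1 + p.2 ^ 2))) =
          fun p : ℚ × ℚ => g p.1 * g p.2 := by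
        funext p
        exact hK.mul _ _ (one_add_sq_pos p.1).ne' (one_add_sq_pos p.2).ne'
      rw [h5, L_sd]
      show LL 𝔲 (fun _ => 𝔲') (fun v w => g v * g w) = 1
      rw [LL_mul 𝔲 (fun _ => 𝔲') (fun v _ => g v) (fun _ w => g w), LL_fst, LL_const, hL',
        mul_inv_cancel]
    exact L_eq_iff.1 h4
  · rw [tendsto_principal]
    exact Eventually.of_forall fun p =>
      mul_ne_zero (one_add_sq_pos p.1).ne' (one_add_sq_pos p.2).ne'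

end Pool.Agent.Work.MP_0f91f8_co.Cge
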