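import Pool.Agent.Work.MP_0f91f8_co.Cge.Stmts
import Mathlib.Topology.Algebra.Semigroup

/-!
Block [0f91f8 CGE], item CSG: closed subsemigroups of compact groups are groups.
-/

set_option linter.unusedSectionVars false

open Filter Topology

namespace Pool.Agent.Work.MP_0f91f8_co.Cge

universe u

variable (Γ : Type u) [Group Γ] [TopologicalSpace Γ] [IsTopologicalGroup Γ]
  [CompactSpace Γ] [T2Space Γ]

namespace I_CSG

/-- a closed nonempty subsemigroup contains `1` -/
theorem one_mem (S : Set Γ) (hc : IsClosed S) (hne : S.Nonempty)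
    (hmul : ∀ a ∈ S, ∀ b ∈ S, a * b ∈ S) : (1 : Γ) ∈ S := by
  obtain ⟨m, hm, hmm⟩ := exists_idempotent_in_compact_subsemigroup
    (fun r : Γ => continuous_mul_const r) S hne hc.isCompact hmul
  have : m = 1 := mul_eq_left.mp hmm
  exact this ▸ hm

end I_CSG

theorem CSG_pf : CSG Γ := by
  intro S hc hne hmul
  have h1 : (1 : Γ) ∈ S := I_CSG.one_mem Γ S hc hne hmul
  refine ⟨h1, fun a ha => ?_⟩
  have h2 : (1 : Γ) ∈ (fun s => a * s) '' S := by
    refine I_CSG.one_mem Γ _ ?_ (hne.image _) ?_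
    · exact (hc.isCompact.image (continuous_const_mul a)).isClosed
    · rintro _ ⟨s, hs, rfl⟩ _ ⟨t, ht, rfl⟩
      exact ⟨s * (a * t), hmul s hs _ (hmul a ha t ht), by simp [mul_assoc]⟩
  obtain ⟨s, hs, h⟩ := h2
  have : a⁻¹ = s := inv_eq_of_mul_eq_one_right h
  exact this ▸ hs

end Pool.Agent.Work.MP_0f91f8_co.Cge
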