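import Pool.Agent.Work.MP_0f91f8_co.Cge.Stmts

/-!
Item E1BND: the laws `E1` are closed under adaptive composition.
-/

set_option linter.unusedSectionVars false

open Filter Topology

namespace Pool.Agent.Work.MP_0f91f8_co.Cge

universe u

namespace I_E1BND

variable {Γ : Type u} [Group Γ] [TopologicalSpace Γ] [IsTopologicalGroup Γ]
  [CompactSpace Γ] [T2Space Γ] {𝓢 : Filter ℚ} {φ : ℚ → Γ}

/-- linear factors along a composition -/
lemma lin_bnd (h : Sys 𝓢 φ) {𝔲 : Ultrafilter ℚ} {m : ℚ → Ultrafilter ℚ} (hu : Lin 𝓢 𝔲)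
    (hm : ∀ᶠ V in (𝔲 : Filter ℚ), Lin 𝓢 (m V)) : Lin 𝓢 (bnd 𝔲 m) := by
  intro x
  unfold bnd
  rw [Ultrafilter.coe_map, tendsto_map'_iff]
  have h1 := h.tendsto_sd (𝔳 := 𝔲) (𝔬 := m) (k := fun V => 1 + x * V)
    (r := fun V W => (1 + (x - V) / (1 + x * V) * W) / (1 - V * W)) (hu x)
    (hm.mono fun V hV => h.tendsto_div (hV _) ((hV (-V)).congr fun W => by ring))
  refine h1.congr' ?_
  show ∀ᶠ p in (sd 𝔲 m : Filter (ℚ × ℚ)), _
  rw [eventually_sd]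
  filter_upwards [h.tendsto_ne (hu x), hm] with V hV hmV
  filter_upwards [h.tendsto_ne (hmV (-V))] with W hW
  have hW' : 1 - V * W ≠ 0 := by
    intro h0
    apply hW
    linear_combination h0
  simp only [Function.comp_apply]
  exact (lin_op hV hW').symm

/-- linear factors along a coupling -/
lemma lin_q {𝔲 : Ultrafilter ℚ} (hu : Lin 𝓢 𝔲) {𝔮 : Ultrafilter (ℚ × ℚ)}
    (hq : 𝔮.map Prod.fst = 𝔲) (x : ℚ) :
    Tendsto (fun p : ℚ × ℚ => 1 + x * p.1) (𝔮 : Filter (ℚ × ℚ)) 𝓢 := by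
  have := hu x
  rw [← hq, Ultrafilter.coe_map, tendsto_map'_iff] at this
  exact this

end I_E1BND

open I_E1BND in
theorem E1BND_pf (Γ : Type u) [Group Γ] [TopologicalSpace Γ] [IsTopologicalGroup Γ]
    [CompactSpace Γ] [T2Space Γ] : E1BND Γ := by
  intro 𝓢 φ h 𝔲 m hu hm
  obtain ⟨hlin, 𝔮, hq, hq1, hq2⟩ := hu
  have hmlin : ∀ᶠ V in (𝔲 : Filter ℚ), Lin 𝓢 (m V) := hm.mono fun V hV => hV.1
  have hch : ∀ V : ℚ, ∃ 𝔮' : Ultrafilter (ℚ × ℚ), E1 𝓢 φ (m V) →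
      𝔮'.map Prod.fst = m V ∧ Cpl 𝓢 φ 𝔮' := by
    intro V
    by_cases hV : E1 𝓢 φ (m V)
    · obtain ⟨_, q', hq'⟩ := hV
      exact ⟨q', fun _ => hq'⟩
    · exact ⟨pure (0, 1), fun h => absurd h hV⟩
  choose q' hq' using hch
  have hmq : ∀ᶠ p in (𝔮 : Filter (ℚ × ℚ)), E1 𝓢 φ (m p.1) := by
    have : ∀ᶠ V in ((𝔮.map Prod.fst : Ultrafilter ℚ) : Filter ℚ), E1 𝓢 φ (m V) := by
      rw [hq]; exact hm
    exact this
  refine ⟨lin_bnd h hlin hmlin, (sd 𝔮 (fun p => q' p.1)).map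
    (fun P => (op P.1.1 P.2.1, P.1.2 * P.2.2 * (1 - P.1.1 * P.2.1))), ?_, ?_, ?_⟩
  · apply Ultrafilter.coe_injective
    ext s
    have e1 : (s ∈ ((((sd 𝔮 (fun p => q' p.1)).map
        (fun P => (op P.1.1 P.2.1, P.1.2 * P.2.2 * (1 - P.1.1 * P.2.1)))).map Prod.fst :
          Ultrafilter ℚ) : Filter ℚ)) ↔
        ∀ᶠ p in (𝔮 : Filter (ℚ × ℚ)), ∀ᶠ r in (q' p.1 : Filter (ℚ × ℚ)), op p.1 r.1 ∈ s :=
      Iff.rfl
    have e2 : (s ∈ ((bnd 𝔲 m : Ultrafilter ℚ) : Filter ℚ)) ↔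
        ∀ᶠ p in (𝔮 : Filter (ℚ × ℚ)), ∀ᶠ W in (m p.1 : Filter ℚ), op p.1 W ∈ s := by
      rw [← hq]
      exact Iff.rfl
    rw [e1, e2]
    apply eventually_congr
    filter_upwards [hmq] with p hp
    have h2 := (hq' p.1 hp).1
    rw [← h2]
    exact Iff.rfl
  · rw [Ultrafilter.coe_map, tendsto_map'_iff]
    have h1 := h.tendsto_sd (𝔳 := 𝔮) (𝔬 := fun p => q' p.1) (k := fun p => p.2)
      (r := fun p r => r.2 * (1 - p.1 * r.1)) hq1
      (hmq.mono fun p hp => h.tendsto_mul (hq' p.1 hp).2.1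
        ((lin_q hp.1 (hq' p.1 hp).1 (-p.1)).congr fun W => by ring))
    refine h1.congr fun P => ?_
    simp only [Function.comp_apply]
    ring
  · intro x
    rw [Ultrafilter.coe_map, tendsto_map'_iff]
    have hk : Tendsto (fun p : ℚ × ℚ => p.2 * (1 + x * p.1)) (𝔮 : Filter (ℚ × ℚ)) 𝓢 :=
      h.tendsto_mul hq1 (lin_q hlin hq x)
    have hr : ∀ᶠ p in (𝔮 : Filter (ℚ × ℚ)), Tendsto
        (fun r : ℚ × ℚ => r.2 * (1 + (x - p.1) / (1 + x * p.1) * r.1))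
        (q' p.1 : Filter (ℚ × ℚ)) 𝓢 :=
      hmq.mono fun p hp => h.tendsto_mul (hq' p.1 hp).2.1 (lin_q hp.1 (hq' p.1 hp).1 _)
    have h1 := h.L_sd_mul (𝔳 := 𝔮) (𝔬 := fun p => q' p.1) hk hr
    have h2 : L 𝔮 (fun p : ℚ × ℚ => φ (p.2 * (1 + x * p.1))) = 1 := L_eq (hq2 x)
    have h3 : LL 𝔮 (fun p : ℚ × ℚ => q' p.1)
        (fun p r => φ (r.2 * (1 + (x - p.1) / (1 + x * p.1) * r.1))) = 1 := by
      unfold LL
      have : L 𝔮 (fun v : ℚ × ℚ => L (q' v.1) (fun r : ℚ × ℚ =>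
          φ (r.2 * (1 + (x - v.1) / (1 + x * v.1) * r.1)))) = L 𝔮 (fun _ => (1 : Γ)) := by
        apply L_congr
        filter_upwards [hmq] with p hp
        exact L_eq ((hq' p.1 hp).2.2 _)
      rw [this, L_const]
    rw [h2, h3, one_mul] at h1
    have h4 := L_eq_iff.1 h1
    refine h4.congr' ?_
    show ∀ᶠ P in (sd 𝔮 (fun p => q' p.1) : Filter ((ℚ × ℚ) × (ℚ × ℚ))), _
    rw [eventually_sd]
    filter_upwards [h.tendsto_ne (lin_q hlin hq x), hmq] with p hp hmp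
    filter_upwards [h.tendsto_ne (lin_q hmp.1 (hq' p.1 hmp).1 (-p.1))] with r hr1
    have hW' : 1 - p.1 * r.1 ≠ 0 := by
      intro h0
      apply hr1
      linear_combination h0
    simp only [Function.comp_apply]
    congr 1
    rw [lin_op hp hW']
    field_simp

end Pool.Agent.Work.MP_0f91f8_co.Cge
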