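import Pool.Agent.Work.MP_0f91f8_co.Cge.Stmts

set_option linter.unusedSectionVars false

open Filter Topology

namespace Pool.Agent.Work.MP_0f91f8_co.Cge

universe u

variable (Γ : Type u) [Group Γ] [TopologicalSpace Γ] [IsTopologicalGroup Γ]
  [CompactSpace Γ] [T2Space Γ]

namespace I_FIN

/-- the third leg -/
def ee (κ V : ℚ) : ℚ := 2 * V / κ / (1 + V ^ 2)

lemma ident {κ : ℚ} (hκ : κ ≠ 0) (h g g' V : ℚ) :
    (h * (g * aa 1 V) * g') ^ 2 + (h * κ * (g * ee κ V) * g') ^ 2 = (h * g * g') ^ 2 := by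
  have h4 : (1 : ℚ) + V ^ 2 ≠ 0 := (one_add_sq_pos V).ne'
  rw [aa_one]
  unfold ee
  field_simp
  ring

variable {Γ} {𝓢 : Filter ℚ} {φ : ℚ → Γ}

lemma small_g {κ : ℚ} {𝔴 : Ultrafilter (ℚ × ℚ)} (hU : UK 𝓢 φ κ 𝔴) :
    Tendsto (fun q : ℚ × ℚ => q.2) (𝔴 : Filter (ℚ × ℚ)) 𝓢 := hU.2.2

lemma small_aa (h : Sys 𝓢 φ) {κ : ℚ} {𝔴 : Ultrafilter (ℚ × ℚ)} (hU : UK 𝓢 φ κ 𝔴) :
    Tendsto (fun q : ℚ × ℚ => q.2 * aa 1 q.1) (𝔴 : Filter (ℚ × ℚ)) 𝓢 := by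
  refine h.tendsto_mul hU.2.2 (tendsto_aa h (W := fun q : ℚ × ℚ => q.1) ?_ ?_ 1)
  · intro x
    have := hU.1.1 x
    rwa [Ultrafilter.coe_map, tendsto_map'_iff] at this
  · have := hU.2.1
    unfold Nrm at this
    rwa [Ultrafilter.coe_map, tendsto_map'_iff] at this

lemma small_ee (h : Sys 𝓢 φ) {κ : ℚ} {𝔴 : Ultrafilter (ℚ × ℚ)} (hU : UK 𝓢 φ κ 𝔴) :
    Tendsto (fun q : ℚ × ℚ => q.2 * ee κ q.1) (𝔴 : Filter (ℚ × ℚ)) 𝓢 := by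
  have h1 : Tendsto (fun q : ℚ × ℚ => 2 * q.1 / κ) (𝔴 : Filter (ℚ × ℚ)) 𝓢 := by
    have := hU.1.2.1
    rwa [Ultrafilter.coe_map, tendsto_map'_iff] at this
  have h2 : Tendsto (fun q : ℚ × ℚ => 1 + q.1 ^ 2) (𝔴 : Filter (ℚ × ℚ)) 𝓢 := by
    have := hU.2.1
    unfold Nrm at this
    rwa [Ultrafilter.coe_map, tendsto_map'_iff] at this
  exact h.tendsto_mul hU.2.2 (h.tendsto_div h1 h2)

end I_FIN

open I_FIN in
/-- the theorem on the rationals -/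
theorem FIN_pf (hG : G0S Γ) (hK : KPART Γ) (hP : PT Γ) : FIN Γ := by
  intro 𝓢 φ hgood s hs O hO
  have h : Sys 𝓢 φ := hgood.toSys
  obtain ⟨H, hH, hHc⟩ := hG 𝓢 φ h
  obtain ⟨N, hNS, hHom, 𝔨, hk, hN⟩ := hK 𝓢 φ h
  have hsel : ∀ κ : ℚ, ∃ (𝔴 : Ultrafilter (ℚ × ℚ)) (x : Γ), κ ≠ 0 → UK 𝓢 φ κ 𝔴 ∧
      L 𝔴 (fun p => φ p.2) = x ∧ L 𝔴 (fun p => φ (p.2 * aa 1 p.1)) = x ∧
      x⁻¹ * L 𝔴 (fun p => φ (p.2 * ee κ p.1)) ∈ N := by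
    intro κ
    by_cases hκ : κ = 0
    · exact ⟨pure (0, 0), 1, fun h0 => absurd hκ h0⟩
    · obtain ⟨𝔴, x, h1, h2, h3, h4⟩ := hP 𝓢 φ hgood N hNS hHom κ hκ
      exact ⟨𝔴, x, fun _ => ⟨h1, h2, h3, h4⟩⟩
  choose w x hw using hsel
  -- the limits along `𝔨`
  have hkne : ∀ᶠ κ in (𝔨 : Filter ℚ), κ ≠ 0 := hk h.ne
  set n : ℚ → Γ := fun κ => (x κ)⁻¹ * L (w κ) (fun p => φ (p.2 * ee κ p.1)) with hn
  set xb : Γ := L 𝔨 x with hxb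
  set nb : Γ := L 𝔨 n with hnb
  have hG0c : IsClosed (G0 𝓢 φ) := hH ▸ hHc
  have hxG : xb ∈ G0 𝓢 φ := by
    refine L_mem hG0c ?_
    filter_upwards [hkne] with κ hκ
    rw [← (hw κ hκ).2.1]
    exact mem_G0 (small_g (hw κ hκ).1)
  have hnN : nb ∈ N := by
    have : nb ∈ (N : Set Γ) := by
      refine L_mem hNS.closed ?_
      filter_upwards [hkne] with κ hκ
      exact (hw κ hκ).2.2.2
    exact this
  have hn'N : xb * nb⁻¹ * xb⁻¹ ∈ N := hNS.nor xb hxG _ (N.inv_mem hnN)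
  obtain ⟨𝔭, hpk, hph, hpn⟩ := hN _ hn'N
  have hpκ : Tendsto (fun p : ℚ × ℚ => p.1) (𝔭 : Filter (ℚ × ℚ)) 𝓢 := by
    have h1 : Tendsto Prod.fst (𝔭 : Filter (ℚ × ℚ)) (𝔨 : Filter ℚ) := by
      rw [← hpk, Ultrafilter.coe_map]
      exact tendsto_map
    exact h1.mono_right hk
  have hpne : ∀ᶠ p in (𝔭 : Filter (ℚ × ℚ)), p.1 ≠ 0 := h.tendsto_ne hpκ
  have hLκ : ∀ f : ℚ → Γ, L 𝔭 (fun p => f p.1) = L 𝔨 f := by
    intro f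
    rw [← hpk, L_map]
  -- the law of `((κ, h), (V, g))`
  set Q : Ultrafilter ((ℚ × ℚ) × (ℚ × ℚ)) := sd 𝔭 (fun p => w p.1) with hQ
  have hr1 : ∀ᶠ p in (𝔭 : Filter (ℚ × ℚ)),
      Tendsto (fun q : ℚ × ℚ => q.2) (w p.1 : Filter (ℚ × ℚ)) 𝓢 := by
    filter_upwards [hpne] with p hp
    exact small_g (hw p.1 hp).1
  have hr2 : ∀ᶠ p in (𝔭 : Filter (ℚ × ℚ)),
      Tendsto (fun q : ℚ × ℚ => q.2 * aa 1 q.1) (w p.1 : Filter (ℚ × ℚ)) 𝓢 := by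
    filter_upwards [hpne] with p hp
    exact small_aa h (hw p.1 hp).1
  have hr3 : ∀ᶠ p in (𝔭 : Filter (ℚ × ℚ)),
      Tendsto (fun q : ℚ × ℚ => q.2 * ee p.1 q.1) (w p.1 : Filter (ℚ × ℚ)) 𝓢 := by
    filter_upwards [hpne] with p hp
    exact small_ee h (hw p.1 hp).1
  have hhκ : Tendsto (fun p : ℚ × ℚ => p.2 * p.1) (𝔭 : Filter (ℚ × ℚ)) 𝓢 :=
    h.tendsto_mul hph hpκ
  set Zr : (ℚ × ℚ) × (ℚ × ℚ) → ℚ := fun q => q.1.2 * q.2.2 with hZr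
  set Xr : (ℚ × ℚ) × (ℚ × ℚ) → ℚ := fun q => q.1.2 * (q.2.2 * aa 1 q.2.1) with hXr
  set Yr : (ℚ × ℚ) × (ℚ × ℚ) → ℚ :=
    fun q => q.1.2 * q.1.1 * (q.2.2 * ee q.1.1 q.2.1) with hYr
  have hZs : Tendsto Zr (Q : Filter ((ℚ × ℚ) × (ℚ × ℚ))) 𝓢 := h.tendsto_sd (𝔬 := fun p : ℚ × ℚ => w p.1)
    (k := fun p : ℚ × ℚ => p.2) (r := fun _ q => q.2) hph hr1
  have hXs : Tendsto Xr (Q : Filter ((ℚ × ℚ) × (ℚ × ℚ))) 𝓢 := h.tendsto_sd (𝔬 := fun p : ℚ × ℚ => w p.1)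
    (k := fun p : ℚ × ℚ => p.2) (r := fun _ q => q.2 * aa 1 q.1) hph hr2
  have hYs : Tendsto Yr (Q : Filter ((ℚ × ℚ) × (ℚ × ℚ))) 𝓢 := h.tendsto_sd (𝔬 := fun p : ℚ × ℚ => w p.1)
    (k := fun p : ℚ × ℚ => p.2 * p.1) (r := fun p q => q.2 * ee p.1 q.1) hhκ hr3
  set ζ : Γ := L 𝔭 (fun p => φ p.2) * xb with hζ
  have hZL : L Q (fun q => φ (Zr q)) = ζ := by
    have e := h.L_sd_mul (𝔬 := fun p : ℚ × ℚ => w p.1)
      (k := fun p : ℚ × ℚ => p.2) (r := fun _ q => q.2) hph hr1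
    have e2 : LL 𝔭 (fun p : ℚ × ℚ => w p.1) (fun _ q => φ q.2) = xb := by
      rw [hxb, ← hLκ x]
      unfold LL
      apply L_congr
      filter_upwards [hpne] with p hp
      exact (hw p.1 hp).2.1
    rw [e2] at e
    exact e
  have hXL : L Q (fun q => φ (Xr q)) = ζ := by
    have e := h.L_sd_mul (𝔬 := fun p : ℚ × ℚ => w p.1)
      (k := fun p : ℚ × ℚ => p.2) (r := fun _ q => q.2 * aa 1 q.1) hph hr2
    have e2 : LL 𝔭 (fun p : ℚ × ℚ => w p.1) (fun _ q => φ (q.2 * aa 1 q.1)) = xb := by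
      rw [hxb, ← hLκ x]
      unfold LL
      apply L_congr
      filter_upwards [hpne] with p hp
      exact (hw p.1 hp).2.2.1
    rw [e2] at e
    exact e
  have hYL : L Q (fun q => φ (Yr q)) = ζ := by
    have e := h.L_sd_mul (𝔬 := fun p : ℚ × ℚ => w p.1)
      (k := fun p : ℚ × ℚ => p.2 * p.1) (r := fun p q => q.2 * ee p.1 q.1) hhκ hr3
    have e2 : LL 𝔭 (fun p : ℚ × ℚ => w p.1) (fun p q => φ (q.2 * ee p.1 q.1)) = xb * nb := by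
      rw [hxb, hnb, ← L_mul, ← hLκ]
      unfold LL
      apply L_congr
      filter_upwards [hpne] with p hp
      simp only [hn]
      group
    have e3 : L 𝔭 (fun p : ℚ × ℚ => φ (p.2 * p.1)) =
        L 𝔭 (fun p => φ p.2) * (xb * nb⁻¹ * xb⁻¹) := by
      rw [← hpn]
      group
    rw [e2, e3] at e
    rw [show (fun q => φ (Yr q)) = fun p : (ℚ × ℚ) × (ℚ × ℚ) =>
      φ (p.1.2 * p.1.1 * (p.2.2 * ee p.1.1 p.2.1)) from rfl]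
    rw [hQ, e, hζ]
    group
  -- kill `ζ`
  have hζG : ζ ∈ H := by
    have h1 : L 𝔭 (fun p => φ p.2) ∈ (H : Set Γ) := by
      rw [hH]
      exact mem_G0 hph
    have h2 : xb ∈ (H : Set Γ) := by
      rw [hH]
      exact hxG
    exact H.mul_mem h1 h2
  have hζi : ζ⁻¹ ∈ G0 𝓢 φ := by
    rw [← hH]
    exact H.inv_mem hζG
  obtain ⟨𝔬, ho, hoL⟩ := hζi
  set R : Ultrafilter (((ℚ × ℚ) × (ℚ × ℚ)) × ℚ) := sd Q (fun _ => 𝔬) with hR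
  have ho' : Tendsto (fun r : ℚ => r) (𝔬 : Filter ℚ) 𝓢 := tendsto_id.mono_right ho
  have key : ∀ A : (ℚ × ℚ) × (ℚ × ℚ) → ℚ, Tendsto A (Q : Filter ((ℚ × ℚ) × (ℚ × ℚ))) 𝓢 →
      L Q (fun q => φ (A q)) = ζ →
      ∀ᶠ p in (R : Filter (((ℚ × ℚ) × (ℚ × ℚ)) × ℚ)), A p.1 * p.2 ∈ s ∧ φ (A p.1 * p.2) ∈ O := by
    intro A hA hAL
    have hsm : Tendsto (fun p : ((ℚ × ℚ) × (ℚ × ℚ)) × ℚ => A p.1 * p.2) (R : Filter (((ℚ × ℚ) × (ℚ × ℚ)) × ℚ)) 𝓢 :=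
      h.tendsto_sd (𝔬 := fun _ => 𝔬) (k := A) (r := fun _ r => r) hA
        (Eventually.of_forall fun _ => ho')
    have e := h.L_sd_mul (𝔬 := fun _ => 𝔬) (k := A) (r := fun _ r => r) hA
        (Eventually.of_forall fun _ => ho')
    rw [LL_const, hAL, show L 𝔬 (fun ω => φ ω) = ζ⁻¹ from hoL, mul_inv_cancel] at e
    have ht := L_eq_iff.1 e
    filter_upwards [hsm hs, ht hO] with p h1 h2
    exact ⟨h1, h2⟩
  have hne : ∀ᶠ p in (R : Filter (((ℚ × ℚ) × (ℚ × ℚ)) × ℚ)), p.1.1.1 ≠ 0 := by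
    rw [hR, eventually_sd]
    have : ∀ᶠ q in (Q : Filter ((ℚ × ℚ) × (ℚ × ℚ))), q.1.1 ≠ 0 := by
      rw [hQ, eventually_sd]
      filter_upwards [hpne] with p hp
      exact Eventually.of_forall fun _ => hp
    filter_upwards [this] with q hq
    exact Eventually.of_forall fun _ => hq
  obtain ⟨p, hp0, hX, hY, hZ⟩ := (hne.and ((key Xr hXs hXL).and
    ((key Yr hYs hYL).and (key Zr hZs hZL)))).exists
  refine ⟨Xr p.1 * p.2, Yr p.1 * p.2, Zr p.1 * p.2, ?_, hX.1, hY.1, hZ.1, hX.2, hY.2, hZ.2⟩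
  exact ident hp0 p.1.1.2 p.1.2.2 p.2 p.1.2.1

end Pool.Agent.Work.MP_0f91f8_co.Cge
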