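import Pool.Agent.Work.MP_0f91f8_co.Cge.Stmts

/-!
Block [0f91f8 CGE], item G0S: the limits of `φ` along small ultrafilters form a closed group.
-/

set_option linter.unusedSectionVars false

open Filter Topology

namespace Pool.Agent.Work.MP_0f91f8_co.Cge

universe u

variable (Γ : Type u) [Group Γ] [TopologicalSpace Γ] [IsTopologicalGroup Γ]
  [CompactSpace Γ] [T2Space Γ]

namespace I_G0S

lemma isClosed_G0 (𝓢 : Filter ℚ) (φ : ℚ → Γ) : IsClosed (G0 𝓢 φ) := by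
  have h1 : IsClosed {𝔬 : Ultrafilter ℚ | (𝔬 : Filter ℚ) ≤ 𝓢} := by
    have := isClosed_tendsto (Ω := ℚ) (Ω' := ℚ) id 𝓢
    simpa only [tendsto_id'] using this
  have h2 : G0 𝓢 φ = (fun 𝔬 : Ultrafilter ℚ => L 𝔬 φ) '' {𝔬 | (𝔬 : Filter ℚ) ≤ 𝓢} := by
    ext γ
    exact Iff.rfl
  rw [h2]
  exact (h1.isCompact.image (continuous_L φ)).isClosed

end I_G0S

theorem G0S_pf (hCSG : CSG Γ) : G0S Γ := by
  intro 𝓢 φ h
  have hcl : IsClosed (G0 𝓢 φ) := I_G0S.isClosed_G0 Γ 𝓢 φ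
  have hne : (G0 𝓢 φ).Nonempty := by
    refine ⟨_, pure 1, ?_, rfl⟩
    intro s hs
    exact h.one s hs
  have hmul : ∀ a ∈ G0 𝓢 φ, ∀ b ∈ G0 𝓢 φ, a * b ∈ G0 𝓢 φ := by
    rintro a ⟨𝔬, h𝔬, rfl⟩ b ⟨𝔬', h𝔬', rfl⟩
    have hk : Tendsto (fun v : ℚ => v) (𝔬 : Filter ℚ) 𝓢 := h𝔬
    have hr : ∀ᶠ v in (𝔬 : Filter ℚ), Tendsto (fun ω : ℚ => ω) (𝔬' : Filter ℚ) 𝓢 :=
      Eventually.of_forall fun _ => h𝔬'
    have h1 := h.tendsto_sd (𝔳 := 𝔬) (𝔬 := fun _ => 𝔬') (k := fun v => v)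
      (r := fun _ ω => ω) hk hr
    have h2 := h.L_sd_mul (𝔳 := 𝔬) (𝔬 := fun _ => 𝔬') (k := fun v => v)
      (r := fun _ ω => ω) hk hr
    rw [LL_const] at h2
    have h3 := mem_G0 (φ := φ) h1
    rw [h2] at h3
    exact h3
  obtain ⟨h1, hinv⟩ := hCSG (G0 𝓢 φ) hcl hne hmul
  refine ⟨{ carrier := G0 𝓢 φ
            mul_mem' := fun {a b} ha hb => hmul a ha b hb
            one_mem' := h1
            inv_mem' := fun {a} ha => hinv a ha }, rfl, hcl⟩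

end Pool.Agent.Work.MP_0f91f8_co.Cge
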