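import Pool.Agent.Work.MP_0f91f8_co.Cge.Stmts

/-!
Item INDG of block [0f91f8 CGE]: the families that are independent of all small elements modulo
`N` form a group.
-/

set_option linter.unusedSectionVars false

open Filter Topology

namespace Pool.Agent.Work.MP_0f91f8_co.Cge

universe u

variable (Γ : Type u) [Group Γ] [TopologicalSpace Γ] [IsTopologicalGroup Γ]
  [CompactSpace Γ] [T2Space Γ]

namespace I_INDG

variable {Γ} {𝓢 : Filter ℚ} {φ : ℚ → Γ} {N : Subgroup Γ} {s : Ultrafilter ℚ} {Ω : Type}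
  {𝔬 : ℚ → Ultrafilter Ω}

/-- transfer of almost sure statements from the first marginal -/
lemma ev_fst {𝔮 : Ultrafilter (Ω × ℚ)} {𝔬 : Ultrafilter Ω} (h : 𝔮.map Prod.fst = 𝔬)
    {p : Ω → Prop} (hp : ∀ᶠ ω in (𝔬 : Filter Ω), p ω) :
    ∀ᶠ x in (𝔮 : Filter (Ω × ℚ)), p x.1 := by
  rw [← h, Ultrafilter.coe_map] at hp
  exact hp

lemma tendsto_fst' {𝔮 : Ultrafilter (Ω × ℚ)} {𝔬 : Ultrafilter Ω} (h : 𝔮.map Prod.fst = 𝔬)
    {r : Ω → ℚ} (hr : Tendsto r (𝔬 : Filter Ω) 𝓢) :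
    Tendsto (fun x : Ω × ℚ => r x.1) (𝔮 : Filter (Ω × ℚ)) 𝓢 := by
  rw [← h, Ultrafilter.coe_map] at hr
  exact hr.comp tendsto_map

lemma map_fst_map (𝔮 : Ultrafilter (Ω × ℚ)) (g : Ω × ℚ → ℚ) :
    (𝔮.map (fun p => (p.1, g p))).map Prod.fst = 𝔮.map Prod.fst := by
  rw [Ultrafilter.map_map]
  rfl

lemma map_fst_map' (𝔬 : Ultrafilter Ω) (g : Ω → ℚ) :
    (𝔬.map (fun w => (w, g w))).map Prod.fst = 𝔬 := by
  rw [Ultrafilter.map_map]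
  exact Ultrafilter.map_id' 𝔬

lemma one_ind (h : Sys 𝓢 φ) : Ind 𝓢 φ N s 𝔬 (fun _ _ => 1) := by
  refine ⟨Eventually.of_forall fun v => h.tendsto_one _, fun 𝔮 _ => ?_⟩
  have h1 : LL s 𝔬 (fun _ (_ : Ω) => φ 1) = 1 := by
    rw [LL_fst s 𝔬 (fun _ => φ 1), L_const, h.φ_one]
  simp only [mul_one, h1, inv_mul_cancel, inv_one]
  exact N.one_mem

lemma congr_ind {r r' : ℚ → Ω → ℚ} (hr : Ind 𝓢 φ N s 𝔬 r)
    (e : ∀ᶠ v in (s : Filter ℚ), ∀ᶠ ω in (𝔬 v : Filter Ω), r v ω = r' v ω) :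
    Ind 𝓢 φ N s 𝔬 r' := by
  refine ⟨?_, fun 𝔮 h𝔮 => ?_⟩
  · filter_upwards [hr.1, e] with v h1 h2
    exact h1.congr' h2
  · have h1 := hr.2 𝔮 h𝔮
    have h2 : LL s 𝔮 (fun v p => φ (p.2 * r v p.1)) = LL s 𝔮 (fun v p => φ (p.2 * r' v p.1)) := by
      apply LL_congr
      filter_upwards [h𝔮, e] with v h3 h4
      filter_upwards [ev_fst h3.1 h4] with p hp
      rw [hp]
    have h3 : LL s 𝔬 (fun v ω => φ (r v ω)) = LL s 𝔬 (fun v ω => φ (r' v ω)) := by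
      apply LL_congr
      filter_upwards [e] with v h4
      filter_upwards [h4] with p hp
      rw [hp]
    rwa [h2, h3] at h1

/-- the conclusion for the coupling of the form `(w, g w)` -/
lemma ind_self {r : ℚ → Ω → ℚ} (hr : Ind 𝓢 φ N s 𝔬 r) {g : ℚ → Ω → ℚ}
    (hg : ∀ᶠ v in (s : Filter ℚ), Tendsto (g v) (𝔬 v : Filter Ω) 𝓢) :
    (LL s 𝔬 (fun v ω => φ (g v ω)))⁻¹ * LL s 𝔬 (fun v ω => φ (g v ω * r v ω)) *
      (LL s 𝔬 (fun v ω => φ (r v ω)))⁻¹ ∈ N := by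
  have h1 := hr.2 (fun v => (𝔬 v).map (fun w => (w, g v w))) (by
    filter_upwards [hg] with v hv
    refine ⟨map_fst_map' _ _, ?_⟩
    rw [Ultrafilter.coe_map, tendsto_map'_iff]
    exact hv)
  rwa [LL_map s 𝔬 (fun v w => (w, g v w)) (fun _ p => φ p.2),
    LL_map s 𝔬 (fun v w => (w, g v w)) (fun v p => φ (p.2 * r v p.1))] at h1

/-- the conclusion for a coupling with changed second component -/
lemma ind_map {r : ℚ → Ω → ℚ} (hr : Ind 𝓢 φ N s 𝔬 r) {𝔮 : ℚ → Ultrafilter (Ω × ℚ)}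
    {g : ℚ → Ω × ℚ → ℚ}
    (hg : ∀ᶠ v in (s : Filter ℚ), (𝔮 v).map Prod.fst = 𝔬 v ∧
      Tendsto (g v) (𝔮 v : Filter (Ω × ℚ)) 𝓢) :
    (LL s 𝔮 (fun v p => φ (g v p)))⁻¹ * LL s 𝔮 (fun v p => φ (g v p * r v p.1)) *
      (LL s 𝔬 (fun v ω => φ (r v ω)))⁻¹ ∈ N := by
  have h1 := hr.2 (fun v => (𝔮 v).map (fun p => (p.1, g v p))) (by
    filter_upwards [hg] with v hv
    refine ⟨(map_fst_map _ _).trans hv.1, ?_⟩
    rw [Ultrafilter.coe_map, tendsto_map'_iff]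
    exact hv.2)
  rwa [LL_map s 𝔮 (fun v p => (p.1, g v p)) (fun _ p => φ p.2),
    LL_map s 𝔮 (fun v p => (p.1, g v p)) (fun v p => φ (p.2 * r v p.1))] at h1

lemma mul_ind (h : Sys 𝓢 φ) (hN : NS 𝓢 φ N) (hcl : IsClosed (G0 𝓢 φ)) {r r' : ℚ → Ω → ℚ}
    (hr : Ind 𝓢 φ N s 𝔬 r) (hr' : Ind 𝓢 φ N s 𝔬 r') :
    Ind 𝓢 φ N s 𝔬 (fun v ω => r v ω * r' v ω) := by
  refine ⟨?_, fun 𝔮 h𝔮 => ?_⟩
  · filter_upwards [hr.1, hr'.1] with v h1 h2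
    exact h.tendsto_mul h1 h2
  · have h1 := hr.2 𝔮 h𝔮
    have h2 := ind_map (φ := φ) (g := fun v p => p.2 * r v p.1) hr' (by
      filter_upwards [h𝔮, hr.1] with v h3 h4
      exact ⟨h3.1, h.tendsto_mul h3.2 (tendsto_fst' h3.1 h4)⟩)
    have h3 := ind_self (φ := φ) hr' hr.1
    have h4 : LL s 𝔬 (fun v ω => φ (r v ω)) ∈ G0 𝓢 φ := LL_mem_G0 hcl hr.1
    have h5 : (fun (v : ℚ) (p : Ω × ℚ) => φ (p.2 * (r v p.1 * r' v p.1))) =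
        fun v p => φ (p.2 * r v p.1 * r' v p.1) := by
      funext v p
      rw [mul_assoc]
    rw [h5]
    have h6 := N.mul_mem h1 (hN.nor _ h4 _ (N.mul_mem h2 (N.inv_mem h3)))
    convert h6 using 1
    group

lemma inv_ind (h : Sys 𝓢 φ) (hN : NS 𝓢 φ N) (hcl : IsClosed (G0 𝓢 φ))
    (hinv : ∀ a ∈ G0 𝓢 φ, a⁻¹ ∈ G0 𝓢 φ) {r : ℚ → Ω → ℚ} (hr : Ind 𝓢 φ N s 𝔬 r) :
    Ind 𝓢 φ N s 𝔬 (fun v ω => (r v ω)⁻¹) := by
  have hi : ∀ᶠ v in (s : Filter ℚ), Tendsto (fun ω => (r v ω)⁻¹) (𝔬 v : Filter Ω) 𝓢 := by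
    filter_upwards [hr.1] with v h1
    exact h.tendsto_inv h1
  refine ⟨hi, fun 𝔮 h𝔮 => ?_⟩
  have h2 := ind_map (φ := φ) (g := fun v p => p.2 * (r v p.1)⁻¹) hr (by
    filter_upwards [h𝔮, hi] with v h3 h4
    exact ⟨h3.1, h.tendsto_mul h3.2 (tendsto_fst' h3.1 h4)⟩)
  have h3 := ind_self (φ := φ) hr hi
  have h4 : LL s 𝔬 (fun v ω => φ (r v ω)) ∈ G0 𝓢 φ := LL_mem_G0 hcl hr.1
  have h5 : LL s 𝔮 (fun v p => φ (p.2 * (r v p.1)⁻¹ * r v p.1)) =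
      LL s 𝔮 (fun _ p => φ p.2) := by
    apply LL_congr
    filter_upwards [h𝔮, hr.1] with v h6 h7
    filter_upwards [ev_fst h6.1 (h.tendsto_ne h7)] with p hp
    rw [mul_assoc, inv_mul_cancel₀ hp, mul_one]
  have h6 : LL s 𝔬 (fun v ω => φ ((r v ω)⁻¹ * r v ω)) = 1 := by
    have : LL s 𝔬 (fun v ω => φ ((r v ω)⁻¹ * r v ω)) = LL s 𝔬 (fun _ (_ : Ω) => φ 1) := by
      apply LL_congr
      filter_upwards [hr.1] with v h7
      filter_upwards [h.tendsto_ne h7] with p hp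
      rw [inv_mul_cancel₀ hp]
    rw [this, LL_fst s 𝔬 (fun _ => φ 1), L_const, h.φ_one]
  rw [h5] at h2
  rw [h6] at h3
  have h7 := hN.nor _ (hinv _ h4) _ (N.mul_mem (N.inv_mem h2) h3)
  convert h7 using 1
  group

end I_INDG

open I_INDG in
theorem INDG_pf (hG : G0S Γ) : INDG Γ := by
  intro 𝓢 φ N h hN s Ω 𝔬
  obtain ⟨H, hH, hcl⟩ := hG 𝓢 φ h
  rw [hH] at hcl
  refine ⟨one_ind h, fun r r' hr e => congr_ind hr e, fun r r' hr hr' => mul_ind h hN hcl hr hr',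
    fun r hr => inv_ind h hN hcl (fun a ha => ?_) hr⟩
  rw [← hH] at ha ⊢
  exact H.inv_mem ha

end Pool.Agent.Work.MP_0f91f8_co.Cge
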