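import Pool.Agent.Work.MP_0f91f8_co.Cge.Stmts

/-!
Item KIND of block [0f91f8 CGE] (helper60): the functions `aa (cc v) W` are independent.
-/

set_option linter.unusedSectionVars false

open Filter Topology

namespace Pool.Agent.Work.MP_0f91f8_co.Cge

universe u

variable (Γ : Type u) [Group Γ] [TopologicalSpace Γ] [IsTopologicalGroup Γ]
  [CompactSpace Γ] [T2Space Γ]

theorem KIND_pf : KIND Γ := by
  intro 𝓢 φ N hS s hK Ω 𝔬 W hW
  refine ⟨?_, ?_⟩
  · filter_upwards [hW] with v hv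
    obtain ⟨⟨hlin, _⟩, hnrm⟩ := hv
    refine tendsto_aa hS (fun x => ?_) ?_ (cc v)
    · have h1 := hlin x
      rw [Ultrafilter.coe_map, tendsto_map'_iff] at h1
      exact h1
    · have h2 : Tendsto (fun W : ℚ => 1 + W ^ 2) ((𝔬 v).map (W v) : Filter ℚ) 𝓢 := hnrm
      rw [Ultrafilter.coe_map, tendsto_map'_iff] at h2
      exact h2
  · intro 𝔮 hq
    have hfst : ∀ v, (𝔮 v).map Prod.fst = 𝔬 v →
        ((𝔮 v).map (fun p : Ω × ℚ => (W v p.1, p.2))).map Prod.fst = (𝔬 v).map (W v) := by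
      intro v hv
      rw [← hv, Ultrafilter.map_map, Ultrafilter.map_map]
      rfl
    have hU : ∀ᶠ v in (s : Filter ℚ),
        U' 𝓢 φ ((𝔮 v).map (fun p : Ω × ℚ => (W v p.1, p.2))) := by
      filter_upwards [hW, hq] with v hv hqv
      refine ⟨?_, ?_, ?_⟩
      · rw [hfst v hqv.1]
        exact hv.1
      · rw [hfst v hqv.1]
        exact hv.2
      · rw [Ultrafilter.coe_map, tendsto_map'_iff]
        exact hqv.2
    have h := hK (fun v => (𝔮 v).map (fun p : Ω × ℚ => (W v p.1, p.2))) hU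
    have e1 : LL s (fun v => (𝔮 v).map (fun p : Ω × ℚ => (W v p.1, p.2)))
        (fun _ p => φ p.2) = LL s 𝔮 (fun _ p => φ p.2) :=
      LL_map s 𝔮 (fun v (p : Ω × ℚ) => (W v p.1, p.2)) (fun _ p => φ p.2)
    have e2 : LL s (fun v => (𝔮 v).map (fun p : Ω × ℚ => (W v p.1, p.2)))
        (fun v p => φ (p.2 * aa (cc v) p.1)) =
          LL s 𝔮 (fun v p => φ (p.2 * aa (cc v) (W v p.1))) :=
      LL_map s 𝔮 (fun v (p : Ω × ℚ) => (W v p.1, p.2)) (fun v p => φ (p.2 * aa (cc v) p.1))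
    have e3 : LL s (fun v => (𝔮 v).map (fun p : Ω × ℚ => (W v p.1, p.2)))
        (fun v p => φ (aa (cc v) p.1)) = LL s 𝔬 (fun v ω => φ (aa (cc v) (W v ω))) := by
      rw [LL_map s 𝔮 (fun v (p : Ω × ℚ) => (W v p.1, p.2)) (fun v p => φ (aa (cc v) p.1))]
      unfold LL
      apply L_congr
      filter_upwards [hq] with v hv
      rw [← hv.1, L_map]
    rw [e1, e2, e3] at h
    exact h

end Pool.Agent.Work.MP_0f91f8_co.Cge
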