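import Pool.Agent.Work.MP_0f91f8_co.Cge.Stmts

/-!
Item KPART of block [0f91f8 CGE] (helper71).
-/

set_option linter.unusedSectionVars false
set_option linter.unusedVariables false

open Filter Topology

namespace Pool.Agent.Work.MP_0f91f8_co.Cge

universe u

variable (Γ : Type u) [Group Γ] [TopologicalSpace Γ] [IsTopologicalGroup Γ]
  [CompactSpace Γ] [T2Space Γ]

namespace I_KPART

variable {Γ}

/-- the value of `φ` at a product chosen by a move -/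
lemma chi_MvK {𝓢 : Filter ℚ} {φ : ℚ → Γ} (h : Sys 𝓢 φ) {𝔴 : Ultrafilter (ℚ × ℚ)}
    (h𝔴 : U2 𝓢 𝔴) {x : St Γ} (hx : (x.1 : Filter ℚ) ≤ 𝓢) :
    L (MvK φ 𝔴 x).1 φ = L x.1 φ * L (𝔴.map Prod.fst) φ := by
  have h1 : (MvK φ 𝔴 x).1 = (sd x.1 (fun _ => 𝔴.map Prod.fst)).map (fun p => p.1 * p.2) := rfl
  have h2 : Tendsto (fun r : ℚ => r) ((𝔴.map Prod.fst : Ultrafilter ℚ) : Filter ℚ) 𝓢 := by
    rw [Ultrafilter.coe_map, tendsto_map'_iff]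
    exact h𝔴.1
  rw [h1, L_map, h.L_sd_mul (𝔳 := x.1) (𝔬 := fun _ => 𝔴.map Prod.fst) (k := fun v => v)
    (r := fun _ r => r) hx (Eventually.of_forall fun _ => h2)]
  congr 1
  exact LL_const x.1 (𝔴.map Prod.fst) φ

end I_KPART

open I_KPART in
theorem KPART_pf (hY : KYEX Γ) (hG : G0S Γ) (hCSG : CSG Γ) : KPART Γ := by
  intro 𝓢 φ hS
  obtain ⟨Y, N, hYN⟩ := hY 𝓢 φ hS
  refine ⟨N, hYN.ns, hYN.hom, ?_⟩
  -- first components are small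
  have hsmall : ∀ x ∈ Y, (x.1 : Filter ℚ) ≤ 𝓢 := by
    intro x hx
    obtain ⟨𝔴, h𝔴, rfl⟩ := hYN.sub x hx
    exact h𝔴.1
  -- the compact set of values
  set C : Set Γ := (fun x : St Γ => L x.1 φ) '' Y with hC
  have hcont : Continuous (fun x : St Γ => L x.1 φ) := (continuous_L φ).comp continuous_fst
  have hCcl : IsClosed C := (hYN.closed.isCompact.image hcont).isClosed
  obtain ⟨x1, hx1⟩ := hYN.nonempty
  obtain ⟨𝔴1, h𝔴1, hx1e⟩ := hYN.sub x1 hx1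
  set g : Γ := L x1.1 φ with hg
  have hg' : L (𝔴1.map Prod.fst) φ = g := by
    rw [hg, ← hx1e]
    rfl
  have hstep : ∀ c ∈ C, c * g ∈ C := by
    rintro _ ⟨x, hx, rfl⟩
    refine ⟨MvK φ 𝔴1 x, hYN.inv 𝔴1 h𝔴1 x hx, ?_⟩
    show L (MvK φ 𝔴1 x).1 φ = L x.1 φ * g
    rw [chi_MvK hS h𝔴1 (hsmall x hx), hg']
  have hpow : ∀ j : ℕ, g ^ (j + 1) ∈ C := by
    intro j
    induction j with
    | zero => exact ⟨x1, hx1, by simp [hg]⟩
    | succ j ih =>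
      rw [pow_succ]
      exact hstep _ ih
  set S : Set Γ := closure (Set.range fun j : ℕ => g ^ (j + 1)) with hSdef
  have hSC : S ⊆ C := closure_minimal (by rintro _ ⟨j, rfl⟩; exact hpow j) hCcl
  have hSmul : ∀ a ∈ S, ∀ b ∈ S, a * b ∈ S := by
    intro a ha b hb
    refine map_mem_closure₂ continuous_mul ha hb ?_
    rintro _ ⟨i, rfl⟩ _ ⟨j, rfl⟩
    refine ⟨i + j + 1, ?_⟩
    show g ^ (i + j + 1 + 1) = g ^ (i + 1) * g ^ (j + 1)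
    rw [← pow_add]
    congr 1
    ring
  have hSne : S.Nonempty := ⟨g ^ (0 + 1), subset_closure ⟨0, rfl⟩⟩
  obtain ⟨h1S, -⟩ := hCSG S isClosed_closure hSne hSmul
  obtain ⟨x, hx, hx1'⟩ := hSC h1S
  have hx1'' : L x.1 φ = 1 := hx1'
  refine ⟨x.1, hsmall x hx, ?_⟩
  obtain ⟨𝔴, h𝔴, hxe⟩ := hYN.sub x hx
  have e1 : L 𝔴 (fun p => φ p.1) = 1 := by
    rw [← hx1'', ← hxe]
    exact (L_map 𝔴 Prod.fst φ).symm
  have hm := hYN.hom 𝔴 h𝔴.1 h𝔴.2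
  rw [e1, mul_one] at hm
  have hm' : x.2.1⁻¹ * x.2.2 ∈ N := by
    rw [← hxe]
    exact hm
  intro n hn
  obtain ⟨𝔴', h𝔴', he⟩ := hYN.sub _ (hYN.mulN x hx ((x.2.1⁻¹ * x.2.2)⁻¹ * n)
    (N.mul_mem (N.inv_mem hm') hn))
  have f1 : 𝔴'.map Prod.fst = x.1 := congrArg Prod.fst he
  have f2 : L 𝔴' (fun p => φ p.2) = x.2.1 := congrArg (fun y : St Γ => y.2.1) he
  have f3 : L 𝔴' (fun p => φ (p.2 * p.1)) = x.2.2 * ((x.2.1⁻¹ * x.2.2)⁻¹ * n) :=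
    congrArg (fun y : St Γ => y.2.2) he
  refine ⟨𝔴', f1, h𝔴'.2, ?_⟩
  rw [f2, f3]
  group

end Pool.Agent.Work.MP_0f91f8_co.Cge
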