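import Pool.Agent.Work.MP_0f91f8_co.Cge.Stmts

/-! Block [0f91f8 CGE], item KSS: a system over a compact group is a system. -/

open Filter Topology

universe u v

namespace Pool.Agent.Work.MP_0f91f8_co.Cge

variable (K : Type v) (Γ : Type u) [CommGroup K] [TopologicalSpace K] [IsTopologicalGroup K]
  [CompactSpace K] [T2Space K] [Group Γ] [TopologicalSpace Γ] [IsTopologicalGroup Γ]
  [CompactSpace Γ] [T2Space Γ]

namespace I_KSS

variable {K}

theorem f_one (f : ℚ → K) (hm : ∀ a b : ℚ, a ≠ 0 → b ≠ 0 → f (a * b) = f a * f b) :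
    f 1 = 1 := by
  have h := hm 1 1 one_ne_zero one_ne_zero
  rw [mul_one] at h
  exact (mul_eq_left.1 h.symm)

theorem f_div (f : ℚ → K) (hm : ∀ a b : ℚ, a ≠ 0 → b ≠ 0 → f (a * b) = f a * f b)
    {a b : ℚ} (ha : a ≠ 0) (hb : b ≠ 0) : f (a / b) = f a * (f b)⁻¹ := by
  have h := hm (a / b) b (div_ne_zero ha hb) hb
  rw [div_mul_cancel₀ a hb] at h
  rw [h, mul_inv_cancel_right]

end I_KSS

theorem KSS_pf : KSS K Γ := by
  intro f φ hK
  refine ⟨?_, ?_, ?_, hK.φ_one, hK.loc⟩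
  · have h : {q : ℚ | q ≠ 0} ∈ sml f := mem_inf_of_right (mem_principal_self _)
    exact h
  · intro s hs
    have h1 : sml f ≥ pure (1 : ℚ) := by
      refine le_inf ?_ ?_
      · rw [← map_le_iff_le_comap, Filter.map_pure, I_KSS.f_one f hK.mul]
        exact pure_le_nhds _
      · rw [le_principal_iff, mem_pure]
        exact one_ne_zero
    exact mem_pure.1 (h1 hs)
  · have h1 : Tendsto (fun p : ℚ × ℚ => p.1) (sml f ×ˢ sml f) (sml f) := tendsto_fst
    have h2 : Tendsto (fun p : ℚ × ℚ => p.2) (sml f ×ˢ sml f) (sml f) := tendsto_snd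
    have hne : ∀ᶠ q in sml f, q ≠ 0 := mem_inf_of_right (mem_principal_self _)
    have ht : Tendsto f (sml f) (𝓝 1) := tendsto_comap.mono_left inf_le_left
    have e1 : ∀ᶠ p : ℚ × ℚ in sml f ×ˢ sml f, p.1 ≠ 0 := h1.eventually hne
    have e2 : ∀ᶠ p : ℚ × ℚ in sml f ×ˢ sml f, p.2 ≠ 0 := h2.eventually hne
    refine tendsto_inf.2 ⟨?_, ?_⟩
    · rw [tendsto_comap_iff]
      have h3 : Tendsto (fun p : ℚ × ℚ => f p.1 * (f p.2)⁻¹) (sml f ×ˢ sml f) (𝓝 1) := by
        have := (ht.comp h1).mul (ht.comp h2).inv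
        simpa using this
      refine h3.congr' ?_
      filter_upwards [e1, e2] with p hp1 hp2
      exact (I_KSS.f_div f hK.mul hp1 hp2).symm
    · rw [tendsto_principal]
      filter_upwards [e1, e2] with p hp1 hp2
      exact div_ne_zero hp1 hp2

end Pool.Agent.Work.MP_0f91f8_co.Cge
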