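import Pool.Agent.Work.MP_0f91f8_co.Cge.Stmts

set_option linter.unusedSectionVars false

open Filter Topology

universe u

namespace Pool.Agent.Work.MP_0f91f8_co.Cge

namespace I_KYEX

section

variable {Γ : Type u} [Group Γ] [TopologicalSpace Γ] [IsTopologicalGroup Γ]
  [CompactSpace Γ] [T2Space Γ] {𝓢 : Filter ℚ} {φ : ℚ → Γ}

/-- the left action on the group components -/
@[reducible] def act (Γ : Type u) [Group Γ] : MulAction (Γ × Γ) (St Γ) where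
  smul h x := (x.1, (h.1 * x.2.1, h.2 * x.2.2))
  one_smul x := by
    show ((x.1, ((1 : Γ) * x.2.1, (1 : Γ) * x.2.2)) : St Γ) = x
    rw [one_mul, one_mul]
  mul_smul h k x := by
    show ((x.1, (h.1 * k.1 * x.2.1, h.2 * k.2 * x.2.2)) : St Γ) =
      (x.1, (h.1 * (k.1 * x.2.1), h.2 * (k.2 * x.2.2)))
    rw [mul_assoc, mul_assoc]

/-- the action as a function -/
def ac (h : Γ × Γ) (x : St Γ) : St Γ := (x.1, (h.1 * x.2.1, h.2 * x.2.2))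

lemma ac_one (x : St Γ) : ac (1 : Γ × Γ) x = x := by
  show ((x.1, ((1 : Γ) * x.2.1, (1 : Γ) * x.2.2)) : St Γ) = x
  rw [one_mul, one_mul]

lemma ac_mul (h k : Γ × Γ) (x : St Γ) : ac (h * k) x = ac h (ac k x) := by
  show ((x.1, (h.1 * k.1 * x.2.1, h.2 * k.2 * x.2.2)) : St Γ) =
      (x.1, (h.1 * (k.1 * x.2.1), h.2 * (k.2 * x.2.2)))
  rw [mul_assoc, mul_assoc]

/-- stabiliser of `Y` -/
def Fs (Y : Set (St Γ)) : Subgroup (Γ × Γ) where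
  carrier := {h | ∀ y ∈ Y, ac h y ∈ Y ∧ ac h⁻¹ y ∈ Y}
  one_mem' := by
    intro y hy
    rw [inv_one, ac_one]
    exact ⟨hy, hy⟩
  mul_mem' := by
    intro a b ha hb y hy
    refine ⟨?_, ?_⟩
    · rw [ac_mul]
      exact (ha _ (hb y hy).1).1
    · rw [mul_inv_rev, ac_mul]
      exact (hb _ (ha y hy).2).2
  inv_mem' := by
    intro a ha y hy
    refine ⟨(ha y hy).2, ?_⟩
    rw [inv_inv]
    exact (ha y hy).1

lemma mem_Fs {Y : Set (St Γ)} {h : Γ × Γ} :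
    h ∈ Fs Y ↔ ∀ y ∈ Y, ac h y ∈ Y ∧ ac h⁻¹ y ∈ Y := Iff.rfl

/-- the group of the second component -/
def Nn (Y : Set (St Γ)) : Subgroup Γ := (Fs Y).comap (MonoidHom.inr Γ Γ)

lemma mem_Nn {Y : Set (St Γ)} {n : Γ} : n ∈ Nn Y ↔ ((1 : Γ), n) ∈ Fs Y := Iff.rfl

lemma isClosed_Nn {Y : Set (St Γ)} (hY : IsClosed Y) : IsClosed (Nn Y : Set Γ) := by
  have h1 : (Nn Y : Set Γ) = ⋂ y ∈ Y, ({n | ac ((1 : Γ), n) y ∈ Y} ∩
      {n | ac ((1 : Γ), n)⁻¹ y ∈ Y}) := by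
    ext n
    simp only [Set.mem_iInter, Set.mem_inter_iff, Set.mem_ofPred_eq]
    exact Iff.rfl
  rw [h1]
  refine isClosed_biInter fun y _ => ?_
  refine IsClosed.inter (hY.preimage ?_) (hY.preimage ?_)
  · show Continuous (fun n : Γ => ((y.1, ((1 : Γ) * y.2.1, n * y.2.2)) : St Γ))
    fun_prop
  · show Continuous (fun n : Γ => ((y.1, ((1 : Γ)⁻¹ * y.2.1, n⁻¹ * y.2.2)) : St Γ))
    fun_prop

/-- the states -/
def XK (𝓢 : Filter ℚ) (φ : ℚ → Γ) : Set (St Γ) := sttK φ '' {w : Ultrafilter (ℚ × ℚ) | U2 𝓢 w}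

lemma snd_mem (hS : Sys 𝓢 φ) {x : St Γ} (hx : x ∈ XK 𝓢 φ) : x.2.2 ∈ G0 𝓢 φ := by
  obtain ⟨w, hw, rfl⟩ := hx
  exact mem_G0 (r := fun p : ℚ × ℚ => p.2 * p.1) (hS.tendsto_mul hw.2 hw.1)

lemma continuous_sttK (φ : ℚ → Γ) : Continuous (sttK φ) :=
  (continuous_map Prod.fst).prodMk
    ((continuous_L (fun p : ℚ × ℚ => φ p.2)).prodMk
      (continuous_L (fun p : ℚ × ℚ => φ (p.2 * p.1))))

lemma isClosed_XK (𝓢 : Filter ℚ) (φ : ℚ → Γ) : IsClosed (XK 𝓢 φ) := by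
  have h1 : IsClosed {w : Ultrafilter (ℚ × ℚ) | U2 𝓢 w} :=
    (isClosed_tendsto (fun p : ℚ × ℚ => p.1) 𝓢).inter
      (isClosed_tendsto (fun p : ℚ × ℚ => p.2) 𝓢)
  exact (h1.isCompact.image (continuous_sttK φ)).isClosed

lemma U2_one (hS : Sys 𝓢 φ) : U2 𝓢 (pure ((1 : ℚ), (1 : ℚ)) : Ultrafilter (ℚ × ℚ)) :=
  ⟨fun t ht => hS.one t ht, fun t ht => hS.one t ht⟩

lemma continuous_MvK (φ : ℚ → Γ) (w : Ultrafilter (ℚ × ℚ)) : Continuous (MvK φ w) := by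
  have h1 : Continuous (fun s : Ultrafilter ℚ =>
      (sd s (fun _ => w.map Prod.fst)).map (fun p : ℚ × ℚ => p.1 * p.2)) :=
    (continuous_map _).comp (continuous_bind _)
  have h2 : Continuous (fun x : St Γ => x.2.1 * L w (fun p => φ p.2)) := by fun_prop
  have h3 : Continuous (fun x : St Γ => x.2.2 * L w (fun p => φ (p.2 * p.1))) := by fun_prop
  exact (h1.comp continuous_fst).prodMk (h2.prodMk h3)

lemma MvK_mem (hS : Sys 𝓢 φ) {w : Ultrafilter (ℚ × ℚ)} (hw : U2 𝓢 w) {x : St Γ}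
    (hx : x ∈ XK 𝓢 φ) : MvK φ w x ∈ XK 𝓢 φ := by
  obtain ⟨w0, hw0, rfl⟩ := hx
  refine ⟨(sd w0 (fun _ => w)).map
    (fun P : (ℚ × ℚ) × (ℚ × ℚ) => (P.1.1 * P.2.1, P.1.2 * P.2.2)), ⟨?_, ?_⟩, ?_⟩
  · show Tendsto (fun p : ℚ × ℚ => p.1) (Filter.map
      (fun P : (ℚ × ℚ) × (ℚ × ℚ) => (P.1.1 * P.2.1, P.1.2 * P.2.2))
      (sd w0 (fun _ => w) : Filter _)) 𝓢
    rw [tendsto_map'_iff]
    exact hS.tendsto_sd (k := fun p : ℚ × ℚ => p.1) (r := fun _ (p : ℚ × ℚ) => p.1) hw0.1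
      (Eventually.of_forall fun _ => hw.1)
  · show Tendsto (fun p : ℚ × ℚ => p.2) (Filter.map
      (fun P : (ℚ × ℚ) × (ℚ × ℚ) => (P.1.1 * P.2.1, P.1.2 * P.2.2))
      (sd w0 (fun _ => w) : Filter _)) 𝓢
    rw [tendsto_map'_iff]
    exact hS.tendsto_sd (k := fun p : ℚ × ℚ => p.2) (r := fun _ (p : ℚ × ℚ) => p.2) hw0.2
      (Eventually.of_forall fun _ => hw.2)
  · refine Prod.ext ?_ (Prod.ext ?_ ?_)
    · apply Ultrafilter.coe_injective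
      ext t
      exact Iff.rfl
    · show L ((sd w0 (fun _ => w)).map _) (fun p : ℚ × ℚ => φ p.2) =
        L w0 (fun p => φ p.2) * L w (fun p => φ p.2)
      rw [L_map]
      have h1 := hS.L_sd_mul (𝔳 := w0) (𝔬 := fun _ => w) (k := fun p : ℚ × ℚ => p.2)
        (r := fun _ (p : ℚ × ℚ) => p.2) hw0.2 (Eventually.of_forall fun _ => hw.2)
      rw [LL_const] at h1
      exact h1
    · show L ((sd w0 (fun _ => w)).map _) (fun p : ℚ × ℚ => φ (p.2 * p.1)) =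
        L w0 (fun p => φ (p.2 * p.1)) * L w (fun p => φ (p.2 * p.1))
      rw [L_map]
      have h1 := hS.L_sd_mul (𝔳 := w0) (𝔬 := fun _ => w) (k := fun p : ℚ × ℚ => p.2 * p.1)
        (r := fun _ (p : ℚ × ℚ) => p.2 * p.1) (hS.tendsto_mul hw0.2 hw0.1)
        (Eventually.of_forall fun _ => hS.tendsto_mul hw.2 hw.1)
      rw [LL_const] at h1
      rw [← h1]
      congr 1
      funext P
      show φ (P.1.2 * P.2.2 * (P.1.1 * P.2.1)) = φ (P.1.2 * P.1.1 * (P.2.2 * P.2.1))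
      congr 1
      ring

lemma map_one_fst (s : Ultrafilter ℚ) (v : Ultrafilter ℚ) (hv : v = pure 1) :
    (sd s (fun _ => v)).map (fun p : ℚ × ℚ => p.1 * p.2) = s := by
  subst hv
  apply Ultrafilter.coe_injective
  ext t
  show (∀ᶠ v in (s : Filter ℚ), v * 1 ∈ t) ↔ ∀ᶠ v in (s : Filter ℚ), v ∈ t
  simp only [mul_one]

lemma map_one {Ω : Type*} (o : Ultrafilter Ω) (g : Ω → ℚ) :
    (o.map (fun r => ((1 : ℚ), g r))).map Prod.fst = pure 1 := by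
  apply Ultrafilter.coe_injective
  ext t
  show (∀ᶠ _ in (o : Filter Ω), (1 : ℚ) ∈ t) ↔ (1 : ℚ) ∈ t
  exact ⟨fun h => h.exists.choose_spec, fun h => Eventually.of_forall fun _ => h⟩

lemma U2_map (hS : Sys 𝓢 φ) {Ω : Type*} (o : Ultrafilter Ω) (g : Ω → ℚ)
    (hg : Tendsto g (o : Filter Ω) 𝓢) : U2 𝓢 (o.map (fun r => ((1 : ℚ), g r))) := by
  refine ⟨?_, ?_⟩
  · show Tendsto (fun p : ℚ × ℚ => p.1) (Filter.map (fun r => ((1 : ℚ), g r)) (o : Filter Ω)) 𝓢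
    rw [tendsto_map'_iff]
    exact hS.tendsto_one _
  · show Tendsto (fun p : ℚ × ℚ => p.2) (Filter.map (fun r => ((1 : ℚ), g r)) (o : Filter Ω)) 𝓢
    rw [tendsto_map'_iff]
    exact hg

lemma MvK_map {Ω : Type*} (o : Ultrafilter Ω) (g : Ω → ℚ) (x : St Γ) :
    MvK φ (o.map (fun r => ((1 : ℚ), g r))) x =
      (x.1, (x.2.1 * L o (fun r => φ (g r)), x.2.2 * L o (fun r => φ (g r)))) := by
  unfold MvK
  rw [map_one_fst _ _ (map_one o g), L_map, L_map]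
  simp only [mul_one]

end

end I_KYEX

open I_KYEX in
theorem KYEX_pf (Γ : Type u) [Group Γ] [TopologicalSpace Γ] [IsTopologicalGroup Γ]
    [CompactSpace Γ] [T2Space Γ] (hMIN : MIN.{u, u, 0}) (hG : G0S Γ) : KYEX Γ := by
  classical
  intro 𝓢 φ hS
  let _inst : MulAction (Γ × Γ) (St Γ) := act Γ
  obtain ⟨Y, hYX, hYc, hYne, hYinv, hYgrp⟩ := hMIN (St Γ) (Γ × Γ)
    {w : Ultrafilter (ℚ × ℚ) // U2 𝓢 w}
    (fun h => by
      show Continuous (fun x : St Γ => ((x.1, (h.1 * x.2.1, h.2 * x.2.2)) : St Γ))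
      fun_prop)
    (fun w x => MvK φ w.1 x) (fun w => continuous_MvK φ w.1)
    (fun w h x => by
      show MvK φ w.1 (ac h x) = ac h (MvK φ w.1 x)
      unfold MvK ac
      simp only [mul_assoc])
    (XK 𝓢 φ) (isClosed_XK 𝓢 φ) ⟨_, _, U2_one hS, rfl⟩ (fun w x hx => MvK_mem hS w.2 hx)
  have hFs : ∀ (h : Γ × Γ) (x : St Γ), x ∈ Y → ac h x ∈ Y → h ∈ Fs Y := fun h x hx hhx =>
    fun y hy => hYgrp h x hx hhx y hy
  have hinv : ∀ w : Ultrafilter (ℚ × ℚ), U2 𝓢 w → ∀ x ∈ Y, MvK φ w x ∈ Y :=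
    fun w hw x hx => hYinv ⟨w, hw⟩ x hx
  obtain ⟨H, hH, -⟩ := hG 𝓢 φ hS
  have hmemH : ∀ γ, γ ∈ G0 𝓢 φ ↔ γ ∈ H := fun γ => by
    rw [← hH]
    exact Iff.rfl
  -- diagonal elements
  have hdiag : ∀ γ ∈ G0 𝓢 φ, ∀ x ∈ Y,
      (x.2.1 * γ * x.2.1⁻¹, x.2.2 * γ * x.2.2⁻¹) ∈ Fs Y := by
    rintro γ ⟨o, ho, rfl⟩ x hx
    have h1 := hinv _ (U2_map hS o (fun r => r) ho) x hx
    rw [MvK_map] at h1
    refine hFs _ x hx ?_
    have h3 : ac (x.2.1 * L o φ * x.2.1⁻¹, x.2.2 * L o φ * x.2.2⁻¹) x =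
        (x.1, (x.2.1 * L o φ, x.2.2 * L o φ)) := by
      unfold ac
      simp only [inv_mul_cancel_right]
    rw [h3]
    exact h1
  have hsnd : ∀ x ∈ Y, x.2.2 ∈ G0 𝓢 φ := fun x hx => snd_mem hS (hYX hx)
  -- normality
  have hnor : ∀ γ ∈ G0 𝓢 φ, ∀ n ∈ Nn Y, γ * n * γ⁻¹ ∈ Nn Y := by
    intro γ hγ n hn
    obtain ⟨x, hx⟩ := hYne
    have hz := hsnd x hx
    have h1 : x.2.2⁻¹ * γ * x.2.2 ∈ G0 𝓢 φ := by
      rw [hmemH] at hγ hz ⊢
      exact H.mul_mem (H.mul_mem (H.inv_mem hz) hγ) hz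
    have h2 := hdiag _ h1 x hx
    have h3 : x.2.2 * (x.2.2⁻¹ * γ * x.2.2) * x.2.2⁻¹ = γ := by group
    rw [h3] at h2
    rw [mem_Nn] at hn ⊢
    have h4 := (Fs Y).mul_mem ((Fs Y).mul_mem h2 hn) ((Fs Y).inv_mem h2)
    have h5 : (x.2.1 * (x.2.2⁻¹ * γ * x.2.2) * x.2.1⁻¹, γ) * ((1 : Γ), n) *
        (x.2.1 * (x.2.2⁻¹ * γ * x.2.2) * x.2.1⁻¹, γ)⁻¹ = ((1 : Γ), γ * n * γ⁻¹) := by
      simp only [Prod.mk_mul_mk, Prod.inv_mk, mul_one, mul_inv_cancel]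
    rw [h5] at h4
    exact h4
  refine ⟨Y, Nn Y, hYc, hYne, ?_, hinv, ⟨isClosed_Nn hYc, hnor⟩, ?_, ?_⟩
  · intro x hx
    obtain ⟨w, hw, hwx⟩ := hYX hx
    exact ⟨w, hw, hwx⟩
  · -- mulN
    intro x hx n hn
    have h1 := hnor _ (hsnd x hx) n hn
    rw [mem_Nn, mem_Fs] at h1
    have h2 := (h1 x hx).1
    have h3 : ac ((1 : Γ), x.2.2 * n * x.2.2⁻¹) x = (x.1, (x.2.1, x.2.2 * n)) := by
      unfold ac
      simp only [one_mul, inv_mul_cancel_right]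
    rw [h3] at h2
    exact h2
  · -- the homomorphism property
    intro q hq1 hq2
    obtain ⟨x, hx⟩ := hYne
    set A := L q (fun p => φ p.2) with hA
    set B := L q (fun p => φ (p.2 * p.1)) with hB
    set C := L q (fun p => φ p.1) with hC
    -- the law with second component one
    set q1 : Ultrafilter (ℚ × ℚ) := q.map (fun p => (p.1, (1 : ℚ))) with hq1'
    have hU : U2 𝓢 q := ⟨hq1, hq2⟩
    have hU1 : U2 𝓢 q1 := by
      refine ⟨?_, ?_⟩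
      · show Tendsto (fun p : ℚ × ℚ => p.1)
          (Filter.map (fun p : ℚ × ℚ => (p.1, (1 : ℚ))) (q : Filter (ℚ × ℚ))) 𝓢
        rw [tendsto_map'_iff]
        exact hq1
      · show Tendsto (fun p : ℚ × ℚ => p.2)
          (Filter.map (fun p : ℚ × ℚ => (p.1, (1 : ℚ))) (q : Filter (ℚ × ℚ))) 𝓢
        rw [tendsto_map'_iff]
        exact hS.tendsto_one _
    have hM : MvK φ q x ∈ Y := hinv q hU x hx
    have hM1 : MvK φ q1 x ∈ Y := hinv q1 hU1 x hx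
    have hM2 := hinv _ (U2_map hS q (fun p => p.2) hq2) x hx
    rw [MvK_map] at hM2
    have e1 : MvK φ q1 x = ((sd x.1 (fun _ => q.map Prod.fst)).map (fun p => p.1 * p.2),
        (x.2.1, x.2.2 * C)) := by
      unfold MvK
      have ha : q1.map Prod.fst = q.map Prod.fst := by
        apply Ultrafilter.coe_injective
        ext t
        exact Iff.rfl
      have hb : L q1 (fun p => φ p.2) = 1 := by
        rw [hq1', L_map]
        simp only [hS.φ_one, L_const]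
      have hc : L q1 (fun p => φ (p.2 * p.1)) = C := by
        rw [hq1', L_map]
        simp only [one_mul]
        rfl
      rw [ha, hb, hc, mul_one]
    have f1 : (x.2.1 * A * x.2.1⁻¹, x.2.2 * (B * C⁻¹) * x.2.2⁻¹) ∈ Fs Y := by
      refine hFs _ _ hM1 ?_
      have h3 : ac (x.2.1 * A * x.2.1⁻¹, x.2.2 * (B * C⁻¹) * x.2.2⁻¹) (MvK φ q1 x) =
          MvK φ q x := by
        rw [e1]
        unfold ac MvK
        refine Prod.ext rfl (Prod.ext ?_ ?_)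
        · show x.2.1 * A * x.2.1⁻¹ * x.2.1 = x.2.1 * A
          group
        · show x.2.2 * (B * C⁻¹) * x.2.2⁻¹ * (x.2.2 * C) = x.2.2 * B
          group
      rw [h3]
      exact hM
    have f2 : (x.2.1 * A * x.2.1⁻¹, x.2.2 * A * x.2.2⁻¹) ∈ Fs Y := by
      refine hFs _ _ hx ?_
      have h3 : ac (x.2.1 * A * x.2.1⁻¹, x.2.2 * A * x.2.2⁻¹) x =
          (x.1, (x.2.1 * A, x.2.2 * A)) := by
        unfold ac
        simp only [inv_mul_cancel_right]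
      rw [h3]
      exact hM2
    have f3 := (Fs Y).mul_mem ((Fs Y).inv_mem f2) f1
    have f4 : (x.2.1 * A * x.2.1⁻¹, x.2.2 * A * x.2.2⁻¹)⁻¹ *
        (x.2.1 * A * x.2.1⁻¹, x.2.2 * (B * C⁻¹) * x.2.2⁻¹) =
        ((1 : Γ), x.2.2 * (A⁻¹ * B * C⁻¹) * x.2.2⁻¹) := by
      refine Prod.ext ?_ ?_
      · show (x.2.1 * A * x.2.1⁻¹)⁻¹ * (x.2.1 * A * x.2.1⁻¹) = 1
        group
      · show (x.2.2 * A * x.2.2⁻¹)⁻¹ * (x.2.2 * (B * C⁻¹) * x.2.2⁻¹) =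
          x.2.2 * (A⁻¹ * B * C⁻¹) * x.2.2⁻¹
        group
    rw [f4] at f3
    have hCz : C⁻¹ * x.2.2⁻¹ ∈ G0 𝓢 φ := by
      have h1 : C ∈ G0 𝓢 φ := mem_G0 hq1
      have h2 := hsnd x hx
      rw [hmemH] at h1 h2 ⊢
      exact H.mul_mem (H.inv_mem h1) (H.inv_mem h2)
    have f5 := hnor _ hCz _ (mem_Nn.2 f3)
    have f6 : C⁻¹ * x.2.2⁻¹ * (x.2.2 * (A⁻¹ * B * C⁻¹) * x.2.2⁻¹) * (C⁻¹ * x.2.2⁻¹)⁻¹ =
        (A * C)⁻¹ * B := by
      group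
    rw [f6] at f5
    exact f5

end Pool.Agent.Work.MP_0f91f8_co.Cge
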