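import Pool.Agent.Work.MP_0f91f8_co.Cge.Stmts

/-!
Item MIN of block [0f91f8 CGE]: minimal closed invariant sets of maps commuting with a group
action.
-/

open Filter Topology

namespace Pool.Agent.Work.MP_0f91f8_co.Cge

universe u v w

namespace I_MIN

/-- the family of closed nonempty invariant subsets of `X₀` -/
def fam {X : Type u} {ι : Type w} [TopologicalSpace X] (M : ι → X → X) (X₀ : Set X) :
    Set (Set X) :=
  {Y | Y ⊆ X₀ ∧ IsClosed Y ∧ Y.Nonempty ∧ ∀ i, ∀ x ∈ Y, M i x ∈ Y}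

lemma exists_min {X : Type u} {ι : Type w} [TopologicalSpace X] [CompactSpace X]
    (M : ι → X → X) (X₀ : Set X) (h₀ : X₀ ∈ fam M X₀) :
    ∃ Y, Y ⊆ X₀ ∧ Minimal (· ∈ fam M X₀) Y := by
  refine zorn_superset_nonempty (fam M X₀) ?_ X₀ h₀
  intro c hc hchain hne
  refine ⟨⋂₀ c, ⟨?_, ?_, ?_, ?_⟩, fun s hs => Set.sInter_subset_of_mem hs⟩
  · obtain ⟨s, hs⟩ := hne
    exact (Set.sInter_subset_of_mem hs).trans (hc hs).1
  · exact isClosed_sInter fun s hs => (hc hs).2.1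
  · have : Nonempty c := hne.to_subtype
    refine IsCompact.nonempty_sInter_of_directed_nonempty_isCompact_isClosed ?_ ?_ ?_ ?_
    · intro a ha b hb
      rcases hchain.total ha hb with hab | hba
      · exact ⟨a, ha, subset_rfl, hab⟩
      · exact ⟨b, hb, hba, subset_rfl⟩
    · exact fun s hs => (hc hs).2.2.1
    · exact fun s hs => (hc hs).2.1.isCompact
    · exact fun s hs => (hc hs).2.1
  · intro i x hx s hs
    exact (hc hs).2.2.2 i x (hx s hs)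

lemma smul_mem {X : Type u} {H : Type v} {ι : Type w} [TopologicalSpace X]
    [Group H] [MulAction H X] (hH : ∀ h : H, Continuous (fun x : X => h • x))
    (M : ι → X → X) (hM : ∀ i (h : H) x, M i (h • x) = h • M i x) (X₀ Y : Set X)
    (hY : Minimal (· ∈ fam M X₀) Y) (h : H) (x : X) (hx : x ∈ Y) (hhx : h • x ∈ Y) :
    ∀ y ∈ Y, h • y ∈ Y := by
  have hYm : Y ∈ fam M X₀ := hY.1
  have h1 : {y | y ∈ Y ∧ h • y ∈ Y} ∈ fam M X₀ := by
    refine ⟨fun y hy => hYm.1 hy.1, ?_, ⟨x, hx, hhx⟩, ?_⟩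
    · exact hYm.2.1.inter (hYm.2.1.preimage (hH h))
    · rintro i y ⟨hy1, hy2⟩
      refine ⟨hYm.2.2.2 i y hy1, ?_⟩
      rw [← hM]
      exact hYm.2.2.2 i _ hy2
  have h2 : {y | y ∈ Y ∧ h • y ∈ Y} ⊆ Y := fun y hy => hy.1
  have h3 := hY.2 h1 h2
  intro y hy
  exact (h3 hy).2

end I_MIN

theorem MIN_pf : MIN.{u, v, w} := by
  intro X H ι _ _ _ _ _ hH M hMc hM X₀ hX₀ hne hinv
  obtain ⟨Y, hYX, hY⟩ := I_MIN.exists_min M X₀ ⟨subset_rfl, hX₀, hne, hinv⟩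
  have hYm : Y ∈ I_MIN.fam M X₀ := hY.1
  refine ⟨Y, hYX, hYm.2.1, hYm.2.2.1, hYm.2.2.2, ?_⟩
  intro h x hx hhx y hy
  refine ⟨I_MIN.smul_mem hH M hM X₀ Y hY h x hx hhx y hy, ?_⟩
  refine I_MIN.smul_mem hH M hM X₀ Y hY h⁻¹ (h • x) hhx ?_ y hy
  rwa [inv_smul_smul]

end Pool.Agent.Work.MP_0f91f8_co.Cge
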