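import Pool.Agent.Work.MP_0f91f8_co.Cge.Stmts

/-!
Item MOB: Moebius invariance of the laws `E1`.
-/

set_option linter.unusedSectionVars false

open Filter Topology

namespace Pool.Agent.Work.MP_0f91f8_co.Cge

universe u

section

variable (Γ : Type u) [Group Γ] [TopologicalSpace Γ] [IsTopologicalGroup Γ]
  [CompactSpace Γ] [T2Space Γ]

theorem MOB_pf : MOB Γ := by
  intro 𝓢 φ h
  refine ⟨⟨?_, pure (0, 1), ?_, ?_, ?_⟩, ?_⟩
  · intro x
    simp only [Ultrafilter.coe_pure]
    intro s hs
    simpa using h.one s hs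
  · apply Ultrafilter.coe_injective
    simp
  · simp only [Ultrafilter.coe_pure]
    intro s hs
    simpa using h.one s hs
  · intro x
    simp only [Ultrafilter.coe_pure]
    intro s hs
    have : φ 1 ∈ s := by
      rw [h.φ_one]
      exact mem_of_mem_nhds hs
    simpa using this
  · rintro 𝔲 ⟨hlin, 𝔮, hq, hq1, hq2⟩ l m
    have hq' : ((𝔮.map Prod.fst : Ultrafilter ℚ) : Filter ℚ) = (𝔲 : Filter ℚ) := by rw [hq]
    have hne : ∀ᶠ w in (𝔲 : Filter ℚ), 1 + l * w ≠ 0 := h.tendsto_ne (hlin l)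
    have hlq : ∀ x : ℚ, Tendsto (fun p : ℚ × ℚ => 1 + x * p.1) (𝔮 : Filter (ℚ × ℚ)) 𝓢 := by
      intro x
      have h1 := hlin x
      rw [← hq', Ultrafilter.coe_map, tendsto_map'_iff] at h1
      exact h1
    have hneq : ∀ᶠ p in (𝔮 : Filter (ℚ × ℚ)), 1 + l * p.1 ≠ 0 := h.tendsto_ne (hlq l)
    refine ⟨?_, 𝔮.map (fun p => (m * p.1 / (1 + l * p.1), p.2 * (1 + l * p.1))), ?_, ?_, ?_⟩
    · intro x
      rw [Ultrafilter.coe_map, tendsto_map'_iff]
      have h1 := h.tendsto_div (hlin (l + x * m)) (hlin l)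
      refine h1.congr' ?_
      filter_upwards [hne] with w hw
      simp only [Function.comp_apply]
      field_simp
      ring
    · rw [Ultrafilter.map_map, ← hq, Ultrafilter.map_map]
      rfl
    · rw [Ultrafilter.coe_map, tendsto_map'_iff]
      exact h.tendsto_mul hq1 (hlq l)
    · intro x
      rw [Ultrafilter.coe_map, tendsto_map'_iff]
      refine (hq2 (l + x * m)).congr' ?_
      filter_upwards [hneq] with p hp
      simp only [Function.comp_apply]
      congr 1
      field_simp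
      ring

end

end Pool.Agent.Work.MP_0f91f8_co.Cge
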