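import Pool.Agent.Work.MP_0f91f8_co.Cge.Stmts

/-!
Item NRMBND of block [0f91f8 CGE]: smallness of the norm under adaptive composition.
-/

set_option linter.unusedSectionVars false

open Filter Topology

namespace Pool.Agent.Work.MP_0f91f8_co.Cge

universe u

namespace I_NRMBND

variable {Γ : Type u} [Group Γ] [TopologicalSpace Γ] [IsTopologicalGroup Γ]
  [CompactSpace Γ] [T2Space Γ] {𝓢 : Filter ℚ} {φ : ℚ → Γ}

/-- the denominator of a composition is small -/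
lemma tendsto_den (h : Sys 𝓢 φ) {𝔲 : Ultrafilter ℚ} {m : ℚ → Ultrafilter ℚ}
    (hL : ∀ᶠ V in (𝔲 : Filter ℚ), Lin 𝓢 (m V)) :
    Tendsto (fun p : ℚ × ℚ => 1 - p.1 * p.2) (sd 𝔲 m : Filter (ℚ × ℚ)) 𝓢 := by
  have h1 : Tendsto (fun p : ℚ × ℚ => (1 : ℚ) * (1 - p.1 * p.2))
      (sd 𝔲 m : Filter (ℚ × ℚ)) 𝓢 := by
    refine h.tendsto_sd (𝔳 := 𝔲) (𝔬 := m) (k := fun _ => (1 : ℚ))
      (r := fun V W => 1 - V * W) (h.tendsto_one _) ?_
    filter_upwards [hL] with V hV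
    refine (hV (-V)).congr fun W => ?_
    ring
  simpa only [one_mul] using h1

end I_NRMBND

variable (Γ : Type u) [Group Γ] [TopologicalSpace Γ] [IsTopologicalGroup Γ]
  [CompactSpace Γ] [T2Space Γ]

theorem NRMBND_pf : NRMBND Γ := by
  intro 𝓢 φ h 𝔲 m hL hT
  have hd := I_NRMBND.tendsto_den h hL
  have hne : ∀ᶠ p in (sd 𝔲 m : Filter (ℚ × ℚ)), 1 - p.1 * p.2 ≠ 0 := h.tendsto_ne hd
  have h1 := h.tendsto_div hT (h.tendsto_mul hd hd)
  show Tendsto (fun W : ℚ => 1 + W ^ 2) (bnd 𝔲 m : Filter ℚ) 𝓢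
  unfold bnd
  rw [Ultrafilter.coe_map, tendsto_map'_iff]
  refine h1.congr' ?_
  filter_upwards [hne] with p hp
  simp only [Function.comp]
  rw [norm_op hp]
  ring

end Pool.Agent.Work.MP_0f91f8_co.Cge
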