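import Pool.Agent.Work.MP_0f91f8_co.Cge.Stmts
import Pool.Agent.Work.MP_0f91f8_co.BohrFinal

/-! Block CGE (0f91f8), item PEX. -/

set_option linter.unusedSectionVars false

open Filter Topology

namespace Pool.Agent.Work.MP_0f91f8_co.Cge

universe u v

attribute [local instance] Ultrafilter.mul Ultrafilter.semigroup

namespace I_PEX

/-- the set of ultrafilters which send all dilates into `A` -/
def TT (A : Set ℕ) : Set (Ultrafilter ℕ) :=
  {p | ∀ r : ℚ, 0 < r → ∀ᶠ n : ℕ in (p : Filter ℕ), ∃ m : ℕ, 0 < m ∧ m ∈ A ∧ (m : ℚ) = r * n}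

lemma isClosed_TT (A : Set ℕ) : IsClosed (TT A) := by
  have : TT A = ⋂ r : {r : ℚ // 0 < r},
      {p : Ultrafilter ℕ | {n : ℕ | ∃ m : ℕ, 0 < m ∧ m ∈ A ∧ (m : ℚ) = r.1 * n} ∈ p} := by
    ext p
    simp only [Set.mem_iInter, Subtype.forall, TT, Set.mem_ofPred_eq]
    exact Iff.rfl
  rw [this]
  exact isClosed_iInter fun r => ultrafilter_isClosed_basic _

lemma nonempty_TT {A : Set ℕ} (hA : Thick A) : (TT A).Nonempty := by
  classical
  let E : {S : Finset ℚ // ∀ q ∈ S, 0 < q} → Set ℕ := fun p =>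
    {k | 0 < k ∧ ∀ q ∈ p.1, ∃ n : ℕ, n ∈ A ∧ (n : ℚ) = k * q}
  have hne : Nonempty {S : Finset ℚ // ∀ q ∈ S, 0 < q} := ⟨⟨∅, by simp⟩⟩
  have hdir : Directed (· ≥ ·) (fun p => 𝓟 (E p)) := by
    rintro ⟨S₁, h₁⟩ ⟨S₂, h₂⟩
    refine ⟨⟨S₁ ∪ S₂, ?_⟩, ?_, ?_⟩
    · intro q hq
      rcases Finset.mem_union.1 hq with h | h
      · exact h₁ q h
      · exact h₂ q h
    · apply principal_mono.2
      rintro k ⟨hk, hkS⟩
      exact ⟨hk, fun q hq => hkS q (Finset.mem_union_left _ hq)⟩
    · apply principal_mono.2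
      rintro k ⟨hk, hkS⟩
      exact ⟨hk, fun q hq => hkS q (Finset.mem_union_right _ hq)⟩
  have hbot : NeBot (⨅ p, 𝓟 (E p)) := by
    apply iInf_neBot_of_directed' hdir
    rintro ⟨S, hS⟩
    rw [principal_neBot_iff]
    exact Bohr.exists_dilate hA S hS
  obtain ⟨𝒰, h𝒰⟩ : ∃ 𝒰 : Ultrafilter ℕ, (𝒰 : Filter ℕ) ≤ ⨅ p, 𝓟 (E p) :=
    ⟨Ultrafilter.of _, Ultrafilter.of_le _⟩
  refine ⟨𝒰, fun r hr => ?_⟩
  have hS : ∀ q ∈ ({r} : Finset ℚ), 0 < q := by
    intro q hq
    rw [Finset.mem_singleton] at hq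
    rw [hq]
    exact hr
  have h1 : (𝒰 : Filter ℕ) ≤ 𝓟 (E ⟨{r}, hS⟩) := h𝒰.trans (iInf_le _ _)
  have h2 : ∀ᶠ k : ℕ in (𝒰 : Filter ℕ), k ∈ E ⟨{r}, hS⟩ := le_principal_iff.1 h1
  filter_upwards [h2] with k hk
  obtain ⟨n, hnA, hn⟩ := hk.2 r (Finset.mem_singleton_self r)
  have hk0 : (0 : ℚ) < k := by exact_mod_cast hk.1
  have hn0 : (0 : ℚ) < n := by rw [hn]; positivity
  exact ⟨n, by exact_mod_cast hn0, hnA, by rw [hn]; ring⟩

lemma pos_of_TT {A : Set ℕ} {p : Ultrafilter ℕ} (hp : p ∈ TT A) :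
    ∀ᶠ n : ℕ in (p : Filter ℕ), 0 < n := by
  filter_upwards [hp 1 one_pos] with n hn
  obtain ⟨m, hm, -, h⟩ := hn
  rw [one_mul] at h
  have : m = n := by exact_mod_cast h
  rw [← this]
  exact hm

lemma mul_TT {A : Set ℕ} {p p' : Ultrafilter ℕ} (hp : p ∈ TT A) (hp' : p' ∈ TT A) :
    p * p' ∈ TT A := by
  intro r hr
  rw [Ultrafilter.eventually_mul]
  filter_upwards [pos_of_TT hp] with a ha
  have ha' : (0 : ℚ) < a := by exact_mod_cast ha
  filter_upwards [hp' (r * a) (mul_pos hr ha')] with b hb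
  obtain ⟨m, hm, hmA, h⟩ := hb
  refine ⟨m, hm, hmA, ?_⟩
  rw [h]
  push_cast
  ring

lemma mul_eq_bind (p p' : Ultrafilter ℕ) : p * p' = p.bind (fun a => p'.map (fun b => a * b)) := by
  apply Ultrafilter.coe_injective
  ext s
  exact Iff.rfl

lemma L_umul {Y : Type*} [TopologicalSpace Y] [CompactSpace Y] [T2Space Y]
    (p p' : Ultrafilter ℕ) (h : ℕ → Y) :
    L (p * p') h = L p (fun a => L p' (fun b => h (a * b))) := by
  rw [mul_eq_bind, L_bind]
  unfold LL
  congr 1
  funext a
  rw [L_map]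

end I_PEX

section

variable (K : Type v) (Γ : Type u) [CommGroup K] [TopologicalSpace K] [IsTopologicalGroup K]
  [CompactSpace K] [T2Space K] [Group Γ] [TopologicalSpace Γ] [IsTopologicalGroup Γ]
  [CompactSpace Γ] [T2Space Γ]

open I_PEX in
theorem PEX_pf : PEX K Γ := by
  intro f φ W τ hN A hA
  obtain ⟨p, hp, hpp⟩ := exists_idempotent_in_compact_subsemigroup
    (fun r : Ultrafilter ℕ => Ultrafilter.continuous_mul_left r) (TT A) (nonempty_TT hA)
    (isClosed_TT A).isCompact (fun x hx y hy => mul_TT hx hy)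
  have hpos := pos_of_TT hp
  have hf1 : f 1 = 1 := by
    have h := hN.mul 1 1 one_pos one_pos
    rw [mul_one] at h
    exact left_eq_mul.1 h
  -- the limit of `f`
  have hfL : L p f = 1 := by
    have h1 : L p f = L p f * L p f := by
      calc L p f = L (p * p) f := by rw [hpp]
        _ = L p (fun a => L p (fun b => f (a * b))) := L_umul p p f
        _ = L p (fun a => f a * L p f) := by
            apply L_congr
            filter_upwards [hpos] with a ha
            apply L_eq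
            refine (tendsto_const_nhds.mul (tendsto_L p f)).congr' ?_
            filter_upwards [hpos] with b hb
            exact (hN.mul a b ha hb).symm
        _ = L p f * L p f := L_eq ((tendsto_L p f).mul tendsto_const_nhds)
    exact left_eq_mul.1 h1
  have hft : Tendsto f (p : Filter ℕ) (𝓝 1) := by
    have := tendsto_L p f
    rwa [hfL] at this
  have hfW : ∀ᶠ n : ℕ in (p : Filter ℕ), f n ∈ W := hft (hN.W_open.mem_nhds hN.W_one)
  have hφL : L p φ = 1 := by
    have h1 : L p φ = L p φ * L p φ := by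
      calc L p φ = L (p * p) φ := by rw [hpp]
        _ = L p (fun a => L p (fun b => φ (a * b))) := L_umul p p φ
        _ = L p (fun a => φ a * L p φ) := by
            apply L_congr
            filter_upwards [hpos, hfW] with a ha haW
            have hφa : φ a = τ a 1 := by
              have h := hN.coc a 1 ha one_pos (by rw [hf1]; exact hN.W_one)
                (by rw [mul_one]; exact haW)
              rw [mul_one, hf1, hN.φ_one, mul_one] at h
              exact h
            have h1S : (1 : K) ∈ {x | x ∈ W ∧ f a * x ∈ W} :=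
              ⟨hN.W_one, by rw [mul_one]; exact haW⟩
            have hab : ∀ᶠ b : ℕ in (p : Filter ℕ), f a * f b ∈ W := by
              have h2 : Tendsto (fun b : ℕ => f a * f b) (p : Filter ℕ) (𝓝 (f a * 1)) :=
                tendsto_const_nhds.mul hft
              rw [mul_one] at h2
              exact h2 (hN.W_open.mem_nhds haW)
            have hS : ∀ᶠ b : ℕ in (p : Filter ℕ), f b ∈ {x | x ∈ W ∧ f a * x ∈ W} := by
              filter_upwards [hfW, hab] with b h3 h4
              exact ⟨h3, h4⟩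
            have hτ : Tendsto (fun b => τ a (f b)) (p : Filter ℕ) (𝓝 (τ a 1)) :=
              ((hN.cont a ha) 1 h1S).tendsto.comp (tendsto_nhdsWithin_iff.2 ⟨hft, hS⟩)
            rw [hφa]
            apply L_eq
            refine (hτ.mul (tendsto_L p φ)).congr' ?_
            filter_upwards [hpos, hS] with b hb hbS
            refine (hN.coc a b ha hb hbS.1 ?_).symm
            rw [hN.mul a b ha hb]
            exact hbS.2
        _ = L p φ * L p φ := L_eq ((tendsto_L p φ).mul tendsto_const_nhds)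
    exact left_eq_mul.1 h1
  refine ⟨p, hp, hft, ?_⟩
  have := tendsto_L p φ
  rwa [hφL] at this

end

end Pool.Agent.Work.MP_0f91f8_co.Cge
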