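import Pool.Agent.Work.MP_0f91f8_co.Cge.Stmts

/-!
Block [0f91f8 CGE], item PT: the laws for one twist.
-/

set_option linter.unusedSectionVars false

open Filter Topology

namespace Pool.Agent.Work.MP_0f91f8_co.Cge

universe u

variable (Γ : Type u) [Group Γ] [TopologicalSpace Γ] [IsTopologicalGroup Γ]
  [CompactSpace Γ] [T2Space Γ]

namespace I_PT

variable {Γ}
variable {𝓢 : Filter ℚ} {φ : ℚ → Γ}

/-- `Hom` for the law of a pair of functions -/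
lemma hom_map {N : Subgroup Γ} (hH : Hom 𝓢 φ N) {Ω : Type*} (𝔬 : Ultrafilter Ω) (a b : Ω → ℚ)
    (ha : Tendsto a (𝔬 : Filter Ω) 𝓢) (hb : Tendsto b (𝔬 : Filter Ω) 𝓢) :
    (L 𝔬 (fun ω => φ (b ω)) * L 𝔬 (fun ω => φ (a ω)))⁻¹ * L 𝔬 (fun ω => φ (b ω * a ω)) ∈ N := by
  have h := hH (𝔬.map (fun ω => (a ω, b ω))) ?_ ?_
  · simpa only [L_map] using h
  · rw [Ultrafilter.coe_map, tendsto_map'_iff]
    exact ha
  · rw [Ultrafilter.coe_map, tendsto_map'_iff]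
    exact hb

lemma mem_of_coupling {N : Subgroup Γ} (hH : Hom 𝓢 φ N) {Ω : Type*} (𝔬 : Ultrafilter Ω)
    (a q : Ω → ℚ) (ha : Tendsto a (𝔬 : Filter Ω) 𝓢) (hq : Tendsto q (𝔬 : Filter Ω) 𝓢)
    (h1 : Tendsto (fun ω => φ (q ω)) (𝔬 : Filter Ω) (𝓝 1))
    (h2 : Tendsto (fun ω => φ (q ω * a ω)) (𝔬 : Filter Ω) (𝓝 1)) :
    L 𝔬 (fun ω => φ (a ω)) ∈ N := by
  have h := hom_map hH 𝔬 a q ha hq
  rw [L_eq h1, L_eq h2, one_mul, mul_one] at h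
  exact (inv_mem_iff).1 h

lemma stat_of_hom {N : Subgroup Γ} (hH : Hom 𝓢 φ N) : Stat 𝓢 φ N := by
  constructor
  · intro 𝔮 hE hs x
    have hlin : Tendsto (fun p : ℚ × ℚ => 1 + x * p.1) (𝔮 : Filter (ℚ × ℚ)) 𝓢 := by
      have := hE.1 x
      rw [Ultrafilter.coe_map, tendsto_map'_iff] at this
      exact this
    have h := hom_map hH 𝔮 (fun p => 1 + x * p.1) (fun p => p.2) hlin hs
    obtain ⟨𝔮', hfst, hc⟩ := hE.2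
    have hB' : L 𝔮' (fun p : ℚ × ℚ => φ (1 + x * p.1)) ∈ N := by
      refine mem_of_coupling hH 𝔮' (fun p => 1 + x * p.1) (fun p => p.2) ?_ hc.1 ?_ (hc.2 x)
      · have := hE.1 x
        rw [← hfst, Ultrafilter.coe_map, tendsto_map'_iff] at this
        exact this
      · simpa using hc.2 0
    have hB : L 𝔮 (fun p : ℚ × ℚ => φ (1 + x * p.1)) ∈ N := by
      have e1 : L 𝔮 (fun p : ℚ × ℚ => φ (1 + x * p.1)) =
          L (𝔮.map Prod.fst) (fun W => φ (1 + x * W)) := (L_map 𝔮 Prod.fst (fun W => φ (1 + x * W))).symm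
      have e2 : L 𝔮' (fun p : ℚ × ℚ => φ (1 + x * p.1)) =
          L (𝔮'.map Prod.fst) (fun W => φ (1 + x * W)) := (L_map 𝔮' Prod.fst (fun W => φ (1 + x * W))).symm
      rw [e1, ← hfst, ← e2]
      exact hB'
    have key := N.mul_mem hB h
    have e : L 𝔮 (fun p : ℚ × ℚ => φ (1 + x * p.1)) *
        ((L 𝔮 (fun p : ℚ × ℚ => φ p.2) * L 𝔮 (fun p : ℚ × ℚ => φ (1 + x * p.1)))⁻¹ *
          L 𝔮 (fun p : ℚ × ℚ => φ (p.2 * (1 + x * p.1)))) =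
        (L 𝔮 (fun p : ℚ × ℚ => φ p.2))⁻¹ * L 𝔮 (fun p : ℚ × ℚ => φ (p.2 * (1 + x * p.1))) := by
      group
    rw [e] at key
    exact key
  · intro 𝔮 hU
    have hn : Tendsto (fun p : ℚ × ℚ => 1 + p.1 ^ 2) (𝔮 : Filter (ℚ × ℚ)) 𝓢 := by
      have := hU.2.1
      unfold Nrm at this
      rw [Ultrafilter.coe_map, tendsto_map'_iff] at this
      exact this
    exact hom_map hH 𝔮 (fun p => 1 + p.1 ^ 2) (fun p => p.2) hn hU.2.2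

lemma stat_inf {N N' : Subgroup Γ} (h : Stat 𝓢 φ N) (h' : Stat 𝓢 φ N') :
    Stat 𝓢 φ (N ⊓ N') :=
  ⟨fun 𝔮 hE hs x => ⟨h.lin 𝔮 hE hs x, h'.lin 𝔮 hE hs x⟩, fun 𝔮 hU => ⟨h.nrm 𝔮 hU, h'.nrm 𝔮 hU⟩⟩

lemma ns_inf {N N' : Subgroup Γ} (h : NS 𝓢 φ N) (h' : NS 𝓢 φ N') : NS 𝓢 φ (N ⊓ N') := by
  refine ⟨?_, fun γ hγ n hn => ⟨h.nor γ hγ n hn.1, h'.nor γ hγ n hn.2⟩⟩
  rw [Subgroup.coe_inf]
  exact h.closed.inter h'.closed

/-- first components of couplings -/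
lemma map_pair_fst {Ω : Type*} (𝔬 : Ultrafilter Ω) (a b : Ω → ℚ) :
    (𝔬.map (fun ω => (a ω, b ω))).map Prod.fst = 𝔬.map a := rfl

/-- computation modulo `N` -/
lemma mod_N {N : Subgroup Γ} (hS : Stat 𝓢 φ N) (hsys : Sys 𝓢 φ) {𝔴 : Ultrafilter (ℚ × ℚ)}
    (hU : U' 𝓢 φ 𝔴) (hth : L (𝔴.map Prod.fst) (fun V => φ (1 + V ^ 2)) ∈ N) :
    (L 𝔴 (fun p => φ (p.2 * aa 1 p.1)))⁻¹ * L 𝔴 (fun p => φ p.2) ∈ N := by
  obtain ⟨hE, hn, hs⟩ := hU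
  have hlin : ∀ x : ℚ, Tendsto (fun p : ℚ × ℚ => 1 + x * p.1) (𝔴 : Filter (ℚ × ℚ)) 𝓢 := by
    intro x
    have := hE.1 x
    rw [Ultrafilter.coe_map, tendsto_map'_iff] at this
    exact this
  have hn' : Tendsto (fun p : ℚ × ℚ => 1 + p.1 ^ 2) (𝔴 : Filter (ℚ × ℚ)) 𝓢 := by
    have := hn
    unfold Nrm at this
    rw [Ultrafilter.coe_map, tendsto_map'_iff] at this
    exact this
  have haa : Tendsto (fun p : ℚ × ℚ => aa 1 p.1) (𝔴 : Filter (ℚ × ℚ)) 𝓢 :=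
    tendsto_aa hsys hlin hn' 1
  -- the norm
  have h1 := hS.nrm (𝔴.map (fun p => (p.1, p.2 * aa 1 p.1))) ⟨?_, ?_, ?_⟩
  rotate_left
  · exact hE
  · exact hn
  · rw [Ultrafilter.coe_map, tendsto_map'_iff]
    exact hsys.tendsto_mul hs haa
  -- the linear factors
  have h2 := hS.lin 𝔴 hE hs (-1)
  have h3 := hS.lin (𝔴.map (fun p => (p.1, p.2 * (1 + (-1) * p.1)))) ?_ ?_ 1
  rotate_left
  · exact hE
  · rw [Ultrafilter.coe_map, tendsto_map'_iff]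
    exact hsys.tendsto_mul hs (hlin (-1))
  simp only [L_map] at h1 h3
  rw [L_map] at hth
  have e1 : (fun p : ℚ × ℚ => φ (p.2 * aa 1 p.1 * (1 + p.1 ^ 2))) =
      fun p : ℚ × ℚ => φ (p.2 * (1 + -1 * p.1) * (1 + 1 * p.1)) := by
    funext p
    congr 1
    rw [aa_one]
    have := (one_add_sq_pos p.1).ne'
    field_simp
    ring
  rw [e1] at h1
  set A := L 𝔴 (fun p : ℚ × ℚ => φ (p.2 * aa 1 p.1)) with hA
  set T := L 𝔴 (fun p : ℚ × ℚ => φ (1 + p.1 ^ 2)) with hT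
  set E := L 𝔴 (fun p : ℚ × ℚ => φ (p.2 * (1 + -1 * p.1) * (1 + 1 * p.1))) with hE'
  set B := L 𝔴 (fun p : ℚ × ℚ => φ p.2) with hB
  set C := L 𝔴 (fun p : ℚ × ℚ => φ (p.2 * (1 + -1 * p.1))) with hC
  have k1 : B⁻¹ * E ∈ N := by
    have := N.mul_mem h2 h3
    have e : B⁻¹ * C * (C⁻¹ * E) = B⁻¹ * E := by group
    rwa [e] at this
  have k2 : T * ((A * T)⁻¹ * E) * (B⁻¹ * E)⁻¹ ∈ N :=
    N.mul_mem (N.mul_mem hth h1) (N.inv_mem k1)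
  have e : T * ((A * T)⁻¹ * E) * (B⁻¹ * E)⁻¹ = A⁻¹ * B := by group
  rwa [e] at k2

end I_PT

open I_PT in
theorem PT_pf (_hG : G0S Γ) (hY : YEX Γ) (hS : STAT Γ) (hTh : THETA Γ) : PT Γ := by
  intro 𝓢 φ hg N' hN' hH κ hκ
  obtain ⟨Y, N, hYN⟩ := hY 𝓢 φ hg κ hκ
  have hsys : Sys 𝓢 φ := hg.toSys
  -- static consequences modulo `N`
  have hSN : Stat 𝓢 φ N := by
    obtain ⟨x₀, hx₀⟩ := hYN.nonempty
    obtain ⟨𝔴₀, hU₀, he₀⟩ := hYN.sub hx₀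
    have h1 : 𝔴₀.map Prod.fst = x₀.1 := congrArg Prod.fst he₀
    have hEK : EK 𝓢 φ κ x₀.1 := h1 ▸ hU₀.1
    refine hS 𝓢 φ N hg hYN.ns x₀.1 hEK.1 ?_ (hYN.kst x₀ hx₀)
    filter_upwards [hsys.tendsto_ne hEK.2.1] with v hv h0
    apply hv
    rw [h0]
    simp
  have hSN' : Stat 𝓢 φ N' := stat_of_hom hH
  obtain ⟨x, hx, hth⟩ := hTh 𝓢 φ hg κ hκ Y N (N ⊓ N') hYN (ns_inf hYN.ns hN')
    (stat_inf hSN hSN')
  obtain ⟨𝔴, hU, hw⟩ := hYN.sub hx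
  have hw1 : 𝔴.map Prod.fst = x.1 := congrArg Prod.fst hw
  have hw2 : L 𝔴 (fun p => φ p.2) = x.2.1 := congrArg (fun y : St Γ => y.2.1) hw
  have hw3 : L 𝔴 (fun p => φ (p.2 * aa 1 p.1)) = x.2.2 := congrArg (fun y : St Γ => y.2.2) hw
  have hn := mod_N hSN hsys hU.u' (by rw [hw1]; exact hth.1)
  rw [hw2, hw3] at hn
  have hY' := hYN.mulN x hx _ hn
  rw [mul_inv_cancel_left] at hY'
  obtain ⟨𝔴₁, hU₁, hw'⟩ := hYN.sub hY'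
  have hv1 : 𝔴₁.map Prod.fst = x.1 := congrArg Prod.fst hw'
  have hv2 : L 𝔴₁ (fun p => φ p.2) = x.2.1 := congrArg (fun y : St Γ => y.2.1) hw'
  have hv3 : L 𝔴₁ (fun p => φ (p.2 * aa 1 p.1)) = x.2.1 :=
    congrArg (fun y : St Γ => y.2.2) hw'
  refine ⟨𝔴₁, x.2.1, hU₁, hv2, hv3, ?_⟩
  -- computation modulo `N'`
  have hn₁ : Tendsto (fun p : ℚ × ℚ => 1 + p.1 ^ 2) (𝔴₁ : Filter (ℚ × ℚ)) 𝓢 := by
    have := hU₁.2.1
    unfold Nrm at this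
    rw [Ultrafilter.coe_map, tendsto_map'_iff] at this
    exact this
  have h2V : Tendsto (fun p : ℚ × ℚ => 2 * p.1 / κ) (𝔴₁ : Filter (ℚ × ℚ)) 𝓢 := by
    have := hU₁.1.2.1
    rw [Ultrafilter.coe_map, tendsto_map'_iff] at this
    exact this
  have he : Tendsto (fun p : ℚ × ℚ => 2 * p.1 / κ / (1 + p.1 ^ 2)) (𝔴₁ : Filter (ℚ × ℚ)) 𝓢 :=
    hsys.tendsto_div h2V hn₁
  have k1 := hom_map hH 𝔴₁ (fun p => 2 * p.1 / κ / (1 + p.1 ^ 2)) (fun p => p.2) he hU₁.2.2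
  rw [hv2] at k1
  have k2 := hom_map hH 𝔴₁ (fun p => 2 * p.1 / κ / (1 + p.1 ^ 2)) (fun p => 1 + p.1 ^ 2) he hn₁
  have e2 : (fun p : ℚ × ℚ => φ ((1 + p.1 ^ 2) * (2 * p.1 / κ / (1 + p.1 ^ 2)))) =
      fun p : ℚ × ℚ => φ (2 * p.1 / κ) := by
    funext p
    congr 1
    have := (one_add_sq_pos p.1).ne'
    field_simp
  rw [e2] at k2
  have hT : L 𝔴₁ (fun p : ℚ × ℚ => φ (1 + p.1 ^ 2)) ∈ N' := by
    have e : L 𝔴₁ (fun p : ℚ × ℚ => φ (1 + p.1 ^ 2)) =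
        L (𝔴₁.map Prod.fst) (fun V => φ (1 + V ^ 2)) :=
      (L_map 𝔴₁ Prod.fst (fun V => φ (1 + V ^ 2))).symm
    rw [e, hv1]
    exact hth.2
  have h2 : L 𝔴₁ (fun p : ℚ × ℚ => φ (2 * p.1 / κ)) ∈ N' := by
    obtain ⟨𝔮, hfst, hc, hc2⟩ := hU₁.1.2.2
    have e : L 𝔴₁ (fun p : ℚ × ℚ => φ (2 * p.1 / κ)) =
        L (𝔴₁.map Prod.fst) (fun V => φ (2 * V / κ)) :=
      (L_map 𝔴₁ Prod.fst (fun V => φ (2 * V / κ))).symm
    have e' : L 𝔮 (fun p : ℚ × ℚ => φ (2 * p.1 / κ)) =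
        L (𝔮.map Prod.fst) (fun V => φ (2 * V / κ)) :=
      (L_map 𝔮 Prod.fst (fun V => φ (2 * V / κ))).symm
    rw [e, ← hfst, ← e']
    refine mem_of_coupling hH 𝔮 (fun p => 2 * p.1 / κ) (fun p => p.2) ?_ hc.1 ?_ hc2
    · have := hU₁.1.2.1
      rw [← hfst, Ultrafilter.coe_map, tendsto_map'_iff] at this
      exact this
    · simpa using hc.2 0
  set X := x.2.1 with hX
  set Le := L 𝔴₁ (fun p : ℚ × ℚ => φ (2 * p.1 / κ / (1 + p.1 ^ 2))) with hLe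
  set T := L 𝔴₁ (fun p : ℚ × ℚ => φ (1 + p.1 ^ 2)) with hTdef
  set L2 := L 𝔴₁ (fun p : ℚ × ℚ => φ (2 * p.1 / κ)) with hL2
  set E := L 𝔴₁ (fun p : ℚ × ℚ => φ (p.2 * (2 * p.1 / κ / (1 + p.1 ^ 2)))) with hE
  have k3 : Le ∈ N' := by
    have := N'.mul_mem (N'.mul_mem k2 (N'.inv_mem h2)) hT
    have e : (T * Le)⁻¹ * L2 * L2⁻¹ * T = Le⁻¹ := by group
    rw [e] at this
    exact inv_mem_iff.1 this
  have k4 := N'.mul_mem k3 k1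
  have e : Le * ((X * Le)⁻¹ * E) = X⁻¹ * E := by group
  rw [e] at k4
  exact k4

end Pool.Agent.Work.MP_0f91f8_co.Cge
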