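import Pool.Agent.Work.MP_0f91f8_co.Cge.Stmts

/-!
The extension of a system on the positive integers to the rationals is a system.
-/

set_option linter.unusedSectionVars false

open Filter Topology

namespace Pool.Agent.Work.MP_0f91f8_co.Cge

universe u v

variable (K : Type v) (Γ : Type u) [CommGroup K] [TopologicalSpace K] [IsTopologicalGroup K]
  [CompactSpace K] [T2Space K] [Group Γ] [TopologicalSpace Γ] [IsTopologicalGroup Γ]
  [CompactSpace Γ] [T2Space Γ]

namespace I_RATK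

variable {K Γ}

lemma abs_mul_den (X : ℚ) : |X| * X.den = (X.num.natAbs : ℚ) := by
  have h1 : X * X.den = X.num := Rat.mul_den_eq_num X
  have h2 : |X * X.den| = |(X.num : ℚ)| := by rw [h1]
  rw [abs_mul, Nat.abs_cast] at h2
  rw [h2, Nat.cast_natAbs, Int.cast_abs]

lemma natAbs_num_pos {X : ℚ} (hX : X ≠ 0) : 0 < X.num.natAbs :=
  Int.natAbs_pos.2 (Rat.num_ne_zero.2 hX)

/-- multiplicativity of the extension -/
lemma ex_mul {f : ℕ → K} (hf : ∀ m n : ℕ, 0 < m → 0 < n → f (m * n) = f m * f n) {X : ℚ}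
    (hX : X ≠ 0) {m n : ℕ} (hm : 0 < m) (hn : 0 < n) (h : (m : ℚ) = |X| * n) :
    f m = ex f X * f n := by
  have hnum : 0 < X.num.natAbs := natAbs_num_pos hX
  have h2 : m * X.den = X.num.natAbs * n := by
    have h3 : (m : ℚ) * X.den = X.num.natAbs * n := by
      rw [h, ← abs_mul_den]
      ring
    exact_mod_cast h3
  have h3 : f m * f X.den = f X.num.natAbs * f n := by
    rw [← hf m X.den hm X.den_pos, h2, hf _ _ hnum hn]
  unfold ex
  calc f m = f m * f X.den * (f X.den)⁻¹ := by rw [mul_inv_cancel_right]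
    _ = f X.num.natAbs * f n * (f X.den)⁻¹ := by rw [h3]
    _ = f X.num.natAbs * (f X.den)⁻¹ * f n := by rw [mul_right_comm]

lemma ex_one (f : ℕ → K) : ex f 1 = 1 := by
  unfold ex
  simp

lemma ex_mul' {f : ℕ → K} (hf : ∀ m n : ℕ, 0 < m → 0 < n → f (m * n) = f m * f n) {a b : ℚ}
    (ha : a ≠ 0) (hb : b ≠ 0) : ex f (a * b) = ex f a * ex f b := by
  have hn : 0 < a.den * b.den := Nat.mul_pos a.den_pos b.den_pos
  have hm' : 0 < b.num.natAbs * a.den := Nat.mul_pos (natAbs_num_pos hb) a.den_pos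
  have hm : 0 < a.num.natAbs * b.num.natAbs := Nat.mul_pos (natAbs_num_pos ha) (natAbs_num_pos hb)
  have h1 : f (a.num.natAbs * b.num.natAbs) = ex f (a * b) * f (a.den * b.den) := by
    refine ex_mul hf (mul_ne_zero ha hb) hm hn ?_
    push_cast
    rw [abs_mul]
    have h1 := abs_mul_den a
    have h2 := abs_mul_den b
    rw [← h1, ← h2]
    ring
  have h2 : f (b.num.natAbs * a.den) = ex f b * f (a.den * b.den) := by
    refine ex_mul hf hb hm' hn ?_
    push_cast
    have h2 := abs_mul_den b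
    rw [← h2]
    ring
  have h3 : f (a.num.natAbs * b.num.natAbs) = ex f a * f (b.num.natAbs * a.den) := by
    refine ex_mul hf ha hm hm' ?_
    push_cast
    have h1 := abs_mul_den a
    rw [← h1]
    ring
  rw [h2, h1, ← mul_assoc] at h3
  exact mul_right_cancel h3

/-- the transition function -/
def T (f : ℕ → K) (τ : ℕ → K → Γ) (a b : ℕ) (y : K) : Γ :=
  τ a (y * (f b)⁻¹) * (τ b (y * (f b)⁻¹))⁻¹

lemma T_cont {f : ℕ → K} {φ : ℕ → Γ} {W : Set K} {τ : ℕ → K → Γ} (h : NSys f φ W τ) {a b : ℕ}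
    (ha : 0 < a) (hb : 0 < b) {y c : K} (hfa : f a = c * f b) (h1 : y ∈ W) (h2 : c * y ∈ W)
    (h3 : y * (f b)⁻¹ ∈ W) : ContinuousAt (T f τ a b) y := by
  have hO : ∀ k, IsOpen {x | x ∈ W ∧ f k * x ∈ W} := by
    intro k
    exact h.W_open.inter (h.W_open.preimage (continuous_const.mul continuous_id))
  have ha' : ContinuousAt (τ a) (y * (f b)⁻¹) := by
    refine (h.cont a ha).continuousAt ((hO a).mem_nhds ⟨h3, ?_⟩)
    have : f a * (y * (f b)⁻¹) = c * y := by
      rw [hfa, mul_comm y, mul_assoc, mul_inv_cancel_left]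
    show f a * (y * (f b)⁻¹) ∈ W
    rw [this]
    exact h2
  have hb' : ContinuousAt (τ b) (y * (f b)⁻¹) := by
    refine (h.cont b hb).continuousAt ((hO b).mem_nhds ⟨h3, ?_⟩)
    have : f b * (y * (f b)⁻¹) = y := by
      rw [mul_comm y, mul_inv_cancel_left]
    show f b * (y * (f b)⁻¹) ∈ W
    rw [this]
    exact h1
  have hc : ContinuousAt (fun y : K => y * (f b)⁻¹) y :=
    (continuous_id.mul continuous_const).continuousAt
  exact (ContinuousAt.comp (f := fun y : K => y * (f b)⁻¹) ha' hc).mul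
    (ContinuousAt.comp (f := fun y : K => y * (f b)⁻¹) hb' hc).inv

lemma key {f : ℕ → K} {φ : ℕ → Γ} {W : Set K} {τ : ℕ → K → Γ} (h : NSys f φ W τ) {A : Set ℕ}
    {p : Ultrafilter ℕ} (hp : PU f φ A p) {k : ℚ} (hk : k ≠ 0) {a b : ℕ}
    (ha : 0 < a) (hb : 0 < b) (hab : (a : ℚ) = |k| * b) {r : ℚ} (hr : r ≠ 0)
    (h1 : ex f r ∈ W) (h2 : ex f k * ex f r ∈ W) (h3 : ex f r * (f b)⁻¹ ∈ W) :
    ph p φ (k * r) * (ph p φ r)⁻¹ = T f τ a b (ex f r) := by
  have hfa : f a = ex f k * f b := ex_mul h.mul hk ha hb hab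
  have hbq : (b : ℚ) ≠ 0 := by exact_mod_cast hb.ne'
  have hrb : 0 < |r| / b := div_pos (abs_pos.2 hr) (by exact_mod_cast hb)
  unfold ph
  rw [← L_inv, ← L_mul]
  apply L_eq
  have hT := T_cont h ha hb hfa h1 h2 h3
  have ht1 : Tendsto (fun n => ex f r * f n) (p : Filter ℕ) (𝓝 (ex f r)) := by
    have := (tendsto_const_nhds (x := ex f r)).mul hp.f_lim
    rwa [mul_one] at this
  have ht2 : Tendsto (fun n => ex f k * (ex f r * f n)) (p : Filter ℕ)
      (𝓝 (ex f k * ex f r)) := tendsto_const_nhds.mul ht1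
  have ht3 : Tendsto (fun n => ex f r * f n * (f b)⁻¹) (p : Filter ℕ)
      (𝓝 (ex f r * (f b)⁻¹)) := ht1.mul tendsto_const_nhds
  have hTt : Tendsto (fun n => T f τ a b (ex f r * f n)) (p : Filter ℕ)
      (𝓝 (T f τ a b (ex f r))) := hT.tendsto.comp ht1
  refine hTt.congr' ?_
  filter_upwards [hp.int _ hrb, ht1 (h.W_open.mem_nhds h1), ht2 (h.W_open.mem_nhds h2),
    ht3 (h.W_open.mem_nhds h3)] with n hn hw1 hw2 hw3
  obtain ⟨m, hm, -, hmr⟩ := hn
  have hw1' : ex f r * f n ∈ W := hw1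
  have hw2' : ex f k * (ex f r * f n) ∈ W := hw2
  have hw3' : ex f r * f n * (f b)⁻¹ ∈ W := hw3
  have hn : 0 < n := by
    rcases Nat.eq_zero_or_pos n with rfl | hn
    · exfalso
      have h5 : (m : ℚ) = 0 := by rw [hmr]; simp
      have h6 : m = 0 := by exact_mod_cast h5
      omega
    · exact hn
  have hbm : ((b * m : ℕ) : ℚ) = |r| * n := by
    push_cast
    rw [hmr]
    field_simp
  have ham : ((a * m : ℕ) : ℚ) = |k * r| * n := by
    push_cast
    rw [hab, abs_mul, hmr]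
    field_simp
  have hfbm : f (b * m) = ex f r * f n := ex_mul h.mul hr (Nat.mul_pos hb hm) hn hbm
  have hfam : f (a * m) = ex f k * (ex f r * f n) := by
    rw [h.mul a m ha hm, hfa, mul_assoc, ← h.mul b m hb hm, hfbm]
  have hfm : f m = ex f r * f n * (f b)⁻¹ := by
    rw [← hfbm, h.mul b m hb hm, mul_comm (f b), mul_inv_cancel_right]
  have hfl1 : ⌊|k * r| * n⌋₊ = a * m := by
    rw [← ham]
    exact Nat.floor_natCast _
  have hfl2 : ⌊|r| * n⌋₊ = b * m := by
    rw [← hbm]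
    exact Nat.floor_natCast _
  rw [← hfm] at hw3'
  rw [← hfbm] at hw1'
  rw [← hfam] at hw2'
  have c1 := h.coc a m ha hm hw3' hw2'
  have c2 := h.coc b m hb hm hw3' hw1'
  rw [hfl1, hfl2, c1, c2]
  unfold T
  rw [← hfm]
  group

end I_RATK

theorem RATK_pf : RATK K Γ := by
  intro f φ W τ h A p hp
  have hone : ph p φ 1 = 1 := by
    unfold ph
    apply L_eq
    refine hp.φ_lim.congr fun n => ?_
    rw [abs_one, one_mul, Nat.floor_natCast]
  refine ⟨fun a b ha hb => I_RATK.ex_mul' h.mul ha hb, hone, ?_⟩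
  have hle : Tendsto (ex f) (sml (ex f)) (𝓝 1) :=
    tendsto_comap.mono_left inf_le_left
  have hne : ∀ᶠ q in sml (ex f), q ≠ 0 := by
    have h2 : {q : ℚ | q ≠ 0} ∈ 𝓟 {q : ℚ | q ≠ 0} := mem_principal_self _
    exact mem_of_superset (mem_inf_of_right h2) fun q hq => hq
  filter_upwards [hle (h.W_open.mem_nhds h.W_one), hne] with k hkW hk
  have hkW' : ex f k ∈ W := hkW
  -- choice of the denominator
  have hinv : Tendsto (fun n => (f n)⁻¹) (p : Filter ℕ) (𝓝 1) := by
    have := hp.f_lim.inv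
    rwa [inv_one] at this
  obtain ⟨b, ⟨a, ha, -, hab⟩, hbW⟩ :=
    ((hp.int |k| (abs_pos.2 hk)).and (hinv (h.W_open.mem_nhds h.W_one))).exists
  have hbW' : (f b)⁻¹ ∈ W := hbW
  have hb : 0 < b := by
    rcases Nat.eq_zero_or_pos b with rfl | hn
    · exfalso
      have h5 : (a : ℚ) = 0 := by rw [hab]; simp
      have h6 : a = 0 := by exact_mod_cast h5
      omega
    · exact hn
  have hfa : f a = ex f k * f b := I_RATK.ex_mul h.mul hk ha hb hab
  have hT1 : ph p φ k = I_RATK.T f τ a b 1 := by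
    have := I_RATK.key h hp hk ha hb hab (r := 1) one_ne_zero
      (by rw [I_RATK.ex_one]; exact h.W_one) (by rw [I_RATK.ex_one, mul_one]; exact hkW')
      (by rw [I_RATK.ex_one, one_mul]; exact hbW')
    rw [mul_one, hone, inv_one, mul_one, I_RATK.ex_one] at this
    exact this
  have hTc : ContinuousAt (I_RATK.T f τ a b) 1 :=
    I_RATK.T_cont h ha hb hfa h.W_one (by rw [mul_one]; exact hkW')
      (by rw [one_mul]; exact hbW')
  have hlim : Tendsto (fun r => (ph p φ k)⁻¹ * I_RATK.T f τ a b (ex f r)) (sml (ex f)) (𝓝 1) := by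
    have h1 : Tendsto (fun r => I_RATK.T f τ a b (ex f r)) (sml (ex f))
        (𝓝 (I_RATK.T f τ a b 1)) := hTc.tendsto.comp hle
    have h2 := (tendsto_const_nhds (x := (ph p φ k)⁻¹)).mul h1
    rwa [← hT1, inv_mul_cancel] at h2
  refine hlim.congr' ?_
  have hn2 : ∀ᶠ r in sml (ex f), ex f k * ex f r ∈ W := by
    have h1 : Tendsto (fun r => ex f k * ex f r) (sml (ex f)) (𝓝 (ex f k * 1)) :=
      tendsto_const_nhds.mul hle
    rw [mul_one] at h1
    exact h1 (h.W_open.mem_nhds hkW')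
  have hn3 : ∀ᶠ r in sml (ex f), ex f r * (f b)⁻¹ ∈ W := by
    have h1 : Tendsto (fun r => ex f r * (f b)⁻¹) (sml (ex f)) (𝓝 (1 * (f b)⁻¹)) :=
      hle.mul tendsto_const_nhds
    rw [one_mul] at h1
    exact h1 (h.W_open.mem_nhds hbW')
  filter_upwards [hle (h.W_open.mem_nhds h.W_one), hne, hn2, hn3] with r hr1 hr hr2 hr3
  rw [← I_RATK.key h hp hk ha hb hab hr hr1 hr2 hr3, mul_assoc]

end Pool.Agent.Work.MP_0f91f8_co.Cge
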