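import Pool.Agent.Work.MP_0f91f8_co.Cge.Stmts

/-!
Transfer of triples from the rationals to the positive integers.
-/

set_option linter.unusedSectionVars false

open Filter Topology

namespace Pool.Agent.Work.MP_0f91f8_co.Cge

universe u v

variable (K : Type v) (Γ : Type u) [CommGroup K] [TopologicalSpace K] [IsTopologicalGroup K]
  [CompactSpace K] [T2Space K] [Group Γ] [TopologicalSpace Γ] [IsTopologicalGroup Γ]
  [CompactSpace Γ] [T2Space Γ]

namespace I_RATT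

variable {K Γ}

/-- multiplicativity of the extension -/
lemma ex_mul {f : ℕ → K} (hf : ∀ m n : ℕ, 0 < m → 0 < n → f (m * n) = f m * f n) {X : ℚ}
    (hX : X ≠ 0) {m n : ℕ} (hm : 0 < m) (hn : 0 < n) (h : (m : ℚ) = |X| * n) :
    f m = ex f X * f n := by
  have hden : (X.den : ℚ) ≠ 0 := by exact_mod_cast X.den_ne_zero
  have hnum : 0 < X.num.natAbs := Int.natAbs_pos.2 (Rat.num_ne_zero.2 hX)
  have habs : |X| * X.den = X.num.natAbs := by
    have h1 : X * X.den = X.num := Rat.mul_den_eq_num X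
    have h2 : |X * X.den| = |(X.num : ℚ)| := by rw [h1]
    rw [abs_mul, Nat.abs_cast] at h2
    rw [h2, Nat.cast_natAbs, Int.cast_abs]
  have h2 : m * X.den = X.num.natAbs * n := by
    have h3 : (m : ℚ) * X.den = X.num.natAbs * n := by
      rw [h, ← habs]
      ring
    exact_mod_cast h3
  have h3 : f m * f X.den = f X.num.natAbs * f n := by
    rw [← hf m X.den hm X.den_pos, h2, hf _ _ hnum hn]
  unfold ex
  calc f m = f m * f X.den * (f X.den)⁻¹ := by rw [mul_inv_cancel_right]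
    _ = f X.num.natAbs * f n * (f X.den)⁻¹ := by rw [h3]
    _ = f X.num.natAbs * (f X.den)⁻¹ * f n := by rw [mul_right_comm]

/-- one coordinate -/
lemma coord {f : ℕ → K} {φ : ℕ → Γ} {A : Set ℕ} {p : Ultrafilter ℕ}
    (hf : ∀ m n : ℕ, 0 < m → 0 < n → f (m * n) = f m * f n) (hp : PU f φ A p) {U : Set K}
    {O : Set Γ} {X : ℚ} (hX : X ≠ 0) (hU : ex f X ∈ interior U) (hO : ph p φ X ∈ interior O) :
    ∀ᶠ n : ℕ in (p : Filter ℕ), ∃ m : ℕ, 0 < m ∧ m ∈ A ∧ (m : ℚ) = |X| * n ∧ f m ∈ U ∧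
      φ m ∈ O := by
  have h1 := hp.int |X| (abs_pos.2 hX)
  have h2 : Tendsto (fun n => ex f X * f n) (p : Filter ℕ) (𝓝 (ex f X)) := by
    have := (tendsto_const_nhds (x := ex f X)).mul hp.f_lim
    rwa [mul_one] at this
  have h3 : ∀ᶠ n : ℕ in (p : Filter ℕ), ex f X * f n ∈ interior U :=
    h2 (isOpen_interior.mem_nhds hU)
  have h4 : ∀ᶠ n : ℕ in (p : Filter ℕ), φ ⌊|X| * n⌋₊ ∈ interior O :=
    (tendsto_L p (fun n : ℕ => φ ⌊|X| * n⌋₊)) (isOpen_interior.mem_nhds hO)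
  filter_upwards [h1, h3, h4] with n hn1 hn3 hn4
  obtain ⟨m, hm, hmA, hmX⟩ := hn1
  have hn : 0 < n := by
    rcases Nat.eq_zero_or_pos n with rfl | hn
    · exfalso
      have h5 : (m : ℚ) = 0 := by rw [hmX]; simp
      have h6 : m = 0 := by exact_mod_cast h5
      omega
    · exact hn
  refine ⟨m, hm, hmA, hmX, ?_, ?_⟩
  · rw [ex_mul hf hX hm hn hmX]
    exact interior_subset hn3
  · have h5 : ⌊|X| * n⌋₊ = m := by
      rw [← hmX]
      exact Nat.floor_natCast m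
    rw [h5] at hn4
    exact interior_subset hn4

end I_RATT

theorem RATT_pf : RATT K Γ := by
  intro f φ W τ h A p hp U hU O hO
  refine ⟨{q : ℚ | q ≠ 0 ∧ ex f q ∈ interior U}, ?_, interior O, interior_mem_nhds.2 hO, ?_⟩
  · have h1 : ex f ⁻¹' (interior U) ∈ comap (ex f) (𝓝 (1 : K)) :=
      preimage_mem_comap (interior_mem_nhds.2 hU)
    have h2 : {q : ℚ | q ≠ 0} ∈ 𝓟 {q : ℚ | q ≠ 0} := mem_principal_self _
    have h3 := inter_mem_inf h1 h2
    refine mem_of_superset h3 ?_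
    rintro q ⟨hq1, hq2⟩
    exact ⟨hq2, hq1⟩
  · intro X Y Z hXYZ hX hY hZ hX' hY' hZ'
    obtain ⟨n, ⟨x, hx, hxA, hxX, hxU, hxO⟩, ⟨y, hy, hyA, hyY, hyU, hyO⟩,
      ⟨z, hz, hzA, hzZ, hzU, hzO⟩⟩ := ((I_RATT.coord h.mul hp hX.1 hX.2 hX').and
        ((I_RATT.coord h.mul hp hY.1 hY.2 hY').and
          (I_RATT.coord h.mul hp hZ.1 hZ.2 hZ'))).exists
    refine ⟨x, y, z, hx, hy, hz, ?_, hxA, hyA, hzA, hxU, hyU, hzU, hxO, hyO, hzO⟩
    have h1 : (x : ℚ) ^ 2 + (y : ℚ) ^ 2 = (z : ℚ) ^ 2 := by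
      rw [hxX, hyY, hzZ, mul_pow, mul_pow, mul_pow, sq_abs, sq_abs, sq_abs, ← add_mul, hXYZ]
    exact_mod_cast h1

end Pool.Agent.Work.MP_0f91f8_co.Cge
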