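import Pool.Agent.Work.MP_0f91f8_co.Cge.Stmts

/-!
Block [0f91f8 CGE], item STAT: static consequences of the independence of the linear factors.
-/

set_option linter.unusedSectionVars false

open Filter Topology

namespace Pool.Agent.Work.MP_0f91f8_co.Cge

universe u

variable (Γ : Type u) [Group Γ] [TopologicalSpace Γ] [IsTopologicalGroup Γ]
  [CompactSpace Γ] [T2Space Γ]

namespace I_STAT

variable {Γ} {𝓢 : Filter ℚ} {φ : ℚ → Γ} {N : Subgroup Γ}

/-- independence of a family with constant laws, for one coupling -/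
lemma ind_const {s : Ultrafilter ℚ} {u : Ultrafilter ℚ} {r : ℚ → ℚ}
    (h : Ind 𝓢 φ N s (fun _ => u) (fun _ w => r w)) (𝔮 : Ultrafilter (ℚ × ℚ))
    (h1 : 𝔮.map Prod.fst = u) (h2 : Tendsto (fun p : ℚ × ℚ => p.2) (𝔮 : Filter (ℚ × ℚ)) 𝓢) :
    (L 𝔮 (fun p => φ p.2))⁻¹ * L 𝔮 (fun p => φ (p.2 * r p.1)) *
      (L u (fun w => φ (r w)))⁻¹ ∈ N := by
  have h3 := h.2 (fun _ => 𝔮) (Eventually.of_forall fun _ => ⟨h1, h2⟩)
  simp only [LL_const] at h3
  exact h3

end I_STAT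

open I_STAT

/-- static consequences modulo `N` -/
theorem STAT_pf (hG : G0S Γ) (hI : INDG Γ) (hK : KIND Γ) (hL : LIN Γ) : STAT Γ := by
  intro 𝓢 φ N hgood hN s hs hne hKst
  have hsys : Sys 𝓢 φ := hgood.toSys
  refine ⟨?_, ?_⟩
  · intro 𝔮 hE h2 x
    have hind : Ind 𝓢 φ N s (fun _ => 𝔮.map Prod.fst) (fun _ w => 1 + x * w) :=
      hL 𝓢 φ N hgood hN s hs hne hKst (fun _ => 𝔮.map Prod.fst)
        (Eventually.of_forall fun _ => hE) (fun _ => x)
    have hA := ind_const hind 𝔮 rfl h2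
    obtain ⟨-, 𝔮₀, hq1, hq2, hq3⟩ := hE
    have hB := ind_const hind 𝔮₀ hq1 hq2
    have e1 : L 𝔮₀ (fun p => φ p.2) = 1 := by
      have h0 := hq3 0
      simp only [zero_mul, add_zero, mul_one] at h0
      exact L_eq h0
    have e2 : L 𝔮₀ (fun p => φ (p.2 * (1 + x * p.1))) = 1 := L_eq (hq3 x)
    rw [e1, e2, inv_one, one_mul, one_mul] at hB
    have hC := N.mul_mem hA (N.inv_mem hB)
    rwa [inv_inv, inv_mul_cancel_right] at hC
  · intro 𝔮 hU
    obtain ⟨hE, hnrm, h2⟩ := hU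
    set u := 𝔮.map Prod.fst with hu
    have hK1 : Ind 𝓢 φ N s (fun _ => u) (fun v w => aa (cc v) w) := by
      refine hK 𝓢 φ N hsys s hKst ℚ (fun _ => u) (fun _ w => w)
        (Eventually.of_forall fun _ => ?_)
      have e : u.map (fun w : ℚ => w) = u := Ultrafilter.map_id u
      rw [e]
      exact ⟨hE, hnrm⟩
    have hL1 : Ind 𝓢 φ N s (fun _ => u) (fun v w => 1 + (-cc v) * w) :=
      hL 𝓢 φ N hgood hN s hs hne hKst (fun _ => u)
        (Eventually.of_forall fun _ => hE) (fun v => -cc v)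
    have hL2 : Ind 𝓢 φ N s (fun _ => u) (fun v w => 1 + (cc v)⁻¹ * w) :=
      hL 𝓢 φ N hgood hN s hs hne hKst (fun _ => u)
        (Eventually.of_forall fun _ => hE) (fun v => (cc v)⁻¹)
    obtain ⟨-, hcongr, hmul, hinv⟩ := hI 𝓢 φ N hsys hN s ℚ (fun _ => u)
    have hind : Ind 𝓢 φ N s (fun _ => u) (fun _ w => 1 + w ^ 2) := by
      refine hcongr _ _ (hmul _ _ (hmul _ _ hL1 hL2) (hinv _ hK1)) ?_
      filter_upwards [hK1.1] with v hv
      filter_upwards [hsys.tendsto_ne hv] with w hw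
      have hq : (1 : ℚ) + w ^ 2 ≠ 0 := (one_add_sq_pos w).ne'
      have hnum : (1 - cc v * w) * (1 + w / cc v) ≠ 0 := by
        intro h0
        apply hw
        unfold aa
        rw [h0, zero_div]
      have e1 : (1 + -cc v * w) * (1 + (cc v)⁻¹ * w) = (1 - cc v * w) * (1 + w / cc v) := by
        rw [div_eq_inv_mul]
        ring
      rw [e1]
      unfold aa
      rw [inv_div, mul_div_assoc', mul_div_cancel_left₀ _ hnum]
    have hA := ind_const hind 𝔮 rfl h2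
    have eθ : L 𝔮 (fun p => φ (1 + p.1 ^ 2)) = L u (fun w => φ (1 + w ^ 2)) := by
      rw [hu, L_map]
    rw [eθ]
    obtain ⟨H, hH, -⟩ := hG 𝓢 φ hsys
    have hθ : L u (fun w => φ (1 + w ^ 2)) ∈ H := by
      rw [← SetLike.mem_coe, hH]
      exact mem_G0 hnrm
    have hθ' : (L u (fun w => φ (1 + w ^ 2)))⁻¹ ∈ G0 𝓢 φ := by
      rw [← hH]
      exact H.inv_mem hθ
    have hC := hN.nor _ hθ' _ hA
    have e3 : (L 𝔮 (fun p => φ p.2) * L u (fun w => φ (1 + w ^ 2)))⁻¹ *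
        L 𝔮 (fun p => φ (p.2 * (1 + p.1 ^ 2))) =
        (L u (fun w => φ (1 + w ^ 2)))⁻¹ * ((L 𝔮 (fun p => φ p.2))⁻¹ *
          L 𝔮 (fun p => φ (p.2 * (1 + p.1 ^ 2))) * (L u (fun w => φ (1 + w ^ 2)))⁻¹) *
          ((L u (fun w => φ (1 + w ^ 2)))⁻¹)⁻¹ := by
      group
    rw [e3]
    exact hC

end Pool.Agent.Work.MP_0f91f8_co.Cge
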