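import Pool.Agent.Work.MP_0f91f8_co.Cge.Stmts

/-!
Block [0f91f8 CGE], item THETA: the norm limit can be brought into the group.
-/

set_option linter.unusedSectionVars false

open Filter Topology

universe u

namespace Pool.Agent.Work.MP_0f91f8_co.Cge

section

variable (Γ : Type u) [Group Γ] [TopologicalSpace Γ] [IsTopologicalGroup Γ]
  [CompactSpace Γ] [T2Space Γ]

namespace I_THETA

variable {Γ}
variable {𝓢 : Filter ℚ} {φ : ℚ → Γ}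

/-- the limit of the norm -/
noncomputable def th (φ : ℚ → Γ) (𝔲 : Ultrafilter ℚ) : Γ := L 𝔲 (fun V => φ (1 + V ^ 2))

lemma continuous_th (φ : ℚ → Γ) : Continuous (th φ) := continuous_L _

/-- the limit of the norm divided by a square of a linear factor -/
lemma lam_mem {M : Subgroup Γ} (hS : Sys 𝓢 φ) (hM : Stat 𝓢 φ M) {𝔳 : Ultrafilter ℚ}
    (hE : E1 𝓢 φ 𝔳) (hN : Nrm 𝓢 𝔳) (V : ℚ) :
    (th φ 𝔳)⁻¹ * L 𝔳 (fun W => φ ((1 + W ^ 2) / (1 - V * W) ^ 2)) ∈ M := by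
  have hlin : Tendsto (fun W : ℚ => 1 - V * W) (𝔳 : Filter ℚ) 𝓢 := by
    refine (hE.1 (-V)).congr fun W => ?_
    ring
  have hne : ∀ᶠ W in (𝔳 : Filter ℚ), 1 - V * W ≠ 0 := hS.tendsto_ne hlin
  have hg1 : Tendsto (fun W : ℚ => (1 + W ^ 2) / (1 - V * W)) (𝔳 : Filter ℚ) 𝓢 :=
    hS.tendsto_div hN hlin
  have hg2 : Tendsto (fun W : ℚ => (1 + W ^ 2) / (1 - V * W) ^ 2) (𝔳 : Filter ℚ) 𝓢 := by
    refine (hS.tendsto_div hg1 hlin).congr fun W => ?_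
    rw [div_div, pow_two (1 - V * W)]
  have hmap : ∀ g : ℚ → ℚ, (𝔳.map (fun W => (W, g W))).map Prod.fst = 𝔳 := by
    intro g
    rw [Ultrafilter.map_map]
    exact Ultrafilter.map_id 𝔳
  have key : ∀ g : ℚ → ℚ, Tendsto g (𝔳 : Filter ℚ) 𝓢 →
      (L 𝔳 (fun W => φ (g W)))⁻¹ * L 𝔳 (fun W => φ (g W * (1 - V * W))) ∈ M := by
    intro g hg
    have h1 := hM.lin (𝔳.map (fun W => (W, g W))) (by rw [hmap]; exact hE)
      (by
        rw [Ultrafilter.coe_map, tendsto_map'_iff]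
        exact hg) (-V)
    rw [L_map, L_map] at h1
    convert h1 using 5
    ring
  have k1 := key _ hg2
  have k2 := key _ hg1
  have e1 : L 𝔳 (fun W => φ ((1 + W ^ 2) / (1 - V * W) ^ 2 * (1 - V * W))) =
      L 𝔳 (fun W => φ ((1 + W ^ 2) / (1 - V * W))) := by
    apply L_congr
    filter_upwards [hne] with W hW
    rw [pow_two (1 - V * W), ← div_div, div_mul_cancel₀ _ hW]
  have e2 : L 𝔳 (fun W => φ ((1 + W ^ 2) / (1 - V * W) * (1 - V * W))) = th φ 𝔳 := by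
    apply L_congr
    filter_upwards [hne] with W hW
    rw [div_mul_cancel₀ _ hW]
  rw [e1] at k1
  rw [e2] at k2
  have k3 := M.inv_mem (M.mul_mem k1 k2)
  convert k3 using 1
  group

/-- the norm limit of a composition -/
lemma th_bnd {M : Subgroup Γ} (hMc : IsClosed (M : Set Γ)) (hS : Sys 𝓢 φ) (hM : Stat 𝓢 φ M)
    {𝔲 𝔳 : Ultrafilter ℚ} (hu : Nrm 𝓢 𝔲) (hE : E1 𝓢 φ 𝔳) (hN : Nrm 𝓢 𝔳) :
    (th φ 𝔲 * th φ 𝔳)⁻¹ * th φ (bnd 𝔲 (fun _ => 𝔳)) ∈ M := by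
  have hlin : ∀ V : ℚ, Tendsto (fun W : ℚ => 1 - V * W) (𝔳 : Filter ℚ) 𝓢 := by
    intro V
    refine (hE.1 (-V)).congr fun W => ?_
    ring
  have hr : ∀ V : ℚ, Tendsto (fun W : ℚ => (1 + W ^ 2) / (1 - V * W) ^ 2) (𝔳 : Filter ℚ) 𝓢 := by
    intro V
    refine (hS.tendsto_div (hS.tendsto_div hN (hlin V)) (hlin V)).congr fun W => ?_
    rw [div_div, pow_two (1 - V * W)]
  have e1 : th φ (bnd 𝔲 (fun _ => 𝔳)) =
      L (sd 𝔲 (fun _ => 𝔳)) (fun p : ℚ × ℚ => φ ((1 + p.1 ^ 2) *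
        ((1 + p.2 ^ 2) / (1 - p.1 * p.2) ^ 2))) := by
    unfold th bnd
    rw [L_map]
    apply L_congr
    rw [eventually_sd]
    refine Eventually.of_forall fun V => ?_
    filter_upwards [hS.tendsto_ne (hlin V)] with W hW
    show φ (1 + op V W ^ 2) = _
    rw [norm_op hW]
    congr 1
    ring
  have e2 := hS.L_sd_mul (𝔳 := 𝔲) (𝔬 := fun _ => 𝔳) (k := fun V => 1 + V ^ 2)
    (r := fun V W => (1 + W ^ 2) / (1 - V * W) ^ 2) hu (Eventually.of_forall hr)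
  rw [e1, e2]
  have h3 : (th φ 𝔳)⁻¹ * LL 𝔲 (fun _ => 𝔳) (fun V W => φ ((1 + W ^ 2) / (1 - V * W) ^ 2)) ∈ M := by
    have hcl : IsClosed {γ : Γ | (th φ 𝔳)⁻¹ * γ ∈ M} :=
      hMc.preimage (continuous_const.mul continuous_id)
    exact L_mem hcl (Eventually.of_forall fun V => lam_mem hS hM hE hN V)
  convert h3 using 1
  unfold th
  group

end I_THETA

open I_THETA in
theorem THETA_pf (hG : G0S Γ) (hCSG : CSG Γ) : THETA Γ := by
  intro 𝓢 φ hgood κ hκ Y N M hY hMN hM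
  have hS : Sys 𝓢 φ := hgood.toSys
  obtain ⟨x1, hx1⟩ := hY.nonempty
  have hdat : ∀ x ∈ Y, E1 𝓢 φ x.1 ∧ Nrm 𝓢 x.1 := by
    intro x hx
    obtain ⟨𝔴, h𝔴, rfl⟩ := hY.sub hx
    exact ⟨h𝔴.1.e1, h𝔴.2.1⟩
  set 𝔳 : Ultrafilter ℚ := x1.1 with h𝔳
  obtain ⟨hE, hN⟩ := hdat x1 hx1
  rw [← h𝔳] at hE hN
  set F : ℚ → Ultrafilter (ℚ × ℚ) := fun _ => 𝔳.map (fun W => (W, (1 : ℚ))) with hF
  have hmap : (𝔳.map (fun W => (W, (1 : ℚ)))).map Prod.fst = 𝔳 := by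
    rw [Ultrafilter.map_map]
    exact Ultrafilter.map_id 𝔳
  have hFU : ∀ v, U' 𝓢 φ (F v) := by
    intro v
    refine ⟨?_, ?_, ?_⟩
    · show E1 𝓢 φ ((𝔳.map (fun W => (W, (1 : ℚ)))).map Prod.fst)
      rw [hmap]
      exact hE
    · show Nrm 𝓢 ((𝔳.map (fun W => (W, (1 : ℚ)))).map Prod.fst)
      rw [hmap]
      exact hN
    · show Tendsto (fun p : ℚ × ℚ => p.2) ((𝔳.map (fun W => (W, (1 : ℚ))) :
        Ultrafilter (ℚ × ℚ)) : Filter (ℚ × ℚ)) 𝓢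
      rw [Ultrafilter.coe_map, tendsto_map'_iff]
      exact hS.tendsto_one _
  have hMv : ∀ x : St Γ, (Mv φ F x).1 = bnd x.1 (fun _ => 𝔳) := by
    intro x
    show bnd x.1 (fun v => (F v).map Prod.fst) = _
    have : (fun v => (F v).map Prod.fst) = fun _ => 𝔳 := by
      funext v
      exact hmap
    rw [this]
  have hstep : ∀ x ∈ Y, ∃ m ∈ M, th φ (Mv φ F x).1 = th φ x.1 * th φ 𝔳 * m := by
    intro x hx
    refine ⟨_, th_bnd hMN.closed hS hM (hdat x hx).2 hE hN, ?_⟩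
    rw [hMv]
    group
  -- the group of limits
  obtain ⟨H, hH, -⟩ := hG 𝓢 φ hS
  have ht1 : th φ 𝔳 ∈ G0 𝓢 φ := mem_G0 hN
  have ht1' : (th φ 𝔳)⁻¹ ∈ G0 𝓢 φ := by
    rw [← hH] at ht1 ⊢
    exact H.inv_mem ht1
  -- induction
  have hind : ∀ j : ℕ, ∃ x ∈ Y, ∃ m ∈ M, th φ x.1 = th φ 𝔳 ^ (j + 1) * m := by
    intro j
    induction j with
    | zero => exact ⟨x1, hx1, 1, M.one_mem, by simp [h𝔳]⟩
    | succ j ih =>
      obtain ⟨x, hx, m, hm, he⟩ := ih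
      obtain ⟨m', hm', he'⟩ := hstep x hx
      have h1 := hMN.nor _ ht1' m hm
      refine ⟨Mv φ F x, hY.inv F hFU x hx, _, M.mul_mem h1 hm', ?_⟩
      rw [he', he, pow_succ _ (j + 1)]
      group
  -- the closed set
  have hcomp : IsCompact ((fun p : St Γ × Γ => th φ p.1.1 * p.2) '' (Y ×ˢ (M : Set Γ))) := by
    apply IsCompact.image
    · exact hY.closed.isCompact.prod hMN.closed.isCompact
    · exact ((continuous_th φ).comp (continuous_fst.comp continuous_fst)).mul continuous_snd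
  have hCcl := hcomp.isClosed
  have hsub : closure (Set.range fun j : ℕ => th φ 𝔳 ^ (j + 1)) ⊆
      (fun p : St Γ × Γ => th φ p.1.1 * p.2) '' (Y ×ˢ (M : Set Γ)) := by
    apply closure_minimal _ hCcl
    rintro _ ⟨j, rfl⟩
    obtain ⟨x, hx, m, hm, he⟩ := hind j
    refine ⟨(x, m⁻¹), ⟨hx, M.inv_mem hm⟩, ?_⟩
    show th φ x.1 * m⁻¹ = _
    rw [he]
    group
  have h1 := (hCSG (closure (Set.range fun j : ℕ => th φ 𝔳 ^ (j + 1))) isClosed_closure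
    ⟨_, subset_closure ⟨0, rfl⟩⟩ (by
      intro a ha b hb
      refine map_mem_closure₂ continuous_mul ha hb ?_
      rintro _ ⟨i, rfl⟩ _ ⟨j, rfl⟩
      refine ⟨i + 1 + j, ?_⟩
      show th φ 𝔳 ^ (i + 1 + j + 1) = th φ 𝔳 ^ (i + 1) * th φ 𝔳 ^ (j + 1)
      rw [← pow_add]
      rfl)).1
  obtain ⟨⟨x, m⟩, ⟨hx, hm⟩, he⟩ := hsub h1
  refine ⟨x, hx, ?_⟩
  have he' : th φ x.1 * m = 1 := he
  have : th φ x.1 = m⁻¹ := eq_inv_of_mul_eq_one_left he'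
  show th φ x.1 ∈ M
  rw [this]
  exact M.inv_mem hm

end

end Pool.Agent.Work.MP_0f91f8_co.Cge
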