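import Pool.Agent.Work.MP_0f91f8_co.Cge.Stmts

/-!
Item TOOL of block CGE: the functional equation that eliminates the norms.
-/

open Filter Topology

namespace Pool.Agent.Work.MP_0f91f8_co.Cge

universe u v

namespace I_TOOL

variable {R : Type u} {A : Type v} [CommRing R] [AddCommGroup A]

lemma unit_solve {s : R} (hs : IsUnit s) (a : R) : ∃ h : R, s * h = a := by
  obtain ⟨us, rfl⟩ := hs
  exact ⟨(↑us⁻¹ : R) * a, by rw [← mul_assoc, Units.mul_inv, one_mul]⟩

lemma step1 (D : R → A) (c c' : R)
    (E : ∀ l m : R, D (l - c * m) + D (l + c' * m) = D (l + c * m) + D (l - c' * m))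
    (l m h : R) :
    D (l - c * m - (c + c') * h) - D (l - c * m)
      = (D (l + c * m + (c - c') * h) - D (l + c * m))
        + (D (l - c' * m - 2 * c' * h) - D (l - c' * m)) := by
  have e1 := E (l - c' * h) (m + h)
  have e0 := E l m
  have a1 : l - c' * h - c * (m + h) = l - c * m - (c + c') * h := by ring
  have a2 : l - c' * h + c' * (m + h) = l + c' * m := by ring
  have a3 : l - c' * h + c * (m + h) = l + c * m + (c - c') * h := by ring
  have a4 : l - c' * h - c' * (m + h) = l - c' * m - 2 * c' * h := by ring
  rw [a1, a2, a3, a4] at e1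
  linear_combination (norm := module) e1 - e0

lemma step2 (D : R → A) (c c' : R)
    (E : ∀ l m : R, D (l - c * m) + D (l + c' * m) = D (l + c * m) + D (l - c' * m))
    (l m h k : R) :
    D (l - c * m - 2 * c * k - (c + c') * h) - D (l - c * m - 2 * c * k)
        - (D (l - c * m - (c + c') * h) - D (l - c * m))
      = D (l - c' * m - (c + c') * k - 2 * c' * h) - D (l - c' * m - (c + c') * k)
        - (D (l - c' * m - 2 * c' * h) - D (l - c' * m)) := by
  have e1 := step1 D c c' E (l - c * k) (m + k) h
  have e0 := step1 D c c' E l m h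
  have a1 : l - c * k - c * (m + k) = l - c * m - 2 * c * k := by ring
  have a2 : l - c * k + c * (m + k) = l + c * m := by ring
  have a3 : l - c * k - c' * (m + k) = l - c' * m - (c + c') * k := by ring
  rw [a1, a2, a3] at e1
  linear_combination (norm := module) e1 - e0

lemma step3 (D : R → A) (c c' : R)
    (E : ∀ l m : R, D (l - c * m) + D (l + c' * m) = D (l + c * m) + D (l - c' * m))
    (x h k j : R) :
    D (x + (c' - c) * j - 2 * c * k - (c + c') * h) - D (x + (c' - c) * j - 2 * c * k)
        - (D (x + (c' - c) * j - (c + c') * h) - D (x + (c' - c) * j))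
      = D (x - 2 * c * k - (c + c') * h) - D (x - 2 * c * k)
        - (D (x - (c + c') * h) - D x) := by
  have e1 := step2 D c c' E (x + c' * j) j h k
  have e0 := step2 D c c' E x 0 h k
  have a1 : x + c' * j - c * j = x + (c' - c) * j := by ring
  have a2 : x + c' * j - c' * j = x := by ring
  rw [a1, a2] at e1
  rw [mul_zero, mul_zero, sub_zero] at e0
  linear_combination (norm := module) e1 - e0

lemma third (D : R → A) (c c' : R) (hcc : c * c' = 1) (h2 : IsUnit (2 : R))
    (hs : IsUnit (c + c')) (hd : IsUnit (c - c'))
    (E : ∀ l m : R, D (l - c * m) + D (l + c' * m) = D (l + c * m) + D (l - c' * m))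
    (x a b d : R) :
    D (x + a + b + d) - D (x + a + b) - D (x + a + d) - D (x + b + d)
      + D (x + a) + D (x + b) + D (x + d) - D x = 0 := by
  have hc : IsUnit c := IsUnit.of_mul_eq_one _ hcc
  obtain ⟨h, hh⟩ := unit_solve hs (-a)
  obtain ⟨k, hk⟩ := unit_solve (h2.mul hc) (-b)
  obtain ⟨j, hj⟩ := unit_solve hd (-d)
  have e := step3 D c c' E x h k j
  have b1 : x + (c' - c) * j - 2 * c * k - (c + c') * h = x + a + b + d := by
    linear_combination -hh - hk - hj
  have b2 : x + (c' - c) * j - 2 * c * k = x + b + d := by
    linear_combination - hk - hj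
  have b3 : x + (c' - c) * j - (c + c') * h = x + a + d := by
    linear_combination - hh - hj
  have b4 : x + (c' - c) * j = x + d := by
    linear_combination - hj
  have b5 : x - 2 * c * k - (c + c') * h = x + a + b := by
    linear_combination -hh - hk
  have b6 : x - 2 * c * k = x + b := by
    linear_combination - hk
  have b7 : x - (c + c') * h = x + a := by
    linear_combination - hh
  rw [b1, b2, b3, b4, b5, b6, b7] at e
  linear_combination (norm := module) e

end I_TOOL

open I_TOOL in
theorem TOOL_pf : TOOL.{u, v} := by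
  intro R A _ _ D c c' hcc h2 hs hd E
  have T := third D c c' hcc h2 hs hd E
  obtain ⟨i2, hi2⟩ := unit_solve h2 (1 : R)
  -- the form B
  set B : R → R → A := fun h k => D (h + k) - D h - D k + D 0 with hB
  have Bsymm : ∀ h k, B h k = B k h := by
    intro h k
    simp only [hB]
    rw [add_comm h k]
    module
  have Badd : ∀ a b k, B (a + b) k = B a k + B b k := by
    intro a b k
    have t := T 0 a b k
    simp only [zero_add] at t
    simp only [hB]
    linear_combination (norm := module) t
  have B0 : ∀ k, B 0 k = 0 := by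
    intro k
    have t := Badd 0 0 k
    rw [zero_add] at t
    exact left_eq_add.1 t
  have Bneg : ∀ a k, B (-a) k = - B a k := by
    intro a k
    have t := Badd (-a) a k
    rw [neg_add_cancel, B0] at t
    exact eq_neg_of_add_eq_zero_left t.symm
  have Badd' : ∀ a b k, B k (a + b) = B k a + B k b := by
    intro a b k
    rw [Bsymm, Badd, Bsymm a, Bsymm b]
  have Bneg' : ∀ a k, B k (-a) = - B k a := by
    intro a k
    rw [Bsymm, Bneg, Bsymm a]
  have half : ∀ x, x = i2 * x + i2 * x := by
    intro x
    linear_combination (-x) * hi2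
  have Bh : ∀ x y, B x (i2 * y) = B (i2 * x) y := by
    intro x y
    have h1 : B x (i2 * y) = B (i2 * x) (i2 * y) + B (i2 * x) (i2 * y) := by
      rw [← Badd, ← half]
    have h2' : B (i2 * x) y = B (i2 * x) (i2 * y) + B (i2 * x) (i2 * y) := by
      rw [← Badd', ← half]
    rw [h1, h2']
  have B2 : ∀ x y, B (i2 * x) y + B (i2 * x) y = B x y := by
    intro x y
    rw [← Badd, ← half]
  set Q : R → A := fun x => B (i2 * x) x with hQ
  have Qadd : ∀ x y, Q (x + y) = Q x + Q y + B x y := by
    intro x y
    have h1 : Q (x + y) = B (i2 * x) x + B (i2 * y) x + (B (i2 * x) y + B (i2 * y) y) := by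
      simp only [hQ]
      rw [mul_add, Badd', Badd, Badd]
    have h3 : B (i2 * y) x = B (i2 * x) y := by
      rw [Bsymm, Bh]
    rw [h1, h3, ← B2 x y]
    simp only [hQ]
    module
  have Qneg : ∀ x, Q (-x) = Q x := by
    intro x
    simp only [hQ]
    rw [mul_neg, Bneg, Bneg', neg_neg]
  set al : R → A := fun x => D x - D 0 - Q x with hal
  have aladd : ∀ x y, al (x + y) = al x + al y := by
    intro x y
    simp only [hal]
    rw [Qadd]
    simp only [hB]
    module
  have al0 : al 0 = 0 := by
    have t := aladd 0 0
    rw [zero_add] at t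
    exact left_eq_add.1 t
  have alneg : ∀ x, al (-x) = - al x := by
    intro x
    have t := aladd (-x) x
    rw [neg_add_cancel, al0] at t
    exact eq_neg_of_add_eq_zero_left t.symm
  have Dal : ∀ x, D x = al x + D 0 + Q x := by
    intro x
    simp only [hal]
    module
  have key : ∀ l m, B l ((c' - c) * (m + m)) + al ((c' - c) * (m + m)) = 0 := by
    intro l m
    have e := E l m
    rw [Dal (l - c * m), Dal (l + c' * m), Dal (l + c * m), Dal (l - c' * m)] at e
    have q1 : Q (l - c * m) = Q l + Q (c * m) - B l (c * m) := by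
      rw [sub_eq_add_neg, Qadd, Qneg, Bneg']
      module
    have q2 : Q (l + c' * m) = Q l + Q (c' * m) + B l (c' * m) := Qadd _ _
    have q3 : Q (l + c * m) = Q l + Q (c * m) + B l (c * m) := Qadd _ _
    have q4 : Q (l - c' * m) = Q l + Q (c' * m) - B l (c' * m) := by
      rw [sub_eq_add_neg, Qadd, Qneg, Bneg']
      module
    have p1 : al (l - c * m) = al l - al (c * m) := by
      rw [sub_eq_add_neg, aladd, alneg]
      module
    have p2 : al (l + c' * m) = al l + al (c' * m) := aladd _ _
    have p3 : al (l + c * m) = al l + al (c * m) := aladd _ _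
    have p4 : al (l - c' * m) = al l - al (c' * m) := by
      rw [sub_eq_add_neg, aladd, alneg]
      module
    rw [q1, q2, q3, q4, p1, p2, p3, p4] at e
    have r1 : (c' - c) * (m + m) = (c' * m + c' * m) + -(c * m + c * m) := by ring
    rw [r1, Badd', Badd', Bneg', Badd', aladd, aladd, alneg, aladd]
    linear_combination (norm := module) e
  have hd' : IsUnit (2 * (c' - c)) := by
    have : c' - c = -(c - c') := by ring
    rw [this]
    exact h2.mul hd.neg
  have key' : ∀ l x, B l x + al x = 0 := by
    intro l x
    obtain ⟨m, hm⟩ := unit_solve hd' x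
    have := key l m
    have r : (c' - c) * (m + m) = x := by
      rw [← hm]
      ring
    rwa [r] at this
  have alz : ∀ x, al x = 0 := by
    intro x
    have := key' 0 x
    rwa [B0, zero_add] at this
  have Bz : ∀ l x, B l x = 0 := by
    intro l x
    have := key' l x
    rwa [alz, add_zero] at this
  intro x
  rw [Dal x, alz, hQ]
  simp only [Bz]
  module

end Pool.Agent.Work.MP_0f91f8_co.Cge
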