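import Pool.Agent.Work.MP_0f91f8_co.Cge.Stmts

/-! Block CGE (0f91f8), item TWISTK. -/

set_option linter.unusedSectionVars false

open Filter Topology

namespace Pool.Agent.Work.MP_0f91f8_co.Cge

universe u v

variable (K : Type v) (Γ : Type u) [CommGroup K] [TopologicalSpace K] [IsTopologicalGroup K]
  [CompactSpace K] [T2Space K] [Group Γ] [TopologicalSpace Γ] [IsTopologicalGroup Γ]
  [CompactSpace Γ] [T2Space Γ]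

theorem TWISTK_pf (hC : CFG K Γ) : TWISTK K Γ := by
  classical
  intro f φ hf κ hκ
  let ι : Type u := Finset ℚ × {s : Set ℚ // s ∈ sml f} × {O : Set Γ // O ∈ 𝓝 (1 : Γ)}
  let E : ι → Set (ℚ × ℚ) := fun i => {p | p.2 ∈ (i.2.1 : Set ℚ) ∧ φ p.2 ∈ (i.2.2 : Set Γ) ∧
    2 * p.1 / κ ∈ (i.2.1 : Set ℚ) ∧ φ (p.2 * (2 * p.1 / κ)) ∈ (i.2.2 : Set Γ) ∧
    ∀ x ∈ i.1, 1 + x * p.1 ∈ (i.2.1 : Set ℚ) ∧ φ (p.2 * (1 + x * p.1)) ∈ (i.2.2 : Set Γ)}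
  have hne : Nonempty ι := ⟨(∅, ⟨Set.univ, univ_mem⟩, ⟨Set.univ, univ_mem⟩)⟩
  have hdir : Directed (· ≥ ·) (fun i => 𝓟 (E i)) := by
    rintro ⟨X₁, ⟨s₁, hs₁⟩, ⟨O₁, hO₁⟩⟩ ⟨X₂, ⟨s₂, hs₂⟩, ⟨O₂, hO₂⟩⟩
    refine ⟨(X₁ ∪ X₂, ⟨s₁ ∩ s₂, inter_mem hs₁ hs₂⟩, ⟨O₁ ∩ O₂, inter_mem hO₁ hO₂⟩), ?_, ?_⟩
    · apply principal_mono.2
      rintro ⟨W, q⟩ ⟨h1, h2, h3, h4, h5⟩
      exact ⟨h1.1, h2.1, h3.1, h4.1, fun x hx =>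
        ⟨(h5 x (Finset.mem_union_left _ hx)).1.1, (h5 x (Finset.mem_union_left _ hx)).2.1⟩⟩
    · apply principal_mono.2
      rintro ⟨W, q⟩ ⟨h1, h2, h3, h4, h5⟩
      exact ⟨h1.2, h2.2, h3.2, h4.2, fun x hx =>
        ⟨(h5 x (Finset.mem_union_right _ hx)).1.2, (h5 x (Finset.mem_union_right _ hx)).2.2⟩⟩
  have hbot : NeBot (⨅ i, 𝓟 (E i)) := by
    apply iInf_neBot_of_directed' hdir
    rintro ⟨X, ⟨s, hs⟩, ⟨O, hO⟩⟩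
    rw [principal_neBot_iff]
    obtain ⟨W, q, h⟩ := hC f φ hf κ hκ X s hs O hO
    exact ⟨(W, q), h⟩
  obtain ⟨𝔮, h𝔮⟩ : ∃ 𝔮 : Ultrafilter (ℚ × ℚ), (𝔮 : Filter (ℚ × ℚ)) ≤ ⨅ i, 𝓟 (E i) :=
    ⟨Ultrafilter.of _, Ultrafilter.of_le _⟩
  have hev : ∀ (X : Finset ℚ) (s : Set ℚ) (hs : s ∈ sml f) (O : Set Γ) (hO : O ∈ 𝓝 (1 : Γ)),
      ∀ᶠ p : ℚ × ℚ in (𝔮 : Filter (ℚ × ℚ)), p ∈ E (X, ⟨s, hs⟩, ⟨O, hO⟩) := by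
    intro X s hs O hO
    have h1 : (𝔮 : Filter (ℚ × ℚ)) ≤ 𝓟 (E (X, ⟨s, hs⟩, ⟨O, hO⟩)) := h𝔮.trans (iInf_le _ _)
    exact le_principal_iff.1 h1
  have hlin : ∀ x : ℚ, Tendsto (fun p : ℚ × ℚ => 1 + x * p.1) (𝔮 : Filter (ℚ × ℚ)) (sml f) := by
    intro x s hs
    exact (hev {x} s hs Set.univ univ_mem).mono fun p hp =>
      (hp.2.2.2.2 x (Finset.mem_singleton_self x)).1
  have hkap : Tendsto (fun p : ℚ × ℚ => 2 * p.1 / κ) (𝔮 : Filter (ℚ × ℚ)) (sml f) := by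
    intro s hs
    exact (hev ∅ s hs Set.univ univ_mem).mono fun p hp => hp.2.2.1
  refine ⟨𝔮.map Prod.fst, ?_, ?_, 𝔮, rfl, ⟨?_, ?_⟩, ?_⟩
  · intro x
    rw [Ultrafilter.coe_map, tendsto_map'_iff]
    exact hlin x
  · rw [Ultrafilter.coe_map, tendsto_map'_iff]
    exact hkap
  · intro s hs
    exact (hev ∅ s hs Set.univ univ_mem).mono fun p hp => hp.1
  · intro x O hO
    exact (hev {x} Set.univ univ_mem O hO).mono fun p hp =>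
      (hp.2.2.2.2 x (Finset.mem_singleton_self x)).2
  · intro O hO
    exact (hev ∅ Set.univ univ_mem O hO).mono fun p hp => hp.2.2.2.1

end Pool.Agent.Work.MP_0f91f8_co.Cge
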