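import Pool.Agent.Work.MP_0f91f8_co.Cge.Stmts

/-!
X0INV: invariance of the set of states.
-/

set_option linter.unusedSectionVars false

open Filter Topology

namespace Pool.Agent.Work.MP_0f91f8_co.Cge

universe u

namespace I_X0INV

variable {Γ : Type u} [Group Γ] [TopologicalSpace Γ] [IsTopologicalGroup Γ]
  [CompactSpace Γ] [T2Space Γ] {𝓢 : Filter ℚ} {φ : ℚ → Γ}

/-- the composed law -/
noncomputable def cmpLaw (𝔴 : Ultrafilter (ℚ × ℚ)) (F : ℚ → Ultrafilter (ℚ × ℚ)) :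
    Ultrafilter (ℚ × ℚ) :=
  (sd 𝔴 (fun p => F p.1)).map (fun P : (ℚ × ℚ) × (ℚ × ℚ) => (op P.1.1 P.2.1, P.1.2 * P.2.2))

lemma cmpLaw_fst (𝔴 : Ultrafilter (ℚ × ℚ)) (F : ℚ → Ultrafilter (ℚ × ℚ)) :
    (cmpLaw 𝔴 F).map Prod.fst = bnd (𝔴.map Prod.fst) (fun v => (F v).map Prod.fst) := by
  apply Ultrafilter.coe_injective
  ext s
  exact Iff.rfl

lemma ne_of_lin (h : Sys 𝓢 φ) {𝔴 : Ultrafilter (ℚ × ℚ)} (hL : Lin 𝓢 (𝔴.map Prod.fst)) (x : ℚ) :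
    ∀ᶠ p in (𝔴 : Filter (ℚ × ℚ)), 1 + x * p.1 ≠ 0 := by
  have h1 : Tendsto (fun p : ℚ × ℚ => 1 + x * p.1) (𝔴 : Filter (ℚ × ℚ)) 𝓢 := by
    have := hL x
    rw [Ultrafilter.coe_map, tendsto_map'_iff] at this
    exact this
  exact h.tendsto_ne h1

lemma lin_map {𝔴 : Ultrafilter (ℚ × ℚ)} (hL : Lin 𝓢 (𝔴.map Prod.fst)) (x : ℚ) :
    Tendsto (fun p : ℚ × ℚ => 1 + x * p.1) (𝔴 : Filter (ℚ × ℚ)) 𝓢 := by
  have := hL x
  rw [Ultrafilter.coe_map, tendsto_map'_iff] at this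
  exact this

lemma nrm_map {𝔴 : Ultrafilter (ℚ × ℚ)} (hN : Nrm 𝓢 (𝔴.map Prod.fst)) :
    Tendsto (fun p : ℚ × ℚ => 1 + p.1 ^ 2) (𝔴 : Filter (ℚ × ℚ)) 𝓢 := by
  unfold Nrm at hN
  rw [Ultrafilter.coe_map, tendsto_map'_iff] at hN
  exact hN

end I_X0INV

open I_X0INV in
theorem X0INV_pf (Γ : Type u) [Group Γ] [TopologicalSpace Γ] [IsTopologicalGroup Γ]
    [CompactSpace Γ] [T2Space Γ] (hEK : EKBND Γ) (hN : NRMBND Γ) : X0INV Γ := by
  intro 𝓢 φ h κ hκ F hF x hx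
  obtain ⟨𝔴, hw, rfl⟩ := hx
  obtain ⟨hw1, hw2, hw3⟩ := hw
  have hLw : Lin 𝓢 (𝔴.map Prod.fst) := hw1.1
  refine ⟨cmpLaw 𝔴 F, ⟨?_, ?_, ?_⟩, ?_⟩
  · rw [cmpLaw_fst]
    exact hEK 𝓢 φ h κ hκ _ _ hw1 (Eventually.of_forall fun v => (hF v).1)
  · rw [cmpLaw_fst]
    refine hN 𝓢 φ h _ _ (Eventually.of_forall fun v => (hF v).1.1) ?_
    exact h.tendsto_sd (k := fun V : ℚ => 1 + V ^ 2) (r := fun _ W : ℚ => 1 + W ^ 2) hw2
      (Eventually.of_forall fun v => (hF v).2.1)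
  · unfold cmpLaw
    rw [Ultrafilter.coe_map, tendsto_map'_iff]
    exact h.tendsto_sd (k := fun p : ℚ × ℚ => p.2) (r := fun _ p : ℚ × ℚ => p.2) hw3
      (Eventually.of_forall fun v => (hF v.1).2.2)
  · refine Prod.ext (cmpLaw_fst 𝔴 F) (Prod.ext ?_ ?_)
    · show L (cmpLaw 𝔴 F) (fun p => φ p.2) =
        L 𝔴 (fun p => φ p.2) * LL (𝔴.map Prod.fst) F (fun _ p => φ p.2)
      unfold cmpLaw
      rw [L_map]
      have h1 := h.L_sd_mul (𝔳 := 𝔴) (𝔬 := fun p => F p.1) (k := fun p : ℚ × ℚ => p.2)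
        (r := fun _ p : ℚ × ℚ => p.2) hw3 (Eventually.of_forall fun v => (hF v.1).2.2)
      refine h1.trans ?_
      congr 1
      unfold LL
      rw [L_map]
    · show L (cmpLaw 𝔴 F) (fun p => φ (p.2 * aa 1 p.1)) =
        L 𝔴 (fun p => φ (p.2 * aa 1 p.1)) *
          LL (𝔴.map Prod.fst) F (fun v p => φ (p.2 * aa (cc v) p.1))
      unfold cmpLaw
      rw [L_map]
      have h0 : ∀ᶠ P in (sd 𝔴 (fun p => F p.1) : Filter ((ℚ × ℚ) × (ℚ × ℚ))),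
          φ ((P.1.2 * P.2.2) * aa 1 (op P.1.1 P.2.1)) =
            φ ((P.1.2 * aa 1 P.1.1) * (P.2.2 * aa (cc P.1.1) P.2.1)) := by
        rw [eventually_sd]
        filter_upwards [ne_of_lin h hLw (-1), ne_of_lin h hLw 1] with v hv1 hv2
        filter_upwards [ne_of_lin h (hF v.1).1.1 (-v.1)] with q hq
        have e1 : 1 - v.1 ≠ 0 := by
          have : (1 : ℚ) - v.1 = 1 + -1 * v.1 := by ring
          rw [this]; exact hv1
        have e2 : 1 + v.1 ≠ 0 := by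
          have : (1 : ℚ) + v.1 = 1 + 1 * v.1 := by ring
          rw [this]; exact hv2
        have e3 : 1 - v.1 * q.1 ≠ 0 := by
          have : (1 : ℚ) - v.1 * q.1 = 1 + -v.1 * q.1 := by ring
          rw [this]; exact hq
        congr 1
        rw [aa_op e1 e2 e3]
        ring
      rw [L_congr h0]
      have hk : Tendsto (fun p : ℚ × ℚ => p.2 * aa 1 p.1) (𝔴 : Filter (ℚ × ℚ)) 𝓢 :=
        h.tendsto_mul hw3 (tendsto_aa h (fun x => lin_map hLw x) (nrm_map hw2) 1)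
      have hr : ∀ᶠ v in (𝔴 : Filter (ℚ × ℚ)),
          Tendsto (fun q : ℚ × ℚ => q.2 * aa (cc v.1) q.1) (F v.1 : Filter (ℚ × ℚ)) 𝓢 :=
        Eventually.of_forall fun v =>
          h.tendsto_mul (hF v.1).2.2
            (tendsto_aa h (fun x => lin_map (hF v.1).1.1 x) (nrm_map (hF v.1).2.1) (cc v.1))
      have h1 := h.L_sd_mul (𝔳 := 𝔴) (𝔬 := fun p => F p.1)
        (k := fun p : ℚ × ℚ => p.2 * aa 1 p.1)
        (r := fun v q : ℚ × ℚ => q.2 * aa (cc v.1) q.1) hk hr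
      refine h1.trans ?_
      congr 1
      unfold LL
      rw [L_map]

end Pool.Agent.Work.MP_0f91f8_co.Cge
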