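import Pool.Agent.Work.MP_0f91f8_co.Cge.Stmts

/-! Block [0f91f8 CGE], item X0P: the set of states is closed and nonempty (helper50). -/

set_option linter.unusedSectionVars false

open Filter Topology

namespace Pool.Agent.Work.MP_0f91f8_co.Cge

universe u

variable (Γ : Type u) [Group Γ] [TopologicalSpace Γ] [IsTopologicalGroup Γ]
  [CompactSpace Γ] [T2Space Γ]

namespace I_X0P

variable {Γ}

lemma continuous_stt (φ : ℚ → Γ) : Continuous (stt φ) := by
  unfold stt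
  exact (continuous_map _).prodMk ((continuous_L _).prodMk (continuous_L _))

lemma X0_eq (𝓢 : Filter ℚ) (φ : ℚ → Γ) (κ : ℚ) :
    X0 𝓢 φ κ = stt φ '' {𝔴 : Ultrafilter (ℚ × ℚ) | UK 𝓢 φ κ 𝔴} := rfl

lemma map_pair (v : Ultrafilter ℚ) :
    (v.map (fun V : ℚ => (V, (1 : ℚ)))).map Prod.fst = v := by
  rw [Ultrafilter.map_map]
  exact Ultrafilter.map_id v

end I_X0P

open I_X0P in
theorem X0P_pf (hC : CLSE Γ) (hEK : EKBND Γ) (hN : NRMBND Γ) : X0P Γ := by
  intro 𝓢 φ hG κ hκ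
  constructor
  · rw [X0_eq]
    exact ((hC 𝓢 φ κ).2.2.isCompact.image (continuous_stt φ)).isClosed
  · obtain ⟨u, hu⟩ := hG.twist κ hκ
    obtain ⟨u', hu', hprod⟩ := hG.comp u hu.e1
    have h1 : EK 𝓢 φ κ (bnd u (fun _ => u')) :=
      hEK 𝓢 φ hG.toSys κ hκ u (fun _ => u') hu (Eventually.of_forall fun _ => hu')
    have h2 : Nrm 𝓢 (bnd u (fun _ => u')) :=
      hN 𝓢 φ hG.toSys u (fun _ => u') (Eventually.of_forall fun _ => hu'.1) hprod
    refine ⟨_, (bnd u (fun _ => u')).map (fun V : ℚ => (V, (1 : ℚ))), ?_, rfl⟩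
    refine ⟨?_, ?_, ?_⟩
    · rw [map_pair]
      exact h1
    · rw [map_pair]
      exact h2
    · rw [Ultrafilter.coe_map, tendsto_map'_iff]
      exact hG.toSys.tendsto_one _

end Pool.Agent.Work.MP_0f91f8_co.Cge
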