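import Pool.Agent.Work.MP_0f91f8_co.Cge.Stmts

set_option linter.unusedSectionVars false

open Filter Topology

universe u

namespace Pool.Agent.Work.MP_0f91f8_co.Cge

namespace I_YEX

section

variable {Γ : Type u} [Group Γ] [TopologicalSpace Γ] [IsTopologicalGroup Γ]
  [CompactSpace Γ] [T2Space Γ] {𝓢 : Filter ℚ} {φ : ℚ → Γ}

/-- the left action on the group components -/
@[reducible] def act (Γ : Type u) [Group Γ] : MulAction (Γ × Γ) (St Γ) where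
  smul h x := (x.1, (h.1 * x.2.1, h.2 * x.2.2))
  one_smul x := by
    show ((x.1, ((1 : Γ) * x.2.1, (1 : Γ) * x.2.2)) : St Γ) = x
    rw [one_mul, one_mul]
  mul_smul h k x := by
    show ((x.1, (h.1 * k.1 * x.2.1, h.2 * k.2 * x.2.2)) : St Γ) =
      (x.1, (h.1 * (k.1 * x.2.1), h.2 * (k.2 * x.2.2)))
    rw [mul_assoc, mul_assoc]

/-- the action as a function -/
def ac (h : Γ × Γ) (x : St Γ) : St Γ := (x.1, (h.1 * x.2.1, h.2 * x.2.2))

lemma ac_one (x : St Γ) : ac (1 : Γ × Γ) x = x := by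
  show ((x.1, ((1 : Γ) * x.2.1, (1 : Γ) * x.2.2)) : St Γ) = x
  rw [one_mul, one_mul]

lemma ac_mul (h k : Γ × Γ) (x : St Γ) : ac (h * k) x = ac h (ac k x) := by
  show ((x.1, (h.1 * k.1 * x.2.1, h.2 * k.2 * x.2.2)) : St Γ) =
      (x.1, (h.1 * (k.1 * x.2.1), h.2 * (k.2 * x.2.2)))
  rw [mul_assoc, mul_assoc]

/-- stabiliser of `Y` -/
def Fs (Y : Set (St Γ)) : Subgroup (Γ × Γ) where
  carrier := {h | ∀ y ∈ Y, ac h y ∈ Y ∧ ac h⁻¹ y ∈ Y}
  one_mem' := by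
    intro y hy
    rw [inv_one, ac_one]
    exact ⟨hy, hy⟩
  mul_mem' := by
    intro a b ha hb y hy
    refine ⟨?_, ?_⟩
    · rw [ac_mul]
      exact (ha _ (hb y hy).1).1
    · rw [mul_inv_rev, ac_mul]
      exact (hb _ (ha y hy).2).2
  inv_mem' := by
    intro a ha y hy
    refine ⟨(ha y hy).2, ?_⟩
    rw [inv_inv]
    exact (ha y hy).1

lemma mem_Fs {Y : Set (St Γ)} {h : Γ × Γ} :
    h ∈ Fs Y ↔ ∀ y ∈ Y, ac h y ∈ Y ∧ ac h⁻¹ y ∈ Y := Iff.rfl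

/-- the group of the second component -/
def Nn (Y : Set (St Γ)) : Subgroup Γ := (Fs Y).comap (MonoidHom.inr Γ Γ)

lemma mem_Nn {Y : Set (St Γ)} {n : Γ} : n ∈ Nn Y ↔ ((1 : Γ), n) ∈ Fs Y := Iff.rfl

lemma isClosed_Nn {Y : Set (St Γ)} (hY : IsClosed Y) : IsClosed (Nn Y : Set Γ) := by
  have h1 : (Nn Y : Set Γ) = ⋂ y ∈ Y, ({n | ac ((1 : Γ), n) y ∈ Y} ∩
      {n | ac ((1 : Γ), n)⁻¹ y ∈ Y}) := by
    ext n
    simp only [Set.mem_iInter, Set.mem_inter_iff, Set.mem_ofPred_eq]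
    exact Iff.rfl
  rw [h1]
  refine isClosed_biInter fun y _ => ?_
  refine IsClosed.inter (hY.preimage ?_) (hY.preimage ?_)
  · show Continuous (fun n : Γ => ((y.1, ((1 : Γ) * y.2.1, n * y.2.2)) : St Γ))
    fun_prop
  · show Continuous (fun n : Γ => ((y.1, ((1 : Γ)⁻¹ * y.2.1, n⁻¹ * y.2.2)) : St Γ))
    fun_prop

lemma fst_mem {κ : ℚ} {x : St Γ} (hx : x ∈ X0 𝓢 φ κ) : x.2.1 ∈ G0 𝓢 φ := by
  obtain ⟨w, hw, rfl⟩ := hx
  exact mem_G0 hw.2.2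

lemma snd_mem (hS : Sys 𝓢 φ) {κ : ℚ} {x : St Γ} (hx : x ∈ X0 𝓢 φ κ) : x.2.2 ∈ G0 𝓢 φ := by
  obtain ⟨w, hw, rfl⟩ := hx
  refine mem_G0 (r := fun p : ℚ × ℚ => p.2 * aa 1 p.1) (hS.tendsto_mul hw.2.2 ?_)
  refine tendsto_aa hS (W := fun p : ℚ × ℚ => p.1) ?_ ?_ 1
  · intro x
    have h1 := hw.1.1 x
    rw [Ultrafilter.coe_map, tendsto_map'_iff] at h1
    exact h1
  · have h1 : Tendsto (fun W : ℚ => 1 + W ^ 2) (w.map Prod.fst : Filter ℚ) 𝓢 := hw.2.1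
    rw [Ultrafilter.coe_map, tendsto_map'_iff] at h1
    exact h1

lemma bnd_pure (s : Ultrafilter ℚ) (m : ℚ → Ultrafilter ℚ) (hm : ∀ v, m v = pure 0) :
    bnd s m = s := by
  apply Ultrafilter.coe_injective
  ext t
  show (∀ᶠ v in (s : Filter ℚ), ∀ᶠ w in (m v : Filter ℚ), op v w ∈ t) ↔
    ∀ᶠ v in (s : Filter ℚ), v ∈ t
  have h1 : ∀ v, (∀ᶠ w in (m v : Filter ℚ), op v w ∈ t) ↔ v ∈ t := by
    intro v
    rw [hm v]
    show op v 0 ∈ t ↔ v ∈ t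
    rw [op_zero]
  simp only [h1]

lemma map_zero (o : Ultrafilter ℚ) (g : ℚ → ℚ) :
    (o.map (fun r => ((0 : ℚ), g r))).map Prod.fst = pure 0 := by
  apply Ultrafilter.coe_injective
  ext t
  show (∀ᶠ _ in (o : Filter ℚ), (0 : ℚ) ∈ t) ↔ (0 : ℚ) ∈ t
  exact ⟨fun h => h.exists.choose_spec, fun h => Eventually.of_forall fun _ => h⟩

lemma map_zero' (o : Ultrafilter (ℚ × ℚ)) (g : ℚ × ℚ → ℚ) :
    (o.map (fun r => ((0 : ℚ), g r))).map Prod.fst = pure 0 := by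
  apply Ultrafilter.coe_injective
  ext t
  show (∀ᶠ _ in (o : Filter (ℚ × ℚ)), (0 : ℚ) ∈ t) ↔ (0 : ℚ) ∈ t
  exact ⟨fun h => h.exists.choose_spec, fun h => Eventually.of_forall fun _ => h⟩

lemma map_map_fst (o : Ultrafilter (ℚ × ℚ)) (g : ℚ × ℚ → ℚ) :
    (o.map (fun r => (r.1, g r))).map Prod.fst = o.map Prod.fst := by
  apply Ultrafilter.coe_injective
  ext t
  exact Iff.rfl

lemma nrm_pure (hS : Sys 𝓢 φ) : Nrm 𝓢 (pure 0 : Ultrafilter ℚ) := by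
  intro t ht
  show (1 : ℚ) + 0 ^ 2 ∈ t
  have : (1 : ℚ) + 0 ^ 2 = 1 := by norm_num
  rw [this]
  exact hS.one t ht

lemma U'_zero (hS : Sys 𝓢 φ) (hE : E1 𝓢 φ (pure 0)) {w : Ultrafilter (ℚ × ℚ)}
    (hw : w.map Prod.fst = pure 0) (h2 : Tendsto (fun p : ℚ × ℚ => p.2) (w : Filter (ℚ × ℚ)) 𝓢) :
    U' 𝓢 φ w := by
  refine ⟨?_, ?_, h2⟩
  · rw [hw]
    exact hE
  · rw [hw]
    exact nrm_pure hS

end

end I_YEX

open I_YEX in
theorem YEX_pf (Γ : Type u) [Group Γ] [TopologicalSpace Γ] [IsTopologicalGroup Γ]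
    [CompactSpace Γ] [T2Space Γ] (hMIN : MIN.{u, u, 0}) (hG : G0S Γ) (hX : X0P Γ)
    (hXI : X0INV Γ) (hMV : MVC Γ) (hMOB : MOB Γ) : YEX Γ := by
  classical
  intro 𝓢 φ hgood κ hκ
  have hS : Sys 𝓢 φ := hgood.toSys
  obtain ⟨hE, -⟩ := hMOB 𝓢 φ hS
  obtain ⟨hXc, hXne⟩ := hX 𝓢 φ hgood κ hκ
  let _inst : MulAction (Γ × Γ) (St Γ) := act Γ
  obtain ⟨Y, hYX, hYc, hYne, hYinv, hYgrp⟩ := hMIN (St Γ) (Γ × Γ)
    {F : ℚ → Ultrafilter (ℚ × ℚ) // ∀ v, U' 𝓢 φ (F v)}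
    (fun h => by
      show Continuous (fun x : St Γ => ((x.1, (h.1 * x.2.1, h.2 * x.2.2)) : St Γ))
      fun_prop)
    (fun F x => Mv φ F.1 x) (fun F => hMV φ F.1)
    (fun F h x => by
      show Mv φ F.1 (ac h x) = ac h (Mv φ F.1 x)
      unfold Mv ac
      simp only [mul_assoc])
    (X0 𝓢 φ κ) hXc hXne (fun F x hx => hXI 𝓢 φ hS κ hκ F.1 F.2 x hx)
  have hFs : ∀ (h : Γ × Γ) (x : St Γ), x ∈ Y → ac h x ∈ Y → h ∈ Fs Y := fun h x hx hhx =>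
    fun y hy => hYgrp h x hx hhx y hy
  have hinv : ∀ F : ℚ → Ultrafilter (ℚ × ℚ), (∀ v, U' 𝓢 φ (F v)) → ∀ x ∈ Y, Mv φ F x ∈ Y :=
    fun F hF x hx => hYinv ⟨F, hF⟩ x hx
  obtain ⟨H, hH, -⟩ := hG 𝓢 φ hS
  have hmemH : ∀ γ, γ ∈ G0 𝓢 φ ↔ γ ∈ H := fun γ => by
    rw [← hH]
    exact Iff.rfl
  -- diagonal elements
  have hdiag : ∀ γ ∈ G0 𝓢 φ, ∀ x ∈ Y,
      (x.2.1 * γ * x.2.1⁻¹, x.2.2 * γ * x.2.2⁻¹) ∈ Fs Y := by
    rintro γ ⟨o, ho, rfl⟩ x hx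
    set F : ℚ → Ultrafilter (ℚ × ℚ) := fun _ => o.map (fun r => ((0 : ℚ), r)) with hF
    have hU : ∀ v, U' 𝓢 φ (F v) := fun v => by
      refine U'_zero hS hE (map_zero o (fun r => r)) ?_
      show Tendsto (fun p : ℚ × ℚ => p.2) (Filter.map (fun r => ((0 : ℚ), r)) (o : Filter ℚ)) 𝓢
      rw [tendsto_map'_iff]
      exact ho
    have h1 := hinv F hU x hx
    have h2 : Mv φ F x = (x.1, (x.2.1 * L o φ, x.2.2 * L o φ)) := by
      unfold Mv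
      have ha : bnd x.1 (fun v => (F v).map Prod.fst) = x.1 :=
        bnd_pure _ _ (fun v => map_zero o (fun r => r))
      have hb : LL x.1 F (fun _ p => φ p.2) = L o φ := by
        rw [hF, LL_map]
        exact LL_const _ _ _
      have hc : LL x.1 F (fun v p => φ (p.2 * aa (cc v) p.1)) = L o φ := by
        rw [hF, LL_map]
        simp only [aa_zero, mul_one]
        exact LL_const _ _ _
      rw [ha, hb, hc]
    rw [h2] at h1
    refine hFs _ x hx ?_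
    have h3 : ac (x.2.1 * L o φ * x.2.1⁻¹, x.2.2 * L o φ * x.2.2⁻¹) x =
        (x.1, (x.2.1 * L o φ, x.2.2 * L o φ)) := by
      unfold ac
      simp only [inv_mul_cancel_right]
    rw [h3]
    exact h1
  have hsnd : ∀ x ∈ Y, x.2.2 ∈ G0 𝓢 φ := fun x hx => snd_mem hS (hYX hx)
  -- normality
  have hnor : ∀ γ ∈ G0 𝓢 φ, ∀ n ∈ Nn Y, γ * n * γ⁻¹ ∈ Nn Y := by
    intro γ hγ n hn
    obtain ⟨x, hx⟩ := hYne
    have hz := hsnd x hx
    have h1 : x.2.2⁻¹ * γ * x.2.2 ∈ G0 𝓢 φ := by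
      rw [hmemH] at hγ hz ⊢
      exact H.mul_mem (H.mul_mem (H.inv_mem hz) hγ) hz
    have h2 := hdiag _ h1 x hx
    have h3 : x.2.2 * (x.2.2⁻¹ * γ * x.2.2) * x.2.2⁻¹ = γ := by group
    rw [h3] at h2
    rw [mem_Nn] at hn ⊢
    have h4 := (Fs Y).mul_mem ((Fs Y).mul_mem h2 hn) ((Fs Y).inv_mem h2)
    have h5 : (x.2.1 * (x.2.2⁻¹ * γ * x.2.2) * x.2.1⁻¹, γ) * ((1 : Γ), n) *
        (x.2.1 * (x.2.2⁻¹ * γ * x.2.2) * x.2.1⁻¹, γ)⁻¹ = ((1 : Γ), γ * n * γ⁻¹) := by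
      simp only [Prod.mk_mul_mk, Prod.inv_mk, mul_one, mul_inv_cancel]
    rw [h5] at h4
    exact h4
  refine ⟨Y, Nn Y, hYc, hYne, hYX, hinv, ⟨isClosed_Nn hYc, hnor⟩, ?_, ?_⟩
  · -- mulN
    intro x hx n hn
    have h1 := hnor _ (hsnd x hx) n hn
    rw [mem_Nn, mem_Fs] at h1
    have h2 := (h1 x hx).1
    have h3 : ac ((1 : Γ), x.2.2 * n * x.2.2⁻¹) x = (x.1, (x.2.1, x.2.2 * n)) := by
      unfold ac
      simp only [one_mul, inv_mul_cancel_right]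
    rw [h3] at h2
    exact h2
  · -- the comparison property
    intro x hx q hq
    set F : ℚ → Ultrafilter (ℚ × ℚ) := fun v => if U' 𝓢 φ (q v) then q v else pure (0, 1) with hF
    have hFq : ∀ᶠ v in (x.1 : Filter ℚ), F v = q v := by
      filter_upwards [hq] with v hv
      simp only [hF, if_pos hv]
    have hU : ∀ v, U' 𝓢 φ (F v) := by
      intro v
      by_cases hv : U' 𝓢 φ (q v)
      · simp only [hF, if_pos hv]
        exact hv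
      · simp only [hF, if_neg hv]
        refine U'_zero hS hE ?_ ?_
        · apply Ultrafilter.coe_injective
          ext t
          exact Iff.rfl
        · intro t ht
          exact hS.one t ht
    have hLL : ∀ k : ℚ → ℚ × ℚ → Γ, LL x.1 q k = LL x.1 F k := by
      intro k
      unfold LL
      apply L_congr
      filter_upwards [hFq] with v hv
      rw [hv]
    rw [hLL, hLL, hLL]
    set A := LL x.1 F (fun _ p => φ p.2) with hA
    set B := LL x.1 F (fun v p => φ (p.2 * aa (cc v) p.1)) with hB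
    set C := LL x.1 F (fun v p => φ (aa (cc v) p.1)) with hC
    -- the selection with small element one
    set F1 : ℚ → Ultrafilter (ℚ × ℚ) := fun v => (F v).map (fun p => (p.1, (1 : ℚ))) with hF1
    have hU1 : ∀ v, U' 𝓢 φ (F1 v) := by
      intro v
      have h1 : (F1 v).map Prod.fst = (F v).map Prod.fst := map_map_fst (F v) (fun _ => 1)
      refine ⟨?_, ?_, ?_⟩
      · rw [h1]
        exact (hU v).1
      · rw [h1]
        exact (hU v).2.1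
      · show Tendsto (fun p : ℚ × ℚ => p.2)
          (Filter.map (fun p : ℚ × ℚ => (p.1, (1 : ℚ))) (F v : Filter (ℚ × ℚ))) 𝓢
        rw [tendsto_map'_iff]
        exact hS.tendsto_one _
    set F2 : ℚ → Ultrafilter (ℚ × ℚ) := fun v => (F v).map (fun p => ((0 : ℚ), p.2)) with hF2
    have hU2 : ∀ v, U' 𝓢 φ (F2 v) := by
      intro v
      refine U'_zero hS hE (map_zero' (F v) (fun p => p.2)) ?_
      show Tendsto (fun p : ℚ × ℚ => p.2)
        (Filter.map (fun p : ℚ × ℚ => ((0 : ℚ), p.2)) (F v : Filter (ℚ × ℚ))) 𝓢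
      rw [tendsto_map'_iff]
      exact (hU v).2.2
    have hM : Mv φ F x ∈ Y := hinv F hU x hx
    have hM1 : Mv φ F1 x ∈ Y := hinv F1 hU1 x hx
    have hM2 : Mv φ F2 x ∈ Y := hinv F2 hU2 x hx
    have e1 : Mv φ F1 x = (bnd x.1 (fun v => (F v).map Prod.fst), (x.2.1, x.2.2 * C)) := by
      unfold Mv
      have ha : bnd x.1 (fun v => (F1 v).map Prod.fst) = bnd x.1 (fun v => (F v).map Prod.fst) :=
        rfl
      have hb : LL x.1 F1 (fun _ p => φ p.2) = 1 := by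
        rw [hF1, LL_map]
        simp only [hS.φ_one]
        unfold LL
        simp only [L_const]
      have hc : LL x.1 F1 (fun v p => φ (p.2 * aa (cc v) p.1)) = C := by
        rw [hF1, LL_map]
        simp only [one_mul]
        rfl
      rw [ha, hb, hc, mul_one]
    have e2 : Mv φ F2 x = (x.1, (x.2.1 * A, x.2.2 * A)) := by
      unfold Mv
      have ha : bnd x.1 (fun v => (F2 v).map Prod.fst) = x.1 :=
        bnd_pure _ _ (fun v => map_zero' (F v) (fun p => p.2))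
      have hb : LL x.1 F2 (fun _ p => φ p.2) = A := by
        rw [hF2, LL_map]
      have hc : LL x.1 F2 (fun v p => φ (p.2 * aa (cc v) p.1)) = A := by
        rw [hF2, LL_map]
        simp only [aa_zero, mul_one]
        rfl
      rw [ha, hb, hc]
    have f1 : (x.2.1 * A * x.2.1⁻¹, x.2.2 * (B * C⁻¹) * x.2.2⁻¹) ∈ Fs Y := by
      refine hFs _ _ hM1 ?_
      have h3 : ac (x.2.1 * A * x.2.1⁻¹, x.2.2 * (B * C⁻¹) * x.2.2⁻¹) (Mv φ F1 x) = Mv φ F x := by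
        rw [e1]
        unfold ac Mv
        refine Prod.ext rfl (Prod.ext ?_ ?_)
        · show x.2.1 * A * x.2.1⁻¹ * x.2.1 = x.2.1 * A
          group
        · show x.2.2 * (B * C⁻¹) * x.2.2⁻¹ * (x.2.2 * C) = x.2.2 * B
          group
      rw [h3]
      exact hM
    have f2 : (x.2.1 * A * x.2.1⁻¹, x.2.2 * A * x.2.2⁻¹) ∈ Fs Y := by
      refine hFs _ _ hx ?_
      have h3 : ac (x.2.1 * A * x.2.1⁻¹, x.2.2 * A * x.2.2⁻¹) x = Mv φ F2 x := by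
        rw [e2]
        unfold ac
        simp only [inv_mul_cancel_right]
      rw [h3]
      exact hM2
    have f3 := (Fs Y).mul_mem ((Fs Y).inv_mem f2) f1
    have f4 : (x.2.1 * A * x.2.1⁻¹, x.2.2 * A * x.2.2⁻¹)⁻¹ *
        (x.2.1 * A * x.2.1⁻¹, x.2.2 * (B * C⁻¹) * x.2.2⁻¹) =
        ((1 : Γ), x.2.2 * (A⁻¹ * B * C⁻¹) * x.2.2⁻¹) := by
      refine Prod.ext ?_ ?_
      · show (x.2.1 * A * x.2.1⁻¹)⁻¹ * (x.2.1 * A * x.2.1⁻¹) = 1
        group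
      · show (x.2.2 * A * x.2.2⁻¹)⁻¹ * (x.2.2 * (B * C⁻¹) * x.2.2⁻¹) =
          x.2.2 * (A⁻¹ * B * C⁻¹) * x.2.2⁻¹
        group
    rw [f4] at f3
    have hz : x.2.2⁻¹ ∈ G0 𝓢 φ := by
      have := hsnd x hx
      rw [hmemH] at this ⊢
      exact H.inv_mem this
    have f5 := hnor _ hz _ (mem_Nn.2 f3)
    have f6 : x.2.2⁻¹ * (x.2.2 * (A⁻¹ * B * C⁻¹) * x.2.2⁻¹) * x.2.2⁻¹⁻¹ = A⁻¹ * B * C⁻¹ := by
      group
    rw [f6] at f5
    exact f5

end Pool.Agent.Work.MP_0f91f8_co.Cge
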