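import Pool.Agent.Work.MP_0f91f8_co.Cge.Fin
import Pool.Agent.Work.MP_0f91f8_co.Cge.I_E1BND
import Pool.Agent.Work.MP_0f91f8_co.Cge.I_EKBND
import Pool.Agent.Work.MP_0f91f8_co.Cge.I_NRMBND
import Pool.Agent.Work.MP_0f91f8_co.Cge.I_MOB
import Pool.Agent.Work.MP_0f91f8_co.Cge.I_CLSE
import Pool.Agent.Work.MP_0f91f8_co.Cge.I_CSG
import Pool.Agent.Work.MP_0f91f8_co.Cge.I_MIN
import Pool.Agent.Work.MP_0f91f8_co.Cge.I_MVC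
import Pool.Agent.Work.MP_0f91f8_co.Cge.I_G0S
import Pool.Agent.Work.MP_0f91f8_co.Cge.I_X0P
import Pool.Agent.Work.MP_0f91f8_co.Cge.I_X0INV
import Pool.Agent.Work.MP_0f91f8_co.Cge.I_YEX
import Pool.Agent.Work.MP_0f91f8_co.Cge.I_INDG
import Pool.Agent.Work.MP_0f91f8_co.Cge.I_KIND
import Pool.Agent.Work.MP_0f91f8_co.Cge.I_CLO
import Pool.Agent.Work.MP_0f91f8_co.Cge.I_TOOL
import Pool.Agent.Work.MP_0f91f8_co.Cge.I_LIN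
import Pool.Agent.Work.MP_0f91f8_co.Cge.I_STAT
import Pool.Agent.Work.MP_0f91f8_co.Cge.I_KYEX
import Pool.Agent.Work.MP_0f91f8_co.Cge.I_KPART
import Pool.Agent.Work.MP_0f91f8_co.Cge.I_THETA
import Pool.Agent.Work.MP_0f91f8_co.Cge.I_PT
import Pool.Agent.Work.MP_0f91f8_co.Cge.I_FIN
import Pool.Agent.Work.MP_0f91f8_co.Cge.I_KSS
import Pool.Agent.Work.MP_0f91f8_co.Cge.I_COMPK
import Pool.Agent.Work.MP_0f91f8_co.Cge.I_SYNDQ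
import Pool.Agent.Work.MP_0f91f8_co.Cge.I_BRAUER
import Pool.Agent.Work.MP_0f91f8_co.Cge.I_CFG
import Pool.Agent.Work.MP_0f91f8_co.Cge.I_TWISTK
import Pool.Agent.Work.MP_0f91f8_co.Cge.I_PEX
import Pool.Agent.Work.MP_0f91f8_co.Cge.I_RATK
import Pool.Agent.Work.MP_0f91f8_co.Cge.I_RATT

/-!
Assembly of the block.
-/

open Filter Topology

namespace Pool.Agent.Work.MP_0f91f8_co.Cge

universe u v

theorem fin_all (Γ : Type u) [Group Γ] [TopologicalSpace Γ] [IsTopologicalGroup Γ]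
    [CompactSpace Γ] [T2Space Γ] : FIN Γ := by
  have hCSG : CSG Γ := CSG_pf Γ
  have hG : G0S Γ := G0S_pf Γ hCSG
  have hE1 : E1BND Γ := E1BND_pf Γ
  have hEK : EKBND Γ := EKBND_pf Γ
  have hN : NRMBND Γ := NRMBND_pf Γ
  have hM : MOB Γ := MOB_pf Γ
  have hC : CLSE Γ := CLSE_pf Γ
  have hX : X0P Γ := X0P_pf Γ hC hEK hN
  have hXI : X0INV Γ := X0INV_pf Γ hEK hN
  have hMV : MVC Γ := MVC_pf Γ
  have hY : YEX Γ := YEX_pf Γ MIN_pf hG hX hXI hMV hM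
  have hI : INDG Γ := INDG_pf Γ hG
  have hK : KIND Γ := KIND_pf Γ
  have hCLO : CLO Γ := CLO_pf Γ hE1 hN hM hI hK
  have hL : LIN Γ := LIN_pf Γ hCLO TOOL_pf hI
  have hS : STAT Γ := STAT_pf Γ hG hI hK hL
  have hTh : THETA Γ := THETA_pf Γ hG hCSG
  have hPT : PT Γ := PT_pf Γ hG hY hS hTh
  have hKY : KYEX Γ := KYEX_pf Γ MIN_pf hG
  have hKP : KPART Γ := KPART_pf Γ hKY hG hCSG
  exact FIN_pf Γ hG hKP hPT

theorem main_all {K : Type v} {Γ : Type u} [CommGroup K] [TopologicalSpace K]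
    [IsTopologicalGroup K] [CompactSpace K] [T2Space K] [Group Γ] [TopologicalSpace Γ]
    [IsTopologicalGroup Γ] [CompactSpace Γ] [T2Space Γ]
    (f : ℕ → K) (hf : ∀ m n : ℕ, 0 < m → 0 < n → f (m * n) = f m * f n)
    (n₀ : ℕ) (hn₀ : 0 < n₀) (W : Set K) (hW : W ∈ 𝓝 (f n₀)) (φ : ℕ → Γ)
    (hφ : ∀ k : ℕ, 0 < k → ∃ τ : K → Γ, ContinuousOn τ {x | x ∈ W ∧ f k * x ∈ W} ∧
      ∀ n : ℕ, 0 < n → f n ∈ W → f (k * n) ∈ W → φ (k * n) = τ (f n) * φ n)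
    (U : Set (K × Γ)) (hU : U ∈ 𝓝 (f n₀, φ n₀)) (A : Set ℕ)
    (hA : ∀ X : Finset ℕ, (∀ x ∈ X, 0 < x) → ∃ k : ℕ, 0 < k ∧ ∀ x ∈ X, x * k ∈ A) :
    ∃ x y z : ℕ, 0 < x ∧ 0 < y ∧ 0 < z ∧ x ^ 2 + y ^ 2 = z ^ 2 ∧ x ∈ A ∧ y ∈ A ∧ z ∈ A ∧
      (f x, φ x) ∈ U ∧ (f y, φ y) ∈ U ∧ (f z, φ z) ∈ U := by
  have hKSS : KSS K Γ := KSS_pf K Γ
  have hCOMP : COMPK K Γ := COMPK_pf K Γ hKSS (CSG_pf K) (E1BND_pf Γ) (CLSE_pf Γ) (MOB_pf Γ)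
  have hSY : SYNDQ K Γ := SYNDQ_pf K Γ hKSS
  have hCFG : CFG K Γ := CFG_pf K Γ hSY BRAUER_pf
  have hTW : TWISTK K Γ := TWISTK_pf K Γ hCFG
  exact main (fin_all Γ) hKSS hCOMP hTW (PEX_pf K Γ) (RATK_pf K Γ) (RATT_pf K Γ) f hf n₀ hn₀ W
    hW φ hφ U hU A hA

end Pool.Agent.Work.MP_0f91f8_co.Cge
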