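import Mathlib

/-!
Limits along ultrafilters and the calculus of small elements.
-/

set_option linter.unusedSectionVars false
set_option linter.deprecated false

open Filter Topology

namespace Pool.Agent.Work.MP_0f91f8_co.Cge

/-! ### Limits along ultrafilters -/

section Lim

variable {Ω Ω' Ω'' : Type*} {Y Z : Type*} [TopologicalSpace Y] [CompactSpace Y] [T2Space Y]
  [TopologicalSpace Z] [CompactSpace Z] [T2Space Z]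

/-- the limit along an ultrafilter -/
noncomputable def L (𝔬 : Ultrafilter Ω) (h : Ω → Y) : Y := Ultrafilter.extend h 𝔬

lemma tendsto_L (𝔬 : Ultrafilter Ω) (h : Ω → Y) : Tendsto h (𝔬 : Filter Ω) (𝓝 (L 𝔬 h)) :=
  ultrafilter_extend_eq_iff.1 (rfl : Ultrafilter.extend h 𝔬 = L 𝔬 h)

lemma L_eq {𝔬 : Ultrafilter Ω} {h : Ω → Y} {y : Y} (H : Tendsto h (𝔬 : Filter Ω) (𝓝 y)) :
    L 𝔬 h = y :=
  ultrafilter_extend_eq_iff.2 H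

lemma L_eq_iff {𝔬 : Ultrafilter Ω} {h : Ω → Y} {y : Y} :
    L 𝔬 h = y ↔ Tendsto h (𝔬 : Filter Ω) (𝓝 y) :=
  ultrafilter_extend_eq_iff

lemma continuous_L (h : Ω → Y) : Continuous (fun 𝔬 : Ultrafilter Ω => L 𝔬 h) :=
  continuous_ultrafilter_extend h

lemma L_congr {𝔬 : Ultrafilter Ω} {h h' : Ω → Y} (H : ∀ᶠ ω in (𝔬 : Filter Ω), h ω = h' ω) :
    L 𝔬 h = L 𝔬 h' :=
  L_eq ((tendsto_L 𝔬 h').congr' (H.mono fun _ e => e.symm))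

lemma L_const (𝔬 : Ultrafilter Ω) (y : Y) : L 𝔬 (fun _ => y) = y := L_eq tendsto_const_nhds

lemma L_pure (ω : Ω) (h : Ω → Y) : L (pure ω) h = h ω := ultrafilter_extend_pure h ω

lemma L_map (𝔬 : Ultrafilter Ω) (g : Ω → Ω') (h : Ω' → Y) :
    L (𝔬.map g) h = L 𝔬 (fun ω => h (g ω)) := by
  apply L_eq
  rw [Ultrafilter.coe_map, tendsto_map'_iff]
  exact tendsto_L 𝔬 (h ∘ g)

lemma L_comp {g : Y → Z} (hg : Continuous g) (𝔬 : Ultrafilter Ω) (h : Ω → Y) :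
    L 𝔬 (fun ω => g (h ω)) = g (L 𝔬 h) :=
  L_eq ((hg.tendsto _).comp (tendsto_L 𝔬 h))

lemma L_mem {s : Set Y} (hs : IsClosed s) {𝔬 : Ultrafilter Ω} {h : Ω → Y}
    (H : ∀ᶠ ω in (𝔬 : Filter Ω), h ω ∈ s) : L 𝔬 h ∈ s :=
  hs.mem_of_tendsto (tendsto_L 𝔬 h) H

/-- limit of a family of limits -/
noncomputable def LL (𝔳 : Ultrafilter Ω) (𝔬 : Ω → Ultrafilter Ω') (h : Ω → Ω' → Y) : Y :=
  L 𝔳 (fun v => L (𝔬 v) (h v))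

/-- the law of a pair chosen one after the other -/
noncomputable def sd (𝔳 : Ultrafilter Ω) (𝔬 : Ω → Ultrafilter Ω') : Ultrafilter (Ω × Ω') :=
  𝔳.bind (fun v => (𝔬 v).map (Prod.mk v))

lemma eventually_bind (𝔳 : Ultrafilter Ω) (𝔬 : Ω → Ultrafilter Ω') (p : Ω' → Prop) :
    (∀ᶠ ω in (𝔳.bind 𝔬 : Filter Ω'), p ω) ↔
      ∀ᶠ v in (𝔳 : Filter Ω), ∀ᶠ ω in (𝔬 v : Filter Ω'), p ω := Iff.rfl

lemma eventually_sd (𝔳 : Ultrafilter Ω) (𝔬 : Ω → Ultrafilter Ω') (p : Ω × Ω' → Prop) :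
    (∀ᶠ ω in (sd 𝔳 𝔬 : Filter (Ω × Ω')), p ω) ↔
      ∀ᶠ v in (𝔳 : Filter Ω), ∀ᶠ ω in (𝔬 v : Filter Ω'), p (v, ω) := Iff.rfl

lemma L_bind (𝔳 : Ultrafilter Ω) (𝔬 : Ω → Ultrafilter Ω') (h : Ω' → Y) :
    L (𝔳.bind 𝔬) h = LL 𝔳 𝔬 (fun _ => h) := by
  set y := LL 𝔳 𝔬 (fun _ => h) with hy
  apply L_eq
  intro s hs
  obtain ⟨t, ht, htc, hts⟩ := exists_mem_nhds_isClosed_subset hs
  obtain ⟨u, hut, huo, hyu⟩ := mem_nhds_iff.1 ht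
  have h1 : ∀ᶠ v in (𝔳 : Filter Ω), L (𝔬 v) h ∈ u :=
    (tendsto_L 𝔳 (fun v => L (𝔬 v) h)) (huo.mem_nhds hyu)
  show ∀ᶠ ω in (𝔳.bind 𝔬 : Filter Ω'), h ω ∈ s
  rw [eventually_bind]
  filter_upwards [h1] with v hv
  exact (tendsto_L (𝔬 v) h) (mem_of_superset (huo.mem_nhds hv) (hut.trans hts))

lemma L_sd (𝔳 : Ultrafilter Ω) (𝔬 : Ω → Ultrafilter Ω') (h : Ω × Ω' → Y) :
    L (sd 𝔳 𝔬) h = LL 𝔳 𝔬 (fun v ω => h (v, ω)) := by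
  rw [sd, L_bind]
  unfold LL
  congr 1
  funext v
  rw [L_map]

lemma LL_congr {𝔳 : Ultrafilter Ω} {𝔬 : Ω → Ultrafilter Ω'} {h h' : Ω → Ω' → Y}
    (H : ∀ᶠ v in (𝔳 : Filter Ω), ∀ᶠ ω in (𝔬 v : Filter Ω'), h v ω = h' v ω) :
    LL 𝔳 𝔬 h = LL 𝔳 𝔬 h' :=
  L_congr (H.mono fun _ hv => L_congr hv)

lemma LL_fst (𝔳 : Ultrafilter Ω) (𝔬 : Ω → Ultrafilter Ω') (h : Ω → Y) :
    LL 𝔳 𝔬 (fun v _ => h v) = L 𝔳 h := by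
  unfold LL
  simp only [L_const]

lemma LL_const (𝔳 : Ultrafilter Ω) (𝔬 : Ultrafilter Ω') (h : Ω' → Y) :
    LL 𝔳 (fun _ => 𝔬) (fun _ => h) = L 𝔬 h := by
  unfold LL
  rw [L_const]

lemma LL_map (𝔳 : Ultrafilter Ω) (𝔬 : Ω → Ultrafilter Ω') (g : Ω → Ω' → Ω'') (h : Ω → Ω'' → Y) :
    LL 𝔳 (fun v => (𝔬 v).map (g v)) h = LL 𝔳 𝔬 (fun v ω => h v (g v ω)) := by
  unfold LL
  congr 1
  funext v
  rw [L_map]

lemma map_fst_sd (𝔳 : Ultrafilter Ω) (𝔬 : Ω → Ultrafilter Ω') :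
    (sd 𝔳 𝔬).map Prod.fst = 𝔳 := by
  apply Ultrafilter.coe_injective
  ext s
  show (∀ᶠ p in (sd 𝔳 𝔬 : Filter (Ω × Ω')), p.1 ∈ s) ↔ ∀ᶠ v in (𝔳 : Filter Ω), v ∈ s
  rw [eventually_sd]
  constructor
  · intro h
    filter_upwards [h] with v hv
    exact hv.exists.choose_spec
  · intro h
    filter_upwards [h] with v hv
    exact Eventually.of_forall fun _ => hv

lemma map_snd_sd (𝔳 : Ultrafilter Ω) (𝔬 : Ω → Ultrafilter Ω') :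
    (sd 𝔳 𝔬).map Prod.snd = 𝔳.bind 𝔬 := rfl

lemma sd_const_map_snd (𝔳 : Ultrafilter Ω) (𝔬 : Ultrafilter Ω') :
    (sd 𝔳 (fun _ => 𝔬)).map Prod.snd = 𝔬 := by
  apply Ultrafilter.coe_injective
  ext s
  show (∀ᶠ p in (sd 𝔳 (fun _ => 𝔬) : Filter (Ω × Ω')), p.2 ∈ s) ↔ ∀ᶠ v in (𝔬 : Filter Ω'), v ∈ s
  rw [eventually_sd]
  exact ⟨fun h => h.exists.choose_spec, fun h => Eventually.of_forall fun _ => h⟩

lemma continuous_bind (m : Ω → Ultrafilter Ω') :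
    Continuous (fun 𝔬 : Ultrafilter Ω => 𝔬.bind m) := by
  refine ultrafilterBasis_is_basis.continuous_iff.2 ?_
  rintro _ ⟨s, rfl⟩
  have : (fun 𝔬 : Ultrafilter Ω => 𝔬.bind m) ⁻¹' {u | s ∈ u} =
      {𝔬 : Ultrafilter Ω | {ω | s ∈ m ω} ∈ 𝔬} := rfl
  rw [this]
  exact ultrafilter_isOpen_basic _

lemma continuous_map (g : Ω → Ω') : Continuous (fun 𝔬 : Ultrafilter Ω => 𝔬.map g) := by
  refine ultrafilterBasis_is_basis.continuous_iff.2 ?_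
  rintro _ ⟨s, rfl⟩
  exact ultrafilter_isOpen_basic _

lemma isClosed_tendsto (r : Ω → Ω') (l : Filter Ω') :
    IsClosed {𝔬 : Ultrafilter Ω | Tendsto r (𝔬 : Filter Ω) l} := by
  have : {𝔬 : Ultrafilter Ω | Tendsto r (𝔬 : Filter Ω) l} =
      ⋂ s ∈ l, {𝔬 : Ultrafilter Ω | r ⁻¹' s ∈ 𝔬} := by
    ext 𝔬
    simp only [Set.mem_setOf_eq, Set.mem_iInter]
    exact Iff.rfl
  rw [this]
  exact isClosed_biInter fun s _ => ultrafilter_isClosed_basic _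

end Lim

section LimGroup

variable {Ω Ω' : Type*} {Γ : Type*} [Group Γ] [TopologicalSpace Γ] [IsTopologicalGroup Γ]
  [CompactSpace Γ] [T2Space Γ]

lemma L_mul (𝔬 : Ultrafilter Ω) (g h : Ω → Γ) : L 𝔬 (fun ω => g ω * h ω) = L 𝔬 g * L 𝔬 h :=
  L_eq ((tendsto_L 𝔬 g).mul (tendsto_L 𝔬 h))

lemma L_inv (𝔬 : Ultrafilter Ω) (g : Ω → Γ) : L 𝔬 (fun ω => (g ω)⁻¹) = (L 𝔬 g)⁻¹ :=
  L_eq (tendsto_L 𝔬 g).inv

lemma LL_mul (𝔳 : Ultrafilter Ω) (𝔬 : Ω → Ultrafilter Ω') (g h : Ω → Ω' → Γ) :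
    LL 𝔳 𝔬 (fun v ω => g v ω * h v ω) = LL 𝔳 𝔬 g * LL 𝔳 𝔬 h := by
  unfold LL
  simp only [L_mul]

lemma LL_inv (𝔳 : Ultrafilter Ω) (𝔬 : Ω → Ultrafilter Ω') (g : Ω → Ω' → Γ) :
    LL 𝔳 𝔬 (fun v ω => (g v ω)⁻¹) = (LL 𝔳 𝔬 g)⁻¹ := by
  unfold LL
  simp only [L_inv]

end LimGroup

/-! ### Systems -/

variable {Γ : Type*} [Group Γ] [TopologicalSpace Γ] [IsTopologicalGroup Γ]
  [CompactSpace Γ] [T2Space Γ]

/-- `𝓢` is the filter of small rationals and `φ` is asymptotically a homomorphism -/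
structure Sys (𝓢 : Filter ℚ) (φ : ℚ → Γ) : Prop where
  ne : ∀ᶠ q in 𝓢, q ≠ 0
  one : ∀ s ∈ 𝓢, (1 : ℚ) ∈ s
  div : Tendsto (fun p : ℚ × ℚ => p.1 / p.2) (𝓢 ×ˢ 𝓢) 𝓢
  φ_one : φ 1 = 1
  loc : ∀ᶠ k in 𝓢, Tendsto (fun r => (φ k)⁻¹ * φ (k * r) * (φ r)⁻¹) 𝓢 (𝓝 1)

variable {𝓢 : Filter ℚ} {φ : ℚ → Γ}

namespace Sys

variable (h : Sys 𝓢 φ) {Ω Ω' : Type*}

include h

lemma tendsto_one (l : Filter Ω) : Tendsto (fun _ : Ω => (1 : ℚ)) l 𝓢 := by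
  intro s hs
  have := h.one s hs
  simp only [mem_map]
  exact Eventually.of_forall fun _ => this

lemma tendsto_div {l : Filter Ω} {r r' : Ω → ℚ} (hr : Tendsto r l 𝓢) (hr' : Tendsto r' l 𝓢) :
    Tendsto (fun ω => r ω / r' ω) l 𝓢 :=
  h.div.comp (hr.prodMk hr')

lemma tendsto_inv {l : Filter Ω} {r : Ω → ℚ} (hr : Tendsto r l 𝓢) :
    Tendsto (fun ω => (r ω)⁻¹) l 𝓢 := by
  have := h.tendsto_div (h.tendsto_one l) hr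
  simpa only [one_div] using this

lemma tendsto_mul {l : Filter Ω} {r r' : Ω → ℚ} (hr : Tendsto r l 𝓢) (hr' : Tendsto r' l 𝓢) :
    Tendsto (fun ω => r ω * r' ω) l 𝓢 := by
  have := h.tendsto_div hr (h.tendsto_inv hr')
  simpa only [div_inv_eq_mul] using this

lemma tendsto_ne {l : Filter Ω} {r : Ω → ℚ} (hr : Tendsto r l 𝓢) : ∀ᶠ ω in l, r ω ≠ 0 :=
  hr.eventually h.ne

/-- smallness of a product along an iterated limit -/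
lemma tendsto_sd {𝔳 : Ultrafilter Ω} {𝔬 : Ω → Ultrafilter Ω'} {k : Ω → ℚ} {r : Ω → Ω' → ℚ}
    (hk : Tendsto k (𝔳 : Filter Ω) 𝓢)
    (hr : ∀ᶠ v in (𝔳 : Filter Ω), Tendsto (r v) (𝔬 v : Filter Ω') 𝓢) :
    Tendsto (fun p : Ω × Ω' => k p.1 * r p.1 p.2) (sd 𝔳 𝔬 : Filter (Ω × Ω')) 𝓢 := by
  intro s hs
  have hmul : Tendsto (fun p : ℚ × ℚ => p.1 * p.2) (𝓢 ×ˢ 𝓢) 𝓢 :=
    h.tendsto_mul tendsto_fst tendsto_snd
  obtain ⟨t, ht, t', ht', hsub⟩ := mem_prod_iff.1 (hmul hs)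
  show ∀ᶠ p in (sd 𝔳 𝔬 : Filter (Ω × Ω')), k p.1 * r p.1 p.2 ∈ s
  rw [eventually_sd]
  filter_upwards [hk ht, hr] with v hv hrv
  filter_upwards [hrv ht'] with ω hω
  exact hsub (Set.mk_mem_prod hv hω)

/-- a small element for which the localisation property holds -/
lemma L_loc {𝔬 : Ultrafilter Ω} {r : Ω → ℚ} (hr : Tendsto r (𝔬 : Filter Ω) 𝓢) {k : ℚ}
    (hk : Tendsto (fun r => (φ k)⁻¹ * φ (k * r) * (φ r)⁻¹) 𝓢 (𝓝 1)) :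
    L 𝔬 (fun ω => φ (k * r ω)) = φ k * L 𝔬 (fun ω => φ (r ω)) := by
  have h1 : L 𝔬 (fun ω => (φ k)⁻¹ * φ (k * r ω) * (φ (r ω))⁻¹) = 1 := L_eq (hk.comp hr)
  rw [L_mul, L_inv, L_mul, L_const] at h1
  rw [mul_inv_eq_one] at h1
  rw [← h1]
  group

/-- the iterated limit of a product of small elements -/
lemma LL_mul' {𝔳 : Ultrafilter Ω} {𝔬 : Ω → Ultrafilter Ω'} {k : Ω → ℚ} {r : Ω → Ω' → ℚ}
    (hk : Tendsto k (𝔳 : Filter Ω) 𝓢)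
    (hr : ∀ᶠ v in (𝔳 : Filter Ω), Tendsto (r v) (𝔬 v : Filter Ω') 𝓢) :
    LL 𝔳 𝔬 (fun v ω => φ (k v * r v ω)) =
      L 𝔳 (fun v => φ (k v)) * LL 𝔳 𝔬 (fun v ω => φ (r v ω)) := by
  unfold LL
  rw [← L_mul]
  apply L_congr
  filter_upwards [hk.eventually h.loc, hr] with v hv hrv
  exact h.L_loc hrv hv

lemma L_sd_mul {𝔳 : Ultrafilter Ω} {𝔬 : Ω → Ultrafilter Ω'} {k : Ω → ℚ} {r : Ω → Ω' → ℚ}
    (hk : Tendsto k (𝔳 : Filter Ω) 𝓢)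
    (hr : ∀ᶠ v in (𝔳 : Filter Ω), Tendsto (r v) (𝔬 v : Filter Ω') 𝓢) :
    L (sd 𝔳 𝔬) (fun p : Ω × Ω' => φ (k p.1 * r p.1 p.2)) =
      L 𝔳 (fun v => φ (k v)) * LL 𝔳 𝔬 (fun v ω => φ (r v ω)) := by
  rw [L_sd, h.LL_mul' hk hr]

end Sys

end Pool.Agent.Work.MP_0f91f8_co.Cge
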