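import Pool.Agent.Work.MP_0f91f8_co.Cge.Stmts

/-!
Assembly: from the items to the final theorem.
-/

set_option linter.unusedSectionVars false

open Filter Topology

namespace Pool.Agent.Work.MP_0f91f8_co.Cge

variable {K Γ : Type*} [CommGroup K] [TopologicalSpace K] [IsTopologicalGroup K]
  [CompactSpace K] [T2Space K] [Group Γ] [TopologicalSpace Γ] [IsTopologicalGroup Γ]
  [CompactSpace Γ] [T2Space Γ]

lemma good_of_ksys (hKSS : KSS K Γ) (hCOMP : COMPK K Γ) (hTW : TWISTK K Γ) {f : ℚ → K}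
    {φ : ℚ → Γ} (h : KSys f φ) : Good (sml f) φ :=
  { hKSS f φ h with
    comp := hCOMP f φ h
    twist := hTW f φ h }

/-- the theorem at the point `1` -/
theorem main_one (hFIN : FIN Γ) (hKSS : KSS K Γ) (hCOMP : COMPK K Γ) (hTW : TWISTK K Γ)
    (hPEX : PEX K Γ) (hRATK : RATK K Γ) (hRATT : RATT K Γ)
    {f : ℕ → K} {φ : ℕ → Γ} {W : Set K} {τ : ℕ → K → Γ} (h : NSys f φ W τ) {A : Set ℕ}
    (hA : Thick A) {U : Set K} (hU : U ∈ 𝓝 (1 : K)) {O : Set Γ} (hO : O ∈ 𝓝 (1 : Γ)) :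
    ∃ x y z : ℕ, 0 < x ∧ 0 < y ∧ 0 < z ∧ x ^ 2 + y ^ 2 = z ^ 2 ∧ x ∈ A ∧ y ∈ A ∧ z ∈ A ∧
      f x ∈ U ∧ f y ∈ U ∧ f z ∈ U ∧ φ x ∈ O ∧ φ y ∈ O ∧ φ z ∈ O := by
  obtain ⟨p, hp⟩ := hPEX f φ W τ h A hA
  have hK := hRATK f φ W τ h A p hp
  obtain ⟨s, hs, O', hO', H⟩ := hRATT f φ W τ h A p hp U hU O hO
  obtain ⟨X, Y, Z, hXYZ, hX, hY, hZ, hX', hY', hZ'⟩ :=
    hFIN (sml (ex f)) (ph p φ) (good_of_ksys hKSS hCOMP hTW hK) s hs O' hO'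
  exact H X Y Z hXYZ hX hY hZ hX' hY' hZ'

/-- the theorem -/
theorem main (hFIN : FIN Γ) (hKSS : KSS K Γ) (hCOMP : COMPK K Γ) (hTW : TWISTK K Γ)
    (hPEX : PEX K Γ) (hRATK : RATK K Γ) (hRATT : RATT K Γ)
    (f : ℕ → K) (hf : ∀ m n : ℕ, 0 < m → 0 < n → f (m * n) = f m * f n)
    (n₀ : ℕ) (hn₀ : 0 < n₀) (W : Set K) (hW : W ∈ 𝓝 (f n₀)) (φ : ℕ → Γ)
    (hφ : ∀ k : ℕ, 0 < k → ∃ τ : K → Γ, ContinuousOn τ {x | x ∈ W ∧ f k * x ∈ W} ∧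
      ∀ n : ℕ, 0 < n → f n ∈ W → f (k * n) ∈ W → φ (k * n) = τ (f n) * φ n)
    (U : Set (K × Γ)) (hU : U ∈ 𝓝 (f n₀, φ n₀)) (A : Set ℕ) (hA : Thick A) :
    ∃ x y z : ℕ, 0 < x ∧ 0 < y ∧ 0 < z ∧ x ^ 2 + y ^ 2 = z ^ 2 ∧ x ∈ A ∧ y ∈ A ∧ z ∈ A ∧
      (f x, φ x) ∈ U ∧ (f y, φ y) ∈ U ∧ (f z, φ z) ∈ U := by
  classical
  obtain ⟨V, hVW, hVo, hVn⟩ := mem_nhds_iff.1 hW
  choose! τ hτc hτ using hφ
  have hmulc : Continuous (fun x : K => f n₀ * x) := continuous_const.mul continuous_id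
  have hsys : NSys f (fun n => φ (n₀ * n) * (φ n₀)⁻¹) {x | f n₀ * x ∈ V}
      (fun k x => τ k (f n₀ * x)) := by
    refine ⟨hf, by simp, hVo.preimage hmulc, by simpa using hVn, ?_, ?_⟩
    · intro k hk
      have h1 := hτc k hk
      refine ContinuousOn.comp h1 hmulc.continuousOn ?_
      rintro x ⟨hx1, hx2⟩
      refine ⟨hVW hx1, ?_⟩
      have : f k * (f n₀ * x) = f n₀ * (f k * x) := by
        rw [mul_left_comm]
      rw [this]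
      exact hVW hx2
    · intro k n hk hn h1 h2
      have h3 : f (n₀ * n) ∈ W := by
        rw [hf n₀ n hn₀ hn]
        exact hVW h1
      have h4 : f (k * (n₀ * n)) ∈ W := by
        have : k * (n₀ * n) = n₀ * (k * n) := by ring
        rw [this, hf n₀ (k * n) hn₀ (Nat.mul_pos hk hn)]
        exact hVW h2
      have h5 := hτ k hk (n₀ * n) (Nat.mul_pos hn₀ hn) h3 h4
      have h6 : n₀ * (k * n) = k * (n₀ * n) := by ring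
      show φ (n₀ * (k * n)) * (φ n₀)⁻¹ = τ k (f n₀ * f n) * (φ (n₀ * n) * (φ n₀)⁻¹)
      rw [h6, h5, hf n₀ n hn₀ hn, mul_assoc]
  have hA' : Thick {n : ℕ | n₀ * n ∈ A} := by
    intro X hX
    obtain ⟨k, hk, hkX⟩ := hA (X.image (fun x => n₀ * x)) (by
      intro y hy
      obtain ⟨x, hx, rfl⟩ := Finset.mem_image.1 hy
      exact Nat.mul_pos hn₀ (hX x hx))
    refine ⟨k, hk, fun x hx => ?_⟩
    have := hkX (n₀ * x) (Finset.mem_image_of_mem _ hx)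
    show n₀ * (x * k) ∈ A
    rw [← mul_assoc]
    exact this
  rw [nhds_prod_eq, mem_prod_iff] at hU
  obtain ⟨U₁, hU₁, U₂, hU₂, hUU⟩ := hU
  have hU₁' : {x : K | f n₀ * x ∈ U₁} ∈ 𝓝 (1 : K) := by
    have : Tendsto (fun x : K => f n₀ * x) (𝓝 1) (𝓝 (f n₀)) := by
      have := hmulc.tendsto 1
      rwa [mul_one] at this
    exact this hU₁
  have hU₂' : {x : Γ | x * φ n₀ ∈ U₂} ∈ 𝓝 (1 : Γ) := by
    have hc : Continuous (fun x : Γ => x * φ n₀) := continuous_id.mul continuous_const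
    have : Tendsto (fun x : Γ => x * φ n₀) (𝓝 1) (𝓝 (φ n₀)) := by
      have := hc.tendsto 1
      rwa [one_mul] at this
    exact this hU₂
  obtain ⟨x, y, z, hx, hy, hz, hxyz, hxA, hyA, hzA, hfx, hfy, hfz, hφx, hφy, hφz⟩ :=
    main_one hFIN hKSS hCOMP hTW hPEX hRATK hRATT hsys hA' hU₁' hU₂'
  have key : ∀ n : ℕ, 0 < n → f n ∈ {x : K | f n₀ * x ∈ U₁} →
      φ (n₀ * n) * (φ n₀)⁻¹ ∈ {x : Γ | x * φ n₀ ∈ U₂} → (f (n₀ * n), φ (n₀ * n)) ∈ U := by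
    intro n hn h1 h2
    apply hUU
    refine Set.mk_mem_prod ?_ ?_
    · rw [hf n₀ n hn₀ hn]
      exact h1
    · have : φ (n₀ * n) * (φ n₀)⁻¹ * φ n₀ ∈ U₂ := h2
      simpa using this
  refine ⟨n₀ * x, n₀ * y, n₀ * z, Nat.mul_pos hn₀ hx, Nat.mul_pos hn₀ hy, Nat.mul_pos hn₀ hz,
    ?_, hxA, hyA, hzA, key x hx hfx hφx, key y hy hfy hφy, key z hz hfz hφz⟩
  calc (n₀ * x) ^ 2 + (n₀ * y) ^ 2 = n₀ ^ 2 * (x ^ 2 + y ^ 2) := by ring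
    _ = n₀ ^ 2 * z ^ 2 := by rw [hxyz]
    _ = (n₀ * z) ^ 2 := by ring

end Pool.Agent.Work.MP_0f91f8_co.Cge
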