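import Pool.Agent.Work.MP_0f91f8_co.Cge.Stmts

/-!
Item LIN of block [0f91f8 CGE] (helper26): all linear factors `1 + x w` are independent.
-/

set_option linter.unusedSectionVars false

open Filter Topology

namespace Pool.Agent.Work.MP_0f91f8_co.Cge

universe u

namespace I_LIN

/-- a rational as a unit -/
noncomputable def un (q : ℚ) : ℚˣ := if h : q = 0 then 1 else Units.mk0 q h

lemma un_val {q : ℚ} (h : q ≠ 0) : (un q : ℚ) = q := by
  unfold un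
  rw [dif_neg h, Units.val_mk0]

/-- the slopes, corrected at the bad points -/
noncomputable def cf (v : ℚ) : ℚ := if v ≠ 0 ∧ 1 + v ≠ 0 ∧ 1 - v ≠ 0 then cc v else 2

lemma cf_eq {v : ℚ} (h0 : v ≠ 0) (h1 : 1 + v ≠ 0) (h2 : 1 - v ≠ 0) : cf v = cc v :=
  if_pos ⟨h0, h1, h2⟩

lemma cf_ne (v : ℚ) : cf v ≠ 0 := by
  by_cases h : v ≠ 0 ∧ 1 + v ≠ 0 ∧ 1 - v ≠ 0
  · rw [cf_eq h.1 h.2.1 h.2.2]
    exact div_ne_zero h.2.1 h.2.2
  · unfold cf
    rw [if_neg h]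
    norm_num

lemma cf_ne_one (v : ℚ) : cf v ≠ 1 := by
  by_cases h : v ≠ 0 ∧ 1 + v ≠ 0 ∧ 1 - v ≠ 0
  · rw [cf_eq h.1 h.2.1 h.2.2]
    unfold cc
    intro e
    rw [div_eq_one_iff_eq h.2.2] at e
    exact h.1 (by linarith)
  · unfold cf
    rw [if_neg h]
    norm_num

lemma cf_ne_neg_one (v : ℚ) : cf v ≠ -1 := by
  by_cases h : v ≠ 0 ∧ 1 + v ≠ 0 ∧ 1 - v ≠ 0
  · rw [cf_eq h.1 h.2.1 h.2.2]
    unfold cc
    intro e
    rw [div_eq_iff h.2.2] at e
    linarith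
  · unfold cf
    rw [if_neg h]
    norm_num

lemma unit_two : IsUnit (2 : ℚ → ℚ) := by
  rw [Pi.isUnit_iff]
  intro v
  exact isUnit_iff_ne_zero.2 two_ne_zero

lemma unit_add : IsUnit (cf + fun v => (cf v)⁻¹) := by
  rw [Pi.isUnit_iff]
  intro v
  refine isUnit_iff_ne_zero.2 ?_
  show cf v + (cf v)⁻¹ ≠ 0
  have h := cf_ne v
  intro e
  have e2 : cf v * (cf v + (cf v)⁻¹) = 0 := by rw [e, mul_zero]
  rw [mul_add, mul_inv_cancel₀ h] at e2
  nlinarith [mul_self_nonneg (cf v)]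

lemma unit_sub : IsUnit (cf - fun v => (cf v)⁻¹) := by
  rw [Pi.isUnit_iff]
  intro v
  refine isUnit_iff_ne_zero.2 ?_
  show cf v - (cf v)⁻¹ ≠ 0
  have h := cf_ne v
  intro e
  have e2 : cf v * (cf v - (cf v)⁻¹) = 0 := by rw [e, mul_zero]
  rw [mul_sub, mul_inv_cancel₀ h] at e2
  have e3 : (cf v - 1) * (cf v + 1) = 0 := by linarith
  rcases mul_eq_zero.1 e3 with e4 | e4
  · exact cf_ne_one v (by linarith)
  · exact cf_ne_neg_one v (by linarith)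

lemma mul_inv : cf * (fun v => (cf v)⁻¹) = 1 := by
  funext v
  exact mul_inv_cancel₀ (cf_ne v)

end I_LIN

open I_LIN

variable (Γ : Type u) [Group Γ] [TopologicalSpace Γ] [IsTopologicalGroup Γ]
  [CompactSpace Γ] [T2Space Γ]

theorem LIN_pf (hCLO : CLO Γ) (hT : TOOL.{0, 0}) (hI : INDG Γ) : LIN Γ := by
  intro 𝓢 φ N hG hN s hlin hv0 hK 𝔲 hE x
  have hS : Sys 𝓢 φ := hG.toSys
  obtain ⟨i1, ic, im, ii⟩ := hI 𝓢 φ N hS hN s ℚ 𝔲
  let Rs : Subgroup (ℚ → ℚ → ℚˣ) :=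
    { carrier := {r | Ind 𝓢 φ N s 𝔲 (fun v w => ((r v w : ℚˣ) : ℚ))}
      one_mem' := by
        show Ind 𝓢 φ N s 𝔲 (fun v w => (((1 : ℚ → ℚ → ℚˣ) v w : ℚˣ) : ℚ))
        exact i1
      mul_mem' := by
        intro a b ha hb
        show Ind 𝓢 φ N s 𝔲 (fun v w => (((a * b : ℚ → ℚ → ℚˣ) v w : ℚˣ) : ℚ))
        have h := im _ _ ha hb
        simpa only [Pi.mul_apply, Units.val_mul] using h
      inv_mem' := by
        intro a ha
        show Ind 𝓢 φ N s 𝔲 (fun v w => (((a⁻¹ : ℚ → ℚ → ℚˣ) v w : ℚˣ) : ℚ))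
        have h := ii _ ha
        simpa only [Pi.inv_apply, Units.val_inv_eq_inv_val] using h }
  have hmem : ∀ r : ℚ → ℚ → ℚˣ,
      r ∈ Rs ↔ Ind 𝓢 φ N s 𝔲 (fun v w => ((r v w : ℚˣ) : ℚ)) := fun _ => Iff.rfl
  let f : (ℚ → ℚ) → (ℚ → ℚ → ℚˣ) := fun y v w => un (1 + y v * w)
  let D : (ℚ → ℚ) → Additive ((ℚ → ℚ → ℚˣ) ⧸ Rs) := fun y =>
    Additive.ofMul (QuotientGroup.mk (f y))
  -- the factors are not zero
  have hne : ∀ᶠ v in (s : Filter ℚ), ∀ y : ℚ, ∀ᶠ w in (𝔲 v : Filter ℚ), 1 + y * w ≠ 0 := by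
    filter_upwards [hE] with v hv y
    exact hS.tendsto_ne (hv.1 y)
  have hcc : ∀ᶠ v in (s : Filter ℚ), cf v = cc v := by
    filter_upwards [hv0, hS.tendsto_ne (hlin 1), hS.tendsto_ne (hlin (-1))] with v h0 h1 h2
    refine cf_eq h0 ?_ ?_
    · simpa using h1
    · intro e
      apply h2
      linarith
  -- the functional equation
  have hfe : ∀ l m : ℚ → ℚ, D (l - cf * m) + D (l + (fun v => (cf v)⁻¹) * m) =
      D (l + cf * m) + D (l - (fun v => (cf v)⁻¹) * m) := by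
    intro l m
    have hclo := hCLO 𝓢 φ N hG hN s hlin hv0 hK 𝔲 hE l m
    show Additive.ofMul ((QuotientGroup.mk (f (l - cf * m)) : (ℚ → ℚ → ℚˣ) ⧸ Rs) *
        QuotientGroup.mk (f (l + (fun v => (cf v)⁻¹) * m))) =
      Additive.ofMul ((QuotientGroup.mk (f (l + cf * m)) : (ℚ → ℚ → ℚˣ) ⧸ Rs) *
        QuotientGroup.mk (f (l - (fun v => (cf v)⁻¹) * m)))
    rw [← QuotientGroup.mk_mul, ← QuotientGroup.mk_mul]
    congr 1
    symm
    rw [QuotientGroup.eq, hmem]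
    refine ic _ _ hclo ?_
    filter_upwards [hne, hcc] with v hv hc
    filter_upwards [hv (l v - cc v * m v), hv (l v + m v / cc v), hv (l v + cc v * m v),
      hv (l v - m v / cc v)] with w w1 w2 w3 w4
    have e1 : (un (1 + (l - cf * m) v * w) : ℚ) = 1 + (l v - cc v * m v) * w := by
      rw [Pi.sub_apply, Pi.mul_apply, hc]
      exact un_val w1
    have e2 : (un (1 + (l + (fun v => (cf v)⁻¹) * m) v * w) : ℚ) =
        1 + (l v + m v / cc v) * w := by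
      have e : (l + (fun v => (cf v)⁻¹) * m) v = l v + m v / cc v := by
        rw [Pi.add_apply, Pi.mul_apply, hc, div_eq_inv_mul]
      rw [e]
      exact un_val w2
    have e3 : (un (1 + (l + cf * m) v * w) : ℚ) = 1 + (l v + cc v * m v) * w := by
      rw [Pi.add_apply, Pi.mul_apply, hc]
      exact un_val w3
    have e4 : (un (1 + (l - (fun v => (cf v)⁻¹) * m) v * w) : ℚ) =
        1 + (l v - m v / cc v) * w := by
      have e : (l - (fun v => (cf v)⁻¹) * m) v = l v - m v / cc v := by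
        rw [Pi.sub_apply, Pi.mul_apply, hc, div_eq_inv_mul]
      rw [e]
      exact un_val w4
    show _ = (((f (l + cf * m) v w * f (l - (fun v => (cf v)⁻¹) * m) v w)⁻¹ *
      (f (l - cf * m) v w * f (l + (fun v => (cf v)⁻¹) * m) v w) : ℚˣ) : ℚ)
    rw [Units.val_mul, Units.val_inv_eq_inv_val, Units.val_mul, Units.val_mul]
    show _ = ((un (1 + (l + cf * m) v * w) : ℚ) *
        (un (1 + (l - (fun v => (cf v)⁻¹) * m) v * w) : ℚ))⁻¹ *
      ((un (1 + (l - cf * m) v * w) : ℚ) *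
        (un (1 + (l + (fun v => (cf v)⁻¹) * m) v * w) : ℚ))
    rw [e1, e2, e3, e4, div_eq_inv_mul]
  have hD := hT (ℚ → ℚ) (Additive ((ℚ → ℚ → ℚˣ) ⧸ Rs)) D cf (fun v => (cf v)⁻¹)
    mul_inv unit_two unit_add unit_sub hfe x
  have hD2 : (QuotientGroup.mk (f 0) : (ℚ → ℚ → ℚˣ) ⧸ Rs) = QuotientGroup.mk (f x) :=
    Additive.ofMul.injective hD.symm
  rw [QuotientGroup.eq, hmem] at hD2
  refine ic _ _ hD2 ?_
  filter_upwards [hne] with v hv
  filter_upwards [hv (x v)] with w hw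
  show (((f 0 v w)⁻¹ * f x v w : ℚˣ) : ℚ) = 1 + x v * w
  rw [Units.val_mul, Units.val_inv_eq_inv_val]
  show ((un (1 + (0 : ℚ → ℚ) v * w) : ℚ))⁻¹ * (un (1 + x v * w) : ℚ) = 1 + x v * w
  rw [un_val hw, Pi.zero_apply, zero_mul, add_zero, un_val one_ne_zero, inv_one, one_mul]

end Pool.Agent.Work.MP_0f91f8_co.Cge
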