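import Pool.Agent.Work.MP_0f91f8_co.Cge.Stmts

/-!
Block [0f91f8 CGE], item MVC: the moves are continuous.
-/

set_option linter.unusedSectionVars false

open Filter Topology

namespace Pool.Agent.Work.MP_0f91f8_co.Cge

universe u

variable (Γ : Type u) [Group Γ] [TopologicalSpace Γ] [IsTopologicalGroup Γ]
  [CompactSpace Γ] [T2Space Γ]

theorem MVC_pf : MVC Γ := by
  intro φ F
  have h1 : Continuous (fun x : St Γ => bnd x.1 (fun v => (F v).map Prod.fst)) := by
    have h : Continuous
        (fun 𝔬 : Ultrafilter ℚ => bnd 𝔬 (fun v => (F v).map Prod.fst)) :=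
      (continuous_map (fun p : ℚ × ℚ => op p.1 p.2)).comp
        (continuous_bind (fun v => ((F v).map Prod.fst).map (Prod.mk v)))
    exact h.comp continuous_fst
  have h2 : ∀ g : ℚ → ℚ × ℚ → Γ, Continuous (fun x : St Γ => LL x.1 F g) := fun g =>
    (continuous_L (fun v => L (F v) (g v))).comp continuous_fst
  exact h1.prodMk (((continuous_fst.comp continuous_snd).mul (h2 _)).prodMk
    ((continuous_snd.comp continuous_snd).mul (h2 _)))

end Pool.Agent.Work.MP_0f91f8_co.Cge
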