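import Pool.Agent.Work.MP_0f91f8_co.Cge.Stmts

/-! Block [0f91f8 CGE], item SYNDQ: return times are syndetic. -/

set_option linter.unusedSectionVars false

open Filter Topology

universe u v

namespace Pool.Agent.Work.MP_0f91f8_co.Cge

variable (K : Type v) (Γ : Type u) [CommGroup K] [TopologicalSpace K] [IsTopologicalGroup K]
  [CompactSpace K] [T2Space K] [Group Γ] [TopologicalSpace Γ] [IsTopologicalGroup Γ]
  [CompactSpace Γ] [T2Space Γ]

namespace I_SYNDQ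

attribute [local instance] Ultrafilter.semigroup

theorem exists_idem (C : Set ℚ)
    (hC : ∀ M : Finset ℚ, (∀ m ∈ M, m ≠ 0) → ∃ g : ℚ, g ≠ 0 ∧ ∀ m ∈ M, m * g ∉ C) :
    ∃ p : Ultrafilter ℚˣ, p * p = p ∧ ∀ m : ℚˣ, ∀ᶠ g in (p : Filter ℚˣ), ((m * g : ℚˣ) : ℚ) ∉ C := by
  classical
  let E : Finset ℚˣ → Set ℚˣ := fun M => {g | ∀ m ∈ M, ((m * g : ℚˣ) : ℚ) ∉ C}
  have hdir : Directed (· ≥ ·) (fun M => 𝓟 (E M)) := by
    intro M₁ M₂
    refine ⟨M₁ ∪ M₂, ?_, ?_⟩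
    · apply principal_mono.2
      intro g hg m hm
      exact hg m (Finset.mem_union_left _ hm)
    · apply principal_mono.2
      intro g hg m hm
      exact hg m (Finset.mem_union_right _ hm)
  have hbot : NeBot (⨅ M, 𝓟 (E M)) := by
    apply iInf_neBot_of_directed' hdir
    intro M
    rw [principal_neBot_iff]
    obtain ⟨g, hg, h⟩ := hC (M.image (fun m : ℚˣ => (m : ℚ))) (by
      intro m hm
      obtain ⟨m', _, rfl⟩ := Finset.mem_image.1 hm
      exact m'.ne_zero)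
    refine ⟨Units.mk0 g hg, ?_⟩
    intro m hm
    have := h (m : ℚ) (Finset.mem_image_of_mem _ hm)
    simpa using this
  let T : Set (Ultrafilter ℚˣ) :=
    {r | ∀ m : ℚˣ, ∀ᶠ g in (r : Filter ℚˣ), ((m * g : ℚˣ) : ℚ) ∉ C}
  have hTc : IsClosed T := by
    have : T = ⋂ m : ℚˣ, {r : Ultrafilter ℚˣ | {g : ℚˣ | ((m * g : ℚˣ) : ℚ) ∉ C} ∈ r} := by
      ext r
      simp only [Set.mem_iInter]
      exact Iff.rfl
    rw [this]
    exact isClosed_iInter fun m => ultrafilter_isClosed_basic _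
  have hTn : T.Nonempty := by
    refine ⟨Ultrafilter.of (⨅ M, 𝓟 (E M)), ?_⟩
    intro m
    have h1 : E {m} ∈ (⨅ M, 𝓟 (E M)) := mem_iInf_of_mem {m} (mem_principal_self _)
    have h2 := Ultrafilter.of_le (⨅ M, 𝓟 (E M)) h1
    filter_upwards [h2] with g hg
    exact hg m (Finset.mem_singleton_self m)
  have hTm : ∀ᵉ (a ∈ T) (b ∈ T), a * b ∈ T := by
    intro a _ b hb m
    rw [Ultrafilter.eventually_mul]
    refine Eventually.of_forall fun x => ?_
    have := hb (m * x)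
    filter_upwards [this] with y hy
    rwa [mul_assoc] at hy
  obtain ⟨p, hp, hpp⟩ := exists_idempotent_in_compact_subsemigroup
    (Ultrafilter.continuous_mul_left (M := ℚˣ)) T hTn hTc.isCompact hTm
  exact ⟨p, hpp, hp⟩

theorem L_idem {Y : Type*} [TopologicalSpace Y] [CompactSpace Y] [T2Space Y]
    {p : Ultrafilter ℚˣ} (hp : p * p = p) (h : ℚˣ → Y) :
    L p h = LL p (fun _ => p) (fun x y => h (x * y)) := by
  have h1 : p.bind (fun x => p.map (x * ·)) = p * p := by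
    apply Ultrafilter.coe_injective
    ext s
    have := Ultrafilter.eventually_mul p p (· ∈ s)
    exact this.symm
  conv_lhs => rw [← hp, ← h1, L_bind]
  exact LL_map p (fun _ => p) (fun x y => x * y) (fun _ => h)

end I_SYNDQ

theorem SYNDQ_pf (hKSS : KSS K Γ) : SYNDQ K Γ := by
  intro f φ hf s hs O hO
  by_contra hcon
  push Not at hcon
  have hsys : Sys (sml f) φ := hKSS f φ hf
  obtain ⟨p, hp, hpT⟩ := I_SYNDQ.exists_idem {q | q ∈ s ∧ φ q ∈ O} (by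
    intro M hM
    obtain ⟨g, hg, h⟩ := hcon M hM
    exact ⟨g, hg, fun m hm hmm => h m hm hmm.1 hmm.2⟩)
  -- `f → 1`
  have hf1 : L p (fun g : ℚˣ => f (g : ℚ)) = 1 := by
    have h1 := I_SYNDQ.L_idem hp (fun g : ℚˣ => f (g : ℚ))
    have h2 : LL p (fun _ => p) (fun x y : ℚˣ => f ((x * y : ℚˣ) : ℚ)) =
        L p (fun g : ℚˣ => f (g : ℚ)) * L p (fun g : ℚˣ => f (g : ℚ)) := by
      have h3 : (fun x y : ℚˣ => f ((x * y : ℚˣ) : ℚ)) =
          fun x y : ℚˣ => f (x : ℚ) * f (y : ℚ) := by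
        funext x y
        rw [Units.val_mul, hf.mul _ _ x.ne_zero y.ne_zero]
      rw [h3, LL_mul, LL_fst p (fun _ => p) (fun x : ℚˣ => f (x : ℚ)),
        LL_const p p (fun y : ℚˣ => f (y : ℚ))]
    rw [h2] at h1
    exact (mul_eq_left.1 h1.symm)
  have hsm : Tendsto (fun g : ℚˣ => (g : ℚ)) (p : Filter ℚˣ) (sml f) := by
    refine tendsto_inf.2 ⟨?_, ?_⟩
    · rw [tendsto_comap_iff]
      exact L_eq_iff.1 hf1
    · rw [tendsto_principal]
      exact Eventually.of_forall fun g => g.ne_zero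
  have hφ1 : L p (fun g : ℚˣ => φ (g : ℚ)) = 1 := by
    have h1 := I_SYNDQ.L_idem hp (fun g : ℚˣ => φ (g : ℚ))
    have h2 := hsys.LL_mul' (𝔳 := p) (𝔬 := fun _ => p) (k := fun g : ℚˣ => (g : ℚ))
      (r := fun _ g => (g : ℚ)) hsm (Eventually.of_forall fun _ => hsm)
    rw [LL_const p p (fun y : ℚˣ => φ (y : ℚ))] at h2
    have h3 : LL p (fun _ => p) (fun x y : ℚˣ => φ ((x * y : ℚˣ) : ℚ)) =
        LL p (fun _ => p) (fun x y : ℚˣ => φ ((x : ℚ) * (y : ℚ))) := by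
      simp only [Units.val_mul]
    rw [h3, h2] at h1
    exact (mul_eq_left.1 h1.symm)
  have e1 : ∀ᶠ g : ℚˣ in (p : Filter ℚˣ), (g : ℚ) ∈ s := hsm hs
  have e2 : ∀ᶠ g : ℚˣ in (p : Filter ℚˣ), φ (g : ℚ) ∈ O := (L_eq_iff.1 hφ1) hO
  have e3 := hpT 1
  obtain ⟨g, h1, h2, h3⟩ := (e1.and (e2.and e3)).exists
  rw [one_mul] at h3
  exact h3 ⟨h1, h2⟩

end Pool.Agent.Work.MP_0f91f8_co.Cge
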