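import Pool.Agent.Work.MP_0f91f8_co.Cge.Basic

/-!
Block [0f91f8 CGE]: Pythagorean triples and compact group extensions of multiplicative Bohr
systems.  Definitions and all statements of the items.  Captain helper35.
Paper proof: note S1-35-1 (id 3362) of MP_0f91f8_co.
-/

set_option linter.unusedSectionVars false

open Filter Topology

namespace Pool.Agent.Work.MP_0f91f8_co.Cge

/-! ### Rational functions of the parameters -/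

/-- addition of half-angle tangents -/
def op (V W : ℚ) : ℚ := (V + W) / (1 - V * W)

/-- `aa c W = (1 - c W) (1 + W / c) / (1 + W ^ 2)` -/
def aa (c W : ℚ) : ℚ := (1 - c * W) * (1 + W / c) / (1 + W ^ 2)

/-- `cc V = (1 + V) / (1 - V)` -/
def cc (V : ℚ) : ℚ := (1 + V) / (1 - V)

/-- the law of `op V W`, `V` of law `𝔲`, then `W` of law `m V` -/
noncomputable def bnd (𝔲 : Ultrafilter ℚ) (m : ℚ → Ultrafilter ℚ) : Ultrafilter ℚ :=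
  (sd 𝔲 m).map (fun p => op p.1 p.2)

section Defs

variable {Γ : Type*} [Group Γ] [TopologicalSpace Γ]

/-- all `1 + x W` are small -/
def Lin (𝓢 : Filter ℚ) (𝔲 : Ultrafilter ℚ) : Prop :=
  ∀ x : ℚ, Tendsto (fun W : ℚ => 1 + x * W) (𝔲 : Filter ℚ) 𝓢

/-- `1 + W ^ 2` is small -/
def Nrm (𝓢 : Filter ℚ) (𝔲 : Ultrafilter ℚ) : Prop :=
  Tendsto (fun W : ℚ => 1 + W ^ 2) (𝔲 : Filter ℚ) 𝓢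

/-- law of a pair `(W, q)` with `q` small and `φ (q (1 + x W)) → 1` for all `x` -/
def Cpl (𝓢 : Filter ℚ) (φ : ℚ → Γ) (𝔮 : Ultrafilter (ℚ × ℚ)) : Prop :=
  Tendsto (fun p : ℚ × ℚ => p.2) (𝔮 : Filter (ℚ × ℚ)) 𝓢 ∧
  ∀ x : ℚ, Tendsto (fun p : ℚ × ℚ => φ (p.2 * (1 + x * p.1))) (𝔮 : Filter (ℚ × ℚ)) (𝓝 1)

/-- the laws `𝓔₁` -/
def E1 (𝓢 : Filter ℚ) (φ : ℚ → Γ) (𝔲 : Ultrafilter ℚ) : Prop :=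
  Lin 𝓢 𝔲 ∧ ∃ 𝔮 : Ultrafilter (ℚ × ℚ), 𝔮.map Prod.fst = 𝔲 ∧ Cpl 𝓢 φ 𝔮

/-- the twisted laws -/
def EK (𝓢 : Filter ℚ) (φ : ℚ → Γ) (κ : ℚ) (𝔲 : Ultrafilter ℚ) : Prop :=
  Lin 𝓢 𝔲 ∧ Tendsto (fun W : ℚ => 2 * W / κ) (𝔲 : Filter ℚ) 𝓢 ∧
  ∃ 𝔮 : Ultrafilter (ℚ × ℚ), 𝔮.map Prod.fst = 𝔲 ∧ Cpl 𝓢 φ 𝔮 ∧
    Tendsto (fun p : ℚ × ℚ => φ (p.2 * (2 * p.1 / κ))) (𝔮 : Filter (ℚ × ℚ)) (𝓝 1)

/-- law of a pair `(W, g)` with `W` in `𝓔'`, `g` small -/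
def U' (𝓢 : Filter ℚ) (φ : ℚ → Γ) (𝔴 : Ultrafilter (ℚ × ℚ)) : Prop :=
  E1 𝓢 φ (𝔴.map Prod.fst) ∧ Nrm 𝓢 (𝔴.map Prod.fst) ∧
    Tendsto (fun p : ℚ × ℚ => p.2) (𝔴 : Filter (ℚ × ℚ)) 𝓢

/-- law of a pair `(V, g)` with `V` in `𝓔'_κ`, `g` small -/
def UK (𝓢 : Filter ℚ) (φ : ℚ → Γ) (κ : ℚ) (𝔴 : Ultrafilter (ℚ × ℚ)) : Prop :=
  EK 𝓢 φ κ (𝔴.map Prod.fst) ∧ Nrm 𝓢 (𝔴.map Prod.fst) ∧
    Tendsto (fun p : ℚ × ℚ => p.2) (𝔴 : Filter (ℚ × ℚ)) 𝓢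

end Defs

section Defs2

variable {Γ : Type*} [Group Γ] [TopologicalSpace Γ] [IsTopologicalGroup Γ]
  [CompactSpace Γ] [T2Space Γ]

/-- a system with compensators and twisted laws -/
structure Good (𝓢 : Filter ℚ) (φ : ℚ → Γ) : Prop extends Sys 𝓢 φ where
  comp : ∀ 𝔲 : Ultrafilter ℚ, E1 𝓢 φ 𝔲 → ∃ 𝔲' : Ultrafilter ℚ, E1 𝓢 φ 𝔲' ∧
    Tendsto (fun p : ℚ × ℚ => (1 + p.1 ^ 2) * (1 + p.2 ^ 2))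
      (sd 𝔲 (fun _ => 𝔲') : Filter (ℚ × ℚ)) 𝓢
  twist : ∀ κ : ℚ, κ ≠ 0 → ∃ 𝔲 : Ultrafilter ℚ, EK 𝓢 φ κ 𝔲

/-- limits of `φ` along small ultrafilters -/
def G0 (𝓢 : Filter ℚ) (φ : ℚ → Γ) : Set Γ :=
  {γ | ∃ 𝔬 : Ultrafilter ℚ, (𝔬 : Filter ℚ) ≤ 𝓢 ∧ L 𝔬 φ = γ}

/-- closed subgroup normalised by the limits -/
structure NS (𝓢 : Filter ℚ) (φ : ℚ → Γ) (N : Subgroup Γ) : Prop where
  closed : IsClosed (N : Set Γ)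
  nor : ∀ γ ∈ G0 𝓢 φ, ∀ n ∈ N, γ * n * γ⁻¹ ∈ N

/-- states -/
abbrev St (Γ : Type*) : Type _ := Ultrafilter ℚ × (Γ × Γ)

/-- the move given by the selection `F` -/
noncomputable def Mv (φ : ℚ → Γ) (F : ℚ → Ultrafilter (ℚ × ℚ)) (x : St Γ) : St Γ :=
  (bnd x.1 (fun v => (F v).map Prod.fst),
    (x.2.1 * LL x.1 F (fun _ p => φ p.2),
     x.2.2 * LL x.1 F (fun v p => φ (p.2 * aa (cc v) p.1))))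

/-- the state of a law of `(V, g)` -/
noncomputable def stt (φ : ℚ → Γ) (𝔴 : Ultrafilter (ℚ × ℚ)) : St Γ :=
  (𝔴.map Prod.fst, (L 𝔴 (fun p => φ p.2), L 𝔴 (fun p => φ (p.2 * aa 1 p.1))))

/-- the set of all states of laws in `UK` -/
def X0 (𝓢 : Filter ℚ) (φ : ℚ → Γ) (κ : ℚ) : Set (St Γ) :=
  {x | ∃ 𝔴 : Ultrafilter (ℚ × ℚ), UK 𝓢 φ κ 𝔴 ∧ stt φ 𝔴 = x}

/-- the comparison property of `N` at `s` -/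
def Kst (𝓢 : Filter ℚ) (φ : ℚ → Γ) (N : Subgroup Γ) (s : Ultrafilter ℚ) : Prop :=
  ∀ 𝔮 : ℚ → Ultrafilter (ℚ × ℚ), (∀ᶠ v in (s : Filter ℚ), U' 𝓢 φ (𝔮 v)) →
    (LL s 𝔮 (fun _ p => φ p.2))⁻¹ * LL s 𝔮 (fun v p => φ (p.2 * aa (cc v) p.1)) *
      (LL s 𝔮 (fun v p => φ (aa (cc v) p.1)))⁻¹ ∈ N

/-- minimal set of states and its group -/
structure YN (𝓢 : Filter ℚ) (φ : ℚ → Γ) (κ : ℚ) (Y : Set (St Γ)) (N : Subgroup Γ) : Prop where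
  closed : IsClosed Y
  nonempty : Y.Nonempty
  sub : Y ⊆ X0 𝓢 φ κ
  inv : ∀ F : ℚ → Ultrafilter (ℚ × ℚ), (∀ v, U' 𝓢 φ (F v)) → ∀ x ∈ Y, Mv φ F x ∈ Y
  ns : NS 𝓢 φ N
  mulN : ∀ x ∈ Y, ∀ n ∈ N, (x.1, (x.2.1, x.2.2 * n)) ∈ Y
  kst : ∀ x ∈ Y, Kst 𝓢 φ N x.1

/-- the family `r` is independent of all small elements modulo `N` -/
def Ind (𝓢 : Filter ℚ) (φ : ℚ → Γ) (N : Subgroup Γ) (s : Ultrafilter ℚ) {Ω : Type}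
    (𝔬 : ℚ → Ultrafilter Ω) (r : ℚ → Ω → ℚ) : Prop :=
  (∀ᶠ v in (s : Filter ℚ), Tendsto (r v) (𝔬 v : Filter Ω) 𝓢) ∧
  ∀ 𝔮 : ℚ → Ultrafilter (Ω × ℚ),
    (∀ᶠ v in (s : Filter ℚ), (𝔮 v).map Prod.fst = 𝔬 v ∧
      Tendsto (fun p : Ω × ℚ => p.2) (𝔮 v : Filter (Ω × ℚ)) 𝓢) →
    (LL s 𝔮 (fun _ p => φ p.2))⁻¹ * LL s 𝔮 (fun v p => φ (p.2 * r v p.1)) *
      (LL s 𝔬 (fun v ω => φ (r v ω)))⁻¹ ∈ N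

/-- static consequences modulo `N` -/
structure Stat (𝓢 : Filter ℚ) (φ : ℚ → Γ) (N : Subgroup Γ) : Prop where
  lin : ∀ 𝔮 : Ultrafilter (ℚ × ℚ), E1 𝓢 φ (𝔮.map Prod.fst) →
    Tendsto (fun p : ℚ × ℚ => p.2) (𝔮 : Filter (ℚ × ℚ)) 𝓢 → ∀ x : ℚ,
    (L 𝔮 (fun p => φ p.2))⁻¹ * L 𝔮 (fun p => φ (p.2 * (1 + x * p.1))) ∈ N
  nrm : ∀ 𝔮 : Ultrafilter (ℚ × ℚ), U' 𝓢 φ 𝔮 →
    (L 𝔮 (fun p => φ p.2) * L 𝔮 (fun p => φ (1 + p.1 ^ 2)))⁻¹ *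
      L 𝔮 (fun p => φ (p.2 * (1 + p.1 ^ 2))) ∈ N

/-- `φ` is a homomorphism on small elements modulo `N` -/
def Hom (𝓢 : Filter ℚ) (φ : ℚ → Γ) (N : Subgroup Γ) : Prop :=
  ∀ 𝔮 : Ultrafilter (ℚ × ℚ), Tendsto (fun p : ℚ × ℚ => p.1) (𝔮 : Filter (ℚ × ℚ)) 𝓢 →
    Tendsto (fun p : ℚ × ℚ => p.2) (𝔮 : Filter (ℚ × ℚ)) 𝓢 →
    (L 𝔮 (fun p => φ p.2) * L 𝔮 (fun p => φ p.1))⁻¹ * L 𝔮 (fun p => φ (p.2 * p.1)) ∈ N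

/-- law of a pair of small elements `(κ, h)` -/
def U2 (𝓢 : Filter ℚ) (𝔴 : Ultrafilter (ℚ × ℚ)) : Prop :=
  Tendsto (fun p : ℚ × ℚ => p.1) (𝔴 : Filter (ℚ × ℚ)) 𝓢 ∧
    Tendsto (fun p : ℚ × ℚ => p.2) (𝔴 : Filter (ℚ × ℚ)) 𝓢

/-- the state of a law of `(κ, h)` -/
noncomputable def sttK (φ : ℚ → Γ) (𝔴 : Ultrafilter (ℚ × ℚ)) : St Γ :=
  (𝔴.map Prod.fst, (L 𝔴 (fun p => φ p.2), L 𝔴 (fun p => φ (p.2 * p.1))))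

/-- the move given by a law of `(κ', h')` -/
noncomputable def MvK (φ : ℚ → Γ) (𝔴 : Ultrafilter (ℚ × ℚ)) (x : St Γ) : St Γ :=
  ((sd x.1 (fun _ => 𝔴.map Prod.fst)).map (fun p => p.1 * p.2),
    (x.2.1 * L 𝔴 (fun p => φ p.2), x.2.2 * L 𝔴 (fun p => φ (p.2 * p.1))))

/-- minimal set of twist states and its group -/
structure YK (𝓢 : Filter ℚ) (φ : ℚ → Γ) (Y : Set (St Γ)) (N : Subgroup Γ) : Prop where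
  closed : IsClosed Y
  nonempty : Y.Nonempty
  sub : ∀ x ∈ Y, ∃ 𝔴 : Ultrafilter (ℚ × ℚ), U2 𝓢 𝔴 ∧ sttK φ 𝔴 = x
  inv : ∀ 𝔴 : Ultrafilter (ℚ × ℚ), U2 𝓢 𝔴 → ∀ x ∈ Y, MvK φ 𝔴 x ∈ Y
  ns : NS 𝓢 φ N
  mulN : ∀ x ∈ Y, ∀ n ∈ N, (x.1, (x.2.1, x.2.2 * n)) ∈ Y
  hom : Hom 𝓢 φ N

end Defs2

section Helpers

variable {Γ : Type*} [Group Γ] [TopologicalSpace Γ] [IsTopologicalGroup Γ]
  [CompactSpace Γ] [T2Space Γ] {𝓢 : Filter ℚ} {φ : ℚ → Γ} {Ω Ω' : Type*}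

lemma mem_G0 {𝔬 : Ultrafilter Ω} {r : Ω → ℚ} (hr : Tendsto r (𝔬 : Filter Ω) 𝓢) :
    L 𝔬 (fun ω => φ (r ω)) ∈ G0 𝓢 φ :=
  ⟨𝔬.map r, hr, L_map 𝔬 r φ⟩

lemma LL_mem_G0 (hcl : IsClosed (G0 𝓢 φ)) {𝔳 : Ultrafilter Ω} {𝔬 : Ω → Ultrafilter Ω'}
    {r : Ω → Ω' → ℚ} (hr : ∀ᶠ v in (𝔳 : Filter Ω), Tendsto (r v) (𝔬 v : Filter Ω') 𝓢) :
    LL 𝔳 𝔬 (fun v ω => φ (r v ω)) ∈ G0 𝓢 φ :=
  L_mem hcl (hr.mono fun _ hv => mem_G0 hv)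

lemma EK.e1 {κ : ℚ} {𝔲 : Ultrafilter ℚ} (h : EK 𝓢 φ κ 𝔲) : E1 𝓢 φ 𝔲 :=
  ⟨h.1, h.2.2.imp fun _ hq => ⟨hq.1, hq.2.1⟩⟩

lemma UK.u' {κ : ℚ} {𝔴 : Ultrafilter (ℚ × ℚ)} (h : UK 𝓢 φ κ 𝔴) : U' 𝓢 φ 𝔴 :=
  ⟨h.1.e1, h.2⟩

/-- the second component of `aa` -/
lemma aa_one (W : ℚ) : aa 1 W = (1 - W ^ 2) / (1 + W ^ 2) := by
  unfold aa
  ring

lemma one_add_sq_pos (W : ℚ) : 0 < 1 + W ^ 2 := by positivity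

lemma tendsto_aa (h : Sys 𝓢 φ) {l : Filter Ω} {W : Ω → ℚ}
    (h1 : ∀ x : ℚ, Tendsto (fun ω => 1 + x * W ω) l 𝓢)
    (h2 : Tendsto (fun ω => 1 + W ω ^ 2) l 𝓢) (c : ℚ) :
    Tendsto (fun ω => aa c (W ω)) l 𝓢 := by
  have ha := h1 (-c)
  have hb := h1 c⁻¹
  refine (h.tendsto_div (h.tendsto_mul ha hb) h2).congr fun ω => ?_
  unfold aa
  rw [div_eq_inv_mul (W ω) c]
  ring

lemma op_zero (V : ℚ) : op V 0 = V := by simp [op]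

lemma zero_op (V : ℚ) : op 0 V = V := by simp [op]

lemma aa_zero (c : ℚ) : aa c 0 = 1 := by simp [aa]

/-- the basic identity -/
lemma aa_op {V W : ℚ} (h1 : 1 - V ≠ 0) (h2 : 1 + V ≠ 0) (h3 : 1 - V * W ≠ 0) :
    aa 1 (op V W) = aa 1 V * aa (cc V) W := by
  have h4 : (1 : ℚ) + V ^ 2 ≠ 0 := (one_add_sq_pos V).ne'
  have h5 : (1 : ℚ) + W ^ 2 ≠ 0 := (one_add_sq_pos W).ne'
  have h6 : (1 : ℚ) + (op V W) ^ 2 ≠ 0 := (one_add_sq_pos _).ne'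
  have h7 : (1 - V * W) ^ 2 + (V + W) ^ 2 ≠ 0 := by
    have : (1 - V * W) ^ 2 + (V + W) ^ 2 = (1 + V ^ 2) * (1 + W ^ 2) := by ring
    rw [this]
    exact mul_ne_zero h4 h5
  rw [aa_one, aa_one]
  unfold aa cc op
  field_simp
  ring

/-- the norm of a composition -/
lemma norm_op {V W : ℚ} (h3 : 1 - V * W ≠ 0) :
    1 + (op V W) ^ 2 = (1 + V ^ 2) * (1 + W ^ 2) / (1 - V * W) ^ 2 := by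
  unfold op
  field_simp
  ring

/-- linear factors of a composition -/
lemma lin_op {x V W : ℚ} (h1 : 1 + x * V ≠ 0) (h3 : 1 - V * W ≠ 0) :
    1 + x * op V W = (1 + x * V) * ((1 + (x - V) / (1 + x * V) * W) / (1 - V * W)) := by
  unfold op
  field_simp
  ring

end Helpers

/-! ### Items, part A: laws -/

section ItemsA

variable (Γ : Type*) [Group Γ] [TopologicalSpace Γ] [IsTopologicalGroup Γ]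
  [CompactSpace Γ] [T2Space Γ]

/-- `𝓔₁` is closed under adaptive composition -/
def E1BND : Prop := ∀ (𝓢 : Filter ℚ) (φ : ℚ → Γ), Sys 𝓢 φ →
  ∀ (𝔲 : Ultrafilter ℚ) (m : ℚ → Ultrafilter ℚ), E1 𝓢 φ 𝔲 →
    (∀ᶠ V in (𝔲 : Filter ℚ), E1 𝓢 φ (m V)) → E1 𝓢 φ (bnd 𝔲 m)

/-- `𝓔_κ` followed by `𝓔₁` is in `𝓔_κ` -/
def EKBND : Prop := ∀ (𝓢 : Filter ℚ) (φ : ℚ → Γ), Sys 𝓢 φ → ∀ κ : ℚ, κ ≠ 0 →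
  ∀ (𝔲 : Ultrafilter ℚ) (m : ℚ → Ultrafilter ℚ), EK 𝓢 φ κ 𝔲 →
    (∀ᶠ V in (𝔲 : Filter ℚ), E1 𝓢 φ (m V)) → EK 𝓢 φ κ (bnd 𝔲 m)

/-- smallness of the norm under composition -/
def NRMBND : Prop := ∀ (𝓢 : Filter ℚ) (φ : ℚ → Γ), Sys 𝓢 φ →
  ∀ (𝔲 : Ultrafilter ℚ) (m : ℚ → Ultrafilter ℚ), (∀ᶠ V in (𝔲 : Filter ℚ), Lin 𝓢 (m V)) →
    Tendsto (fun p : ℚ × ℚ => (1 + p.1 ^ 2) * (1 + p.2 ^ 2)) (sd 𝔲 m : Filter (ℚ × ℚ)) 𝓢 →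
    Nrm 𝓢 (bnd 𝔲 m)

/-- Moebius invariance of `𝓔₁` -/
def MOB : Prop := ∀ (𝓢 : Filter ℚ) (φ : ℚ → Γ), Sys 𝓢 φ →
  E1 𝓢 φ (pure 0) ∧ ∀ 𝔲 : Ultrafilter ℚ, E1 𝓢 φ 𝔲 → ∀ l m : ℚ,
    E1 𝓢 φ (𝔲.map (fun w => m * w / (1 + l * w)))

/-- closedness -/
def CLSE : Prop := ∀ (𝓢 : Filter ℚ) (φ : ℚ → Γ) (κ : ℚ),
  IsClosed {𝔲 : Ultrafilter ℚ | E1 𝓢 φ 𝔲} ∧ IsClosed {𝔲 : Ultrafilter ℚ | EK 𝓢 φ κ 𝔲} ∧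
    IsClosed {𝔴 : Ultrafilter (ℚ × ℚ) | UK 𝓢 φ κ 𝔴}

/-! ### Items, part B: minimal sets -/

/-- closed subsemigroups of compact groups are groups -/
def CSG : Prop := ∀ S : Set Γ, IsClosed S → S.Nonempty → (∀ a ∈ S, ∀ b ∈ S, a * b ∈ S) →
  (1 : Γ) ∈ S ∧ ∀ a ∈ S, a⁻¹ ∈ S

/-- the limits of `φ` along small ultrafilters form a closed group -/
def G0S : Prop := ∀ (𝓢 : Filter ℚ) (φ : ℚ → Γ), Sys 𝓢 φ →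
  ∃ H : Subgroup Γ, (H : Set Γ) = G0 𝓢 φ ∧ IsClosed (H : Set Γ)

/-- the set of states is closed, nonempty and invariant -/
def X0P : Prop := ∀ (𝓢 : Filter ℚ) (φ : ℚ → Γ), Good 𝓢 φ → ∀ κ : ℚ, κ ≠ 0 →
  IsClosed (X0 𝓢 φ κ) ∧ (X0 𝓢 φ κ).Nonempty

/-- invariance of the set of states -/
def X0INV : Prop := ∀ (𝓢 : Filter ℚ) (φ : ℚ → Γ), Sys 𝓢 φ → ∀ κ : ℚ, κ ≠ 0 →
  ∀ F : ℚ → Ultrafilter (ℚ × ℚ), (∀ v, U' 𝓢 φ (F v)) → ∀ x ∈ X0 𝓢 φ κ, Mv φ F x ∈ X0 𝓢 φ κ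

/-- moves are continuous -/
def MVC : Prop := ∀ (φ : ℚ → Γ) (F : ℚ → Ultrafilter (ℚ × ℚ)), Continuous (Mv φ F)

/-- minimal set and its group -/
def YEX : Prop := ∀ (𝓢 : Filter ℚ) (φ : ℚ → Γ), Good 𝓢 φ → ∀ κ : ℚ, κ ≠ 0 →
  ∃ (Y : Set (St Γ)) (N : Subgroup Γ), YN 𝓢 φ κ Y N

/-! ### Items, part C: independence of linear factors -/

/-- independent families form a group -/
def INDG : Prop := ∀ (𝓢 : Filter ℚ) (φ : ℚ → Γ) (N : Subgroup Γ), Sys 𝓢 φ → NS 𝓢 φ N →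
  ∀ (s : Ultrafilter ℚ) (Ω : Type) (𝔬 : ℚ → Ultrafilter Ω),
    Ind 𝓢 φ N s 𝔬 (fun _ _ => 1) ∧
    (∀ r r' : ℚ → Ω → ℚ, Ind 𝓢 φ N s 𝔬 r →
      (∀ᶠ v in (s : Filter ℚ), ∀ᶠ ω in (𝔬 v : Filter Ω), r v ω = r' v ω) →
      Ind 𝓢 φ N s 𝔬 r') ∧
    (∀ r r' : ℚ → Ω → ℚ, Ind 𝓢 φ N s 𝔬 r → Ind 𝓢 φ N s 𝔬 r' →
      Ind 𝓢 φ N s 𝔬 (fun v ω => r v ω * r' v ω)) ∧
    (∀ r : ℚ → Ω → ℚ, Ind 𝓢 φ N s 𝔬 r → Ind 𝓢 φ N s 𝔬 (fun v ω => (r v ω)⁻¹))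

/-- the functions `aa (cc v) W` are independent -/
def KIND : Prop := ∀ (𝓢 : Filter ℚ) (φ : ℚ → Γ) (N : Subgroup Γ), Sys 𝓢 φ →
  ∀ s : Ultrafilter ℚ, Kst 𝓢 φ N s → ∀ (Ω : Type) (𝔬 : ℚ → Ultrafilter Ω) (W : ℚ → Ω → ℚ),
    (∀ᶠ v in (s : Filter ℚ), E1 𝓢 φ ((𝔬 v).map (W v)) ∧ Nrm 𝓢 ((𝔬 v).map (W v))) →
    Ind 𝓢 φ N s 𝔬 (fun v ω => aa (cc v) (W v ω))

/-- the closure step -/
def CLO : Prop := ∀ (𝓢 : Filter ℚ) (φ : ℚ → Γ) (N : Subgroup Γ), Good 𝓢 φ → NS 𝓢 φ N →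
  ∀ s : Ultrafilter ℚ, Lin 𝓢 s → (∀ᶠ v in (s : Filter ℚ), v ≠ 0) → Kst 𝓢 φ N s →
  ∀ 𝔲 : ℚ → Ultrafilter ℚ, (∀ᶠ v in (s : Filter ℚ), E1 𝓢 φ (𝔲 v)) → ∀ l m : ℚ → ℚ,
    Ind 𝓢 φ N s 𝔲 (fun v w =>
      (1 + (l v - cc v * m v) * w) * (1 + (l v + m v / cc v) * w) /
        ((1 + (l v + cc v * m v) * w) * (1 + (l v - m v / cc v) * w)))

/-- all linear factors are independent -/
def LIN : Prop := ∀ (𝓢 : Filter ℚ) (φ : ℚ → Γ) (N : Subgroup Γ), Good 𝓢 φ → NS 𝓢 φ N →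
  ∀ s : Ultrafilter ℚ, Lin 𝓢 s → (∀ᶠ v in (s : Filter ℚ), v ≠ 0) → Kst 𝓢 φ N s →
  ∀ 𝔲 : ℚ → Ultrafilter ℚ, (∀ᶠ v in (s : Filter ℚ), E1 𝓢 φ (𝔲 v)) → ∀ x : ℚ → ℚ,
    Ind 𝓢 φ N s 𝔲 (fun v w => 1 + x v * w)

/-- static consequences -/
def STAT : Prop := ∀ (𝓢 : Filter ℚ) (φ : ℚ → Γ) (N : Subgroup Γ), Good 𝓢 φ → NS 𝓢 φ N →
  ∀ s : Ultrafilter ℚ, Lin 𝓢 s → (∀ᶠ v in (s : Filter ℚ), v ≠ 0) → Kst 𝓢 φ N s →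
    Stat 𝓢 φ N

/-! ### Items, part D: end of the proof -/

/-- minimal set of twist states -/
def KYEX : Prop := ∀ (𝓢 : Filter ℚ) (φ : ℚ → Γ), Sys 𝓢 φ →
  ∃ (Y : Set (St Γ)) (N : Subgroup Γ), YK 𝓢 φ Y N

/-- the group of the twist -/
def KPART : Prop := ∀ (𝓢 : Filter ℚ) (φ : ℚ → Γ), Sys 𝓢 φ →
  ∃ N : Subgroup Γ, NS 𝓢 φ N ∧ Hom 𝓢 φ N ∧ ∃ 𝔨 : Ultrafilter ℚ, (𝔨 : Filter ℚ) ≤ 𝓢 ∧
    ∀ n ∈ N, ∃ 𝔴 : Ultrafilter (ℚ × ℚ), 𝔴.map Prod.fst = 𝔨 ∧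
      Tendsto (fun p : ℚ × ℚ => p.2) (𝔴 : Filter (ℚ × ℚ)) 𝓢 ∧
      (L 𝔴 (fun p => φ p.2))⁻¹ * L 𝔴 (fun p => φ (p.2 * p.1)) = n

/-- the norm limit can be brought into the group -/
def THETA : Prop := ∀ (𝓢 : Filter ℚ) (φ : ℚ → Γ), Good 𝓢 φ → ∀ κ : ℚ, κ ≠ 0 →
  ∀ (Y : Set (St Γ)) (N M : Subgroup Γ), YN 𝓢 φ κ Y N → NS 𝓢 φ M → Stat 𝓢 φ M →
    ∃ x ∈ Y, L x.1 (fun V => φ (1 + V ^ 2)) ∈ M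

/-- the laws for one twist -/
def PT : Prop := ∀ (𝓢 : Filter ℚ) (φ : ℚ → Γ), Good 𝓢 φ → ∀ N' : Subgroup Γ, NS 𝓢 φ N' →
  Hom 𝓢 φ N' → ∀ κ : ℚ, κ ≠ 0 → ∃ (𝔴 : Ultrafilter (ℚ × ℚ)) (x : Γ), UK 𝓢 φ κ 𝔴 ∧
    L 𝔴 (fun p => φ p.2) = x ∧ L 𝔴 (fun p => φ (p.2 * aa 1 p.1)) = x ∧
    x⁻¹ * L 𝔴 (fun p => φ (p.2 * (2 * p.1 / κ / (1 + p.1 ^ 2)))) ∈ N'

/-- the theorem on the rationals -/
def FIN : Prop := ∀ (𝓢 : Filter ℚ) (φ : ℚ → Γ), Good 𝓢 φ → ∀ s ∈ 𝓢, ∀ O ∈ 𝓝 (1 : Γ),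
  ∃ X Y Z : ℚ, X ^ 2 + Y ^ 2 = Z ^ 2 ∧ X ∈ s ∧ Y ∈ s ∧ Z ∈ s ∧ φ X ∈ O ∧ φ Y ∈ O ∧ φ Z ∈ O

end ItemsA

/-- minimal closed invariant sets of maps commuting with a group action -/
def MIN.{u, v, w} : Prop := ∀ (X : Type u) (H : Type v) (ι : Type w) [TopologicalSpace X]
  [CompactSpace X] [T2Space X] [Group H] [MulAction H X],
  (∀ h : H, Continuous (fun x : X => h • x)) → ∀ M : ι → X → X, (∀ i, Continuous (M i)) →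
  (∀ i (h : H) x, M i (h • x) = h • M i x) → ∀ X₀ : Set X, IsClosed X₀ → X₀.Nonempty →
  (∀ i, ∀ x ∈ X₀, M i x ∈ X₀) →
  ∃ Y ⊆ X₀, IsClosed Y ∧ Y.Nonempty ∧ (∀ i, ∀ x ∈ Y, M i x ∈ Y) ∧
    ∀ (h : H) (x : X), x ∈ Y → h • x ∈ Y → ∀ y ∈ Y, h • y ∈ Y ∧ h⁻¹ • y ∈ Y

/-- the functional equation that eliminates the norms -/
def TOOL.{u, v} : Prop := ∀ (R : Type u) (A : Type v) [CommRing R] [AddCommGroup A] (D : R → A)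
  (c c' : R), c * c' = 1 → IsUnit (2 : R) → IsUnit (c + c') → IsUnit (c - c') →
  (∀ l m : R, D (l - c * m) + D (l + c' * m) = D (l + c * m) + D (l - c' * m)) →
  ∀ x : R, D x = D 0

/-! ### Items, part E: from the positive integers to the rationals -/

section ItemsE

/-- the filter of small rationals -/
def sml {K : Type*} [Group K] [TopologicalSpace K] (f : ℚ → K) : Filter ℚ :=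
  comap f (𝓝 1) ⊓ 𝓟 {q : ℚ | q ≠ 0}

/-- systems over compact groups -/
structure KSys {K Γ : Type*} [CommGroup K] [TopologicalSpace K] [Group Γ] [TopologicalSpace Γ]
    (f : ℚ → K) (φ : ℚ → Γ) : Prop where
  mul : ∀ a b : ℚ, a ≠ 0 → b ≠ 0 → f (a * b) = f a * f b
  φ_one : φ 1 = 1
  loc : ∀ᶠ k in sml f, Tendsto (fun r => (φ k)⁻¹ * φ (k * r) * (φ r)⁻¹) (sml f) (𝓝 1)

/-- contains a dilate of every finite set of positive integers -/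
def Thick (A : Set ℕ) : Prop :=
  ∀ X : Finset ℕ, (∀ x ∈ X, 0 < x) → ∃ k : ℕ, 0 < k ∧ ∀ x ∈ X, x * k ∈ A

/-- local cocycle property at the point `1` -/
structure NSys {K Γ : Type*} [CommGroup K] [TopologicalSpace K] [Group Γ] [TopologicalSpace Γ]
    (f : ℕ → K) (φ : ℕ → Γ) (W : Set K) (τ : ℕ → K → Γ) : Prop where
  mul : ∀ m n : ℕ, 0 < m → 0 < n → f (m * n) = f m * f n
  φ_one : φ 1 = 1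
  W_open : IsOpen W
  W_one : (1 : K) ∈ W
  cont : ∀ k, 0 < k → ContinuousOn (τ k) {x | x ∈ W ∧ f k * x ∈ W}
  coc : ∀ k n, 0 < k → 0 < n → f n ∈ W → f (k * n) ∈ W → φ (k * n) = τ k (f n) * φ n

/-- the extension of a completely multiplicative function to the rationals -/
def ex {K : Type*} [CommGroup K] (f : ℕ → K) (q : ℚ) : K := f q.num.natAbs * (f q.den)⁻¹

/-- the extension of `φ` to the rationals along an ultrafilter -/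
noncomputable def ph {Γ : Type*} [TopologicalSpace Γ] [CompactSpace Γ] [T2Space Γ]
    (p : Ultrafilter ℕ) (φ : ℕ → Γ) (q : ℚ) : Γ := L p (fun n => φ ⌊|q| * n⌋₊)

/-- an ultrafilter of dilations -/
structure PU {K Γ : Type*} [CommGroup K] [TopologicalSpace K] [Group Γ] [TopologicalSpace Γ]
    (f : ℕ → K) (φ : ℕ → Γ) (A : Set ℕ) (p : Ultrafilter ℕ) : Prop where
  int : ∀ r : ℚ, 0 < r → ∀ᶠ n : ℕ in (p : Filter ℕ), ∃ m : ℕ, 0 < m ∧ m ∈ A ∧ (m : ℚ) = r * n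
  f_lim : Tendsto f (p : Filter ℕ) (𝓝 1)
  φ_lim : Tendsto φ (p : Filter ℕ) (𝓝 1)

variable (K Γ : Type*) [CommGroup K] [TopologicalSpace K] [IsTopologicalGroup K]
  [CompactSpace K] [T2Space K] [Group Γ] [TopologicalSpace Γ] [IsTopologicalGroup Γ]
  [CompactSpace Γ] [T2Space Γ]

/-- a system over a compact group is a system -/
def KSS : Prop := ∀ (f : ℚ → K) (φ : ℚ → Γ), KSys f φ → Sys (sml f) φ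

/-- compensators -/
def COMPK : Prop := ∀ (f : ℚ → K) (φ : ℚ → Γ), KSys f φ →
  ∀ 𝔲 : Ultrafilter ℚ, E1 (sml f) φ 𝔲 → ∃ 𝔲' : Ultrafilter ℚ, E1 (sml f) φ 𝔲' ∧
    Tendsto (fun p : ℚ × ℚ => (1 + p.1 ^ 2) * (1 + p.2 ^ 2))
      (sd 𝔲 (fun _ => 𝔲') : Filter (ℚ × ℚ)) (sml f)

/-- return times are syndetic -/
def SYNDQ : Prop := ∀ (f : ℚ → K) (φ : ℚ → Γ), KSys f φ → ∀ s ∈ sml f, ∀ O ∈ 𝓝 (1 : Γ),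
  ∃ M : Finset ℚ, (∀ m ∈ M, m ≠ 0) ∧ ∀ g : ℚ, g ≠ 0 → ∃ m ∈ M, m * g ∈ s ∧ φ (m * g) ∈ O

/-- configurations -/
def CFG : Prop := ∀ (f : ℚ → K) (φ : ℚ → Γ), KSys f φ → ∀ κ : ℚ, κ ≠ 0 → ∀ X : Finset ℚ,
  ∀ s ∈ sml f, ∀ O ∈ 𝓝 (1 : Γ), ∃ W q : ℚ, q ∈ s ∧ φ q ∈ O ∧ 2 * W / κ ∈ s ∧
    φ (q * (2 * W / κ)) ∈ O ∧ ∀ x ∈ X, 1 + x * W ∈ s ∧ φ (q * (1 + x * W)) ∈ O

/-- twisted laws exist -/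
def TWISTK : Prop := ∀ (f : ℚ → K) (φ : ℚ → Γ), KSys f φ → ∀ κ : ℚ, κ ≠ 0 →
  ∃ 𝔲 : Ultrafilter ℚ, EK (sml f) φ κ 𝔲

/-- the ultrafilter of dilations exists -/
def PEX : Prop := ∀ (f : ℕ → K) (φ : ℕ → Γ) (W : Set K) (τ : ℕ → K → Γ), NSys f φ W τ →
  ∀ A : Set ℕ, Thick A → ∃ p : Ultrafilter ℕ, PU f φ A p

/-- the extension to the rationals is a system -/
def RATK : Prop := ∀ (f : ℕ → K) (φ : ℕ → Γ) (W : Set K) (τ : ℕ → K → Γ), NSys f φ W τ →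
  ∀ (A : Set ℕ) (p : Ultrafilter ℕ), PU f φ A p → KSys (ex f) (ph p φ)

/-- transfer of triples from the rationals to the positive integers -/
def RATT : Prop := ∀ (f : ℕ → K) (φ : ℕ → Γ) (W : Set K) (τ : ℕ → K → Γ), NSys f φ W τ →
  ∀ (A : Set ℕ) (p : Ultrafilter ℕ), PU f φ A p → ∀ U ∈ 𝓝 (1 : K), ∀ O ∈ 𝓝 (1 : Γ),
    ∃ s ∈ sml (ex f), ∃ O' ∈ 𝓝 (1 : Γ), ∀ X Y Z : ℚ, X ^ 2 + Y ^ 2 = Z ^ 2 →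
      X ∈ s → Y ∈ s → Z ∈ s → ph p φ X ∈ O' → ph p φ Y ∈ O' → ph p φ Z ∈ O' →
      ∃ x y z : ℕ, 0 < x ∧ 0 < y ∧ 0 < z ∧ x ^ 2 + y ^ 2 = z ^ 2 ∧ x ∈ A ∧ y ∈ A ∧ z ∈ A ∧
        f x ∈ U ∧ f y ∈ U ∧ f z ∈ U ∧ φ x ∈ O ∧ φ y ∈ O ∧ φ z ∈ O

end ItemsE

/-- the theorem of Brauer, with a multiplier -/
def BRAUER : Prop := ∀ (κ : Type) [Finite κ] (J c : ℕ), 0 < c → ∀ χ : ℕ → κ,
  ∃ s d : ℕ, 0 < d ∧ J * d < s ∧ ∀ j ≤ J, χ (s + j * d) = χ (c * d) ∧ χ (s - j * d) = χ (c * d)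

end Pool.Agent.Work.MP_0f91f8_co.Cge
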